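import Pool.Agent.H48.SC.Lat

/-! # Boxes -/

set_option autoImplicit false

namespace Pool.Agent.H48.SC

open Pool.Agent.H90.SC

variable {d : ℕ}

private theorem bg_mem_box {v : Vtx d} {N : ℕ} :
    v ∈ box d N ↔ ∀ i, -(N : ℤ) ≤ v i ∧ v i ≤ N := by
  unfold box
  simp only [Fintype.mem_piFinset, Finset.mem_Icc]

private theorem bg_mem_boxE {e : Edg d} {N : ℕ} :
    e ∈ boxE d N ↔ e.1 ∈ box d N ∧ tip e ∈ box d N := by
  unfold boxE
  simp only [Finset.mem_filter, Finset.mem_product, Finset.mem_univ, and_true]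

private theorem bg_box_mono {M N : ℕ} (h : M ≤ N) {v : Vtx d} (hv : v ∈ box d M) :
    v ∈ box d N := by
  rw [bg_mem_box] at hv ⊢
  intro i
  have := hv i
  omega

private theorem bg_abs (v : Vtx d) (i : Fin d) : |v i| ≤ ((∑ j, (v j).natAbs : ℕ) : ℤ) := by
  rw [Int.abs_eq_natAbs]
  have : (v i).natAbs ≤ ∑ j, (v j).natAbs :=
    Finset.single_le_sum (f := fun j => (v j).natAbs) (fun _ _ => Nat.zero_le _)
      (Finset.mem_univ i)
  exact_mod_cast this

private theorem bg_exists (v : Vtx d) : ∃ N, v ∈ box d N := by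
  refine ⟨∑ j, (v j).natAbs, ?_⟩
  rw [bg_mem_box]
  intro i
  exact abs_le.1 (bg_abs v i)

theorem boxE_mono {M N : ℕ} (h : M ≤ N) : boxE d M ⊆ boxE d N := by
  intro e he
  rw [bg_mem_boxE] at he ⊢
  exact ⟨bg_box_mono h he.1, bg_box_mono h he.2⟩

/-- Every finite set of edges lies in a box. -/
theorem exists_box (F : Finset (Edg d)) : ∃ N, F ⊆ boxE d N := by
  classical
  induction F using Finset.induction_on with
  | empty => exact ⟨0, Finset.empty_subset _⟩
  | insert e F _ ih =>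
    obtain ⟨N, hN⟩ := ih
    obtain ⟨A, hA⟩ := bg_exists e.1
    obtain ⟨B, hB⟩ := bg_exists (tip e)
    refine ⟨N + A + B, Finset.insert_subset ?_ (hN.trans (boxE_mono (by omega)))⟩
    rw [bg_mem_boxE]
    exact ⟨bg_box_mono (by omega) hA, bg_box_mono (by omega) hB⟩

/-- A translated box lies in a larger box. -/
theorem exists_shift_box (z : Vtx d) : ∃ K : ℕ, ∀ N, sE z (boxE d N) ⊆ boxE d (N + K) := by
  have key : ∀ (N : ℕ) (v : Vtx d), v - z ∈ box d N →
      v ∈ box d (N + ∑ j, (z j).natAbs) := by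
    intro N v hv
    rw [bg_mem_box] at hv ⊢
    intro i
    have h1 := hv i
    have h2 := abs_le.1 (bg_abs z i)
    rw [Pi.sub_apply] at h1
    rw [Nat.cast_add]
    generalize ((∑ j, (z j).natAbs : ℕ) : ℤ) = K at h2 ⊢
    constructor
    · linarith [h1.1, h2.1]
    · linarith [h1.2, h2.2]
  refine ⟨∑ j, (z j).natAbs, fun N e he => ?_⟩
  rw [mem_sE, bg_mem_boxE, tip_sub] at he
  rw [bg_mem_boxE]
  exact ⟨key N _ he.1, key N _ he.2⟩

/-- Far away translates of a finite set of edges are disjoint from `F`. -/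
theorem exists_far (hd : 1 ≤ d) (F G : Finset (Edg d)) : ∃ x : Vtx d, Disjoint (sE x G) F := by
  obtain ⟨M, hM⟩ := exists_box F
  obtain ⟨N, hN⟩ := exists_box G
  refine ⟨fun _ => (M : ℤ) + N + 1, ?_⟩
  rw [Finset.disjoint_left]
  intro e he hF
  rw [mem_sE] at he
  have h1 := (bg_mem_box.1 (bg_mem_boxE.1 (hN he)).1) ⟨0, hd⟩
  have h2 := (bg_mem_box.1 (bg_mem_boxE.1 (hM hF)).1) ⟨0, hd⟩
  simp only [Pi.sub_apply] at h1
  linarith [h1.1, h2.2]

/-- There are points outside of the box. -/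
theorem exists_notMem_box (hd : 1 ≤ d) (R : ℕ) : ∃ v : Vtx d, v ∉ box d R := by
  refine ⟨fun _ => (R : ℤ) + 1, fun h => ?_⟩
  have := (bg_mem_box.1 h ⟨0, hd⟩).2
  linarith

end Pool.Agent.H48.SC
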