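import Pool.Agent.H48.SC.Lat

/-! # Numbers of edges -/

set_option autoImplicit false

namespace Pool.Agent.H48.SC

open Pool.Agent.H90.SC

variable {d : ℕ}

private lemma mem_box' {N : ℕ} {x : Vtx d} :
    x ∈ box d N ↔ ∀ j, -(N : ℤ) ≤ x j ∧ x j ≤ N := by
  unfold box
  simp [Fintype.mem_piFinset]

private lemma tip_same (x : Vtx d) (i : Fin d) : tip (x, i) i = x i + 1 := by
  unfold tip
  simp

private lemma tip_ne (x : Vtx d) (i j : Fin d) (h : j ≠ i) : tip (x, i) j = x j := by
  unfold tip
  simp [Pi.single_eq_of_ne h]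

private lemma mem_boxE' {N : ℕ} {e : Edg d} :
    e ∈ boxE d N ↔ e.1 ∈ box d N ∧ tip e ∈ box d N := by
  unfold boxE
  simp

private lemma mem_touchE' {N : ℕ} {e : Edg d} :
    e ∈ touchE d N ↔ (e.1 ∈ box d (N + 1) ∧ tip e ∈ box d (N + 1)) ∧
      (e.1 ∈ box d N ∨ tip e ∈ box d N) := by
  unfold touchE
  rw [Finset.mem_filter, mem_boxE']

theorem boxE_sub_touchE (N : ℕ) : boxE d N ⊆ touchE d N := by
  intro e he
  rw [mem_boxE'] at he
  rw [mem_touchE']
  have hmono : ∀ x : Vtx d, x ∈ box d N → x ∈ box d (N + 1) := by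
    intro x hx
    rw [mem_box'] at hx ⊢
    intro j
    have := hx j
    push_cast
    constructor <;> linarith [this.1, this.2]
  exact ⟨⟨hmono _ he.1, hmono _ he.2⟩, Or.inl he.1⟩

/-- product over the coordinates -/
private lemma prod_dir (a b : ℕ) (i : Fin d) :
    ∏ j : Fin d, (if j = i then a else b) = a * b ^ (d - 1) := by
  rw [← Finset.mul_prod_erase Finset.univ _ (Finset.mem_univ i)]
  rw [if_pos rfl]
  congr 1
  rw [Finset.prod_congr rfl (g := fun _ => b)]
  · rw [Finset.prod_const, Finset.card_erase_of_mem (Finset.mem_univ i), Finset.card_univ,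
      Fintype.card_fin]
  · intro j hj
    rw [if_neg (Finset.ne_of_mem_erase hj)]

private lemma card_pi (S : Finset ℤ) (N : ℕ) (i : Fin d) :
    (Fintype.piFinset fun j : Fin d => if j = i then S else Finset.Icc (-(N : ℤ)) N).card =
      S.card * (2 * N + 1) ^ (d - 1) := by
  rw [Fintype.card_piFinset, ← prod_dir S.card (2 * N + 1) i]
  refine Finset.prod_congr rfl fun j _ => ?_
  split_ifs
  · rfl
  · rw [Int.card_Icc]
    omega

theorem card_dir (N : ℕ) (i : Fin d) :
    ((boxE d N).filter fun e => e.2 = i).card = 2 * N * (2 * N + 1) ^ (d - 1) := by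
  have hE : (boxE d N).filter (fun e => e.2 = i) =
      (Fintype.piFinset fun j : Fin d =>
        if j = i then Finset.Icc (-(N : ℤ)) (N - 1) else Finset.Icc (-(N : ℤ)) N).image
        (fun x => ((x, i) : Edg d)) := by
    ext e
    obtain ⟨x, l⟩ := e
    rw [Finset.mem_filter, mem_boxE', Finset.mem_image]
    constructor
    · rintro ⟨⟨h1, h2⟩, h3⟩
      simp only at h1 h3
      subst h3
      refine ⟨x, ?_, rfl⟩
      rw [Fintype.mem_piFinset]
      intro j
      rw [mem_box'] at h1 h2
      by_cases hj : j = l
      · subst hj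
        rw [if_pos rfl, Finset.mem_Icc]
        have a1 := h1 j
        have a2 := h2 j
        rw [tip_same] at a2
        constructor
        · exact a1.1
        · linarith [a2.2]
      · rw [if_neg hj, Finset.mem_Icc]
        exact h1 j
    · rintro ⟨y, hy, hye⟩
      rw [Prod.mk.injEq] at hye
      obtain ⟨rfl, rfl⟩ := hye
      rw [Fintype.mem_piFinset] at hy
      have hy0 : -(N : ℤ) ≤ y i ∧ y i ≤ N - 1 := by
        have := hy i
        rwa [if_pos rfl, Finset.mem_Icc] at this
      have hy1 : ∀ j, j ≠ i → -(N : ℤ) ≤ y j ∧ y j ≤ N := by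
        intro j hj
        have := hy j
        rwa [if_neg hj, Finset.mem_Icc] at this
      refine ⟨⟨?_, ?_⟩, rfl⟩
      · rw [mem_box']
        intro j
        by_cases hj : j = i
        · subst hj
          constructor
          · exact hy0.1
          · show y j ≤ N
            linarith [hy0.2]
        · exact hy1 j hj
      · rw [mem_box']
        intro j
        by_cases hj : j = i
        · subst hj
          rw [tip_same]
          constructor <;> linarith [hy0.1, hy0.2]
        · rw [tip_ne _ _ _ hj]
          exact hy1 j hj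
  rw [hE, Finset.card_image_of_injective _ (fun a b h => (Prod.mk.injEq _ _ _ _ ▸ h).1), card_pi,
    Int.card_Icc]
  congr 1
  omega

theorem card_bdry (N : ℕ) : (touchE d N \ boxE d N).card ≤ 2 * d * (2 * N + 1) ^ (d - 1) := by
  have hsub : touchE d N \ boxE d N ⊆ (Finset.univ : Finset (Fin d)).biUnion fun i =>
      (Fintype.piFinset fun j : Fin d =>
        if j = i then ({(N : ℤ), -(N : ℤ) - 1} : Finset ℤ) else Finset.Icc (-(N : ℤ)) N).image
        (fun x => ((x, i) : Edg d)) := by
    intro e he
    obtain ⟨x, i⟩ := e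
    rw [Finset.mem_sdiff, mem_touchE', mem_boxE'] at he
    obtain ⟨⟨⟨h1, h2⟩, h3⟩, h4⟩ := he
    rw [Finset.mem_biUnion]
    refine ⟨i, Finset.mem_univ _, ?_⟩
    rw [Finset.mem_image]
    refine ⟨x, ?_, rfl⟩
    rw [Fintype.mem_piFinset]
    simp only [mem_box'] at h1 h2 h3 h4
    have hoth : ∀ j, j ≠ i → -(N : ℤ) ≤ x j ∧ x j ≤ N := by
      intro j hj
      rcases h3 with h3 | h3
      · exact h3 j
      · have := h3 j
        rwa [tip_ne _ _ _ hj] at this
    intro j
    by_cases hj : j = i
    · subst hj
      rw [if_pos rfl, Finset.mem_insert, Finset.mem_singleton]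
      by_contra hc
      rw [not_or] at hc
      apply h4
      have hN : -(N : ℤ) ≤ x j ∧ x j + 1 ≤ N := by
        rcases h3 with h3 | h3
        · have := h3 j
          have h5 := hc.1
          omega
        · have := h3 j
          rw [tip_same] at this
          have h5 := hc.2
          omega
      refine ⟨?_, ?_⟩
      · intro l
        by_cases hl : l = j
        · subst hl
          exact ⟨hN.1, by show x l ≤ N; linarith [hN.2]⟩
        · exact hoth l hl
      · intro l
        by_cases hl : l = j
        · subst hl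
          rw [tip_same]
          exact ⟨by linarith [hN.1], hN.2⟩
        · rw [tip_ne _ _ _ hl]
          exact hoth l hl
    · rw [if_neg hj, Finset.mem_Icc]
      exact hoth j hj
  refine (Finset.card_le_card hsub).trans ?_
  refine Finset.card_biUnion_le.trans ?_
  have : ∀ i ∈ (Finset.univ : Finset (Fin d)),
      ((Fintype.piFinset fun j : Fin d =>
        if j = i then ({(N : ℤ), -(N : ℤ) - 1} : Finset ℤ) else Finset.Icc (-(N : ℤ)) N).image
        (fun x => ((x, i) : Edg d))).card ≤ 2 * (2 * N + 1) ^ (d - 1) := by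
    intro i _
    refine Finset.card_image_le.trans ?_
    rw [card_pi]
    exact Nat.mul_le_mul_right _ Finset.card_le_two
  refine (Finset.sum_le_sum this).trans ?_
  rw [Finset.sum_const, Finset.card_univ, Fintype.card_fin, smul_eq_mul]
  apply le_of_eq
  ring

end Pool.Agent.H48.SC
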