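import Pool.Agent.H48.SC.Defs

/-! # Sums of products over function spaces -/

set_option autoImplicit false

namespace Pool.Agent.H48.SC

/-- Sum of a product. -/
theorem sum_prod {E S : Type*} [Fintype E] [DecidableEq E] [Fintype S] (w : E → S → ℝ) :
    ∑ s : E → S, ∏ e, w e (s e) = ∏ e, ∑ x, w e x := by
  classical
  rw [Finset.prod_univ_sum, Fintype.piFinset_univ]

/-- Push-forward of a product weight. -/
theorem push {E S R : Type*} [Fintype E] [DecidableEq E] [Fintype S] [Fintype R] [DecidableEq R]
    (w : E → S → ℝ) (π : E → S → R) (G : (E → R) → ℝ) :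
    ∑ s : E → S, (∏ e, w e (s e)) * G (fun e => π e (s e)) =
      ∑ r : E → R, (∏ e, ∑ x : S, if π e x = r e then w e x else 0) * G r := by
  classical
  have h1 : ∀ r : E → R, (∏ e, ∑ x : S, if π e x = r e then w e x else 0) * G r =
      ∑ s : E → S, (∏ e, if π e (s e) = r e then w e (s e) else 0) * G r := by
    intro r
    rw [← sum_prod (fun e x => if π e x = r e then w e x else 0), Finset.sum_mul]
  rw [Finset.sum_congr rfl fun r _ => h1 r, Finset.sum_comm]
  refine Finset.sum_congr rfl fun s _ => ?_
  rw [Finset.sum_eq_single (fun e => π e (s e))]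
  · simp
  · intro r _ hr
    obtain ⟨e, he⟩ : ∃ e, r e ≠ π e (s e) := by
      by_contra hc
      push Not at hc
      exact hr (funext hc)
    rw [Finset.prod_eq_zero (Finset.mem_univ e), zero_mul]
    exact if_neg (fun h => he h.symm)
  · intro h
    exact absurd (Finset.mem_univ _) h

end Pool.Agent.H48.SC
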