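import Pool.Agent.H48.SC.Defs

/-! # The identities and inequalities on one edge -/

set_option autoImplicit false

namespace Pool.Agent.H48.SC

private lemma z01 (ν : ZMod 2) : ν = 0 ∨ ν = 1 := by
  revert ν; decide

private lemma one_ne : (1 : ZMod 2) ≠ 0 := by decide

private lemma one_add_one' : (1 : ZMod 2) + 1 = 0 := by decide

private lemma c2 (L : ℝ) : Real.cosh (2 * L) = 2 * Real.sinh L ^ 2 + 1 := by
  rw [Real.cosh_two_mul, Real.cosh_sq]; ring

private lemma s2 (L : ℝ) : Real.sinh (2 * L) = 2 * Real.sinh L * Real.cosh L :=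
  Real.sinh_two_mul L

private lemma c3 (L : ℝ) : Real.cosh (3 * L) = 4 * Real.cosh L ^ 3 - 3 * Real.cosh L :=
  Real.cosh_three_mul L

private lemma s3 (L : ℝ) : Real.sinh (3 * L) = 4 * Real.sinh L ^ 3 + 3 * Real.sinh L :=
  Real.sinh_three_mul L

private lemma hcs (L : ℝ) : Real.cosh L ^ 2 = Real.sinh L ^ 2 + 1 := Real.cosh_sq L

theorem Wt_nonneg {L : ℝ} (hL : 0 ≤ L) (ν : ZMod 2) (t o : Bool) : 0 ≤ Wt L ν t o := by
  have h1 : 1 ≤ Real.cosh (2 * L) := Real.one_le_cosh _
  have h2 : 0 ≤ Real.sinh (2 * L) := Real.sinh_nonneg_iff.2 (by linarith)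
  unfold Wt
  have h3 : 0 ≤ Real.cosh (2 * L) - 1 := by linarith
  split_ifs <;> positivity

/-- After multiplication by 2 for `o = true` the weights are symmetric. -/
theorem Wt_symm (L : ℝ) (ν : ZMod 2) : Wt L ν true false = Wt L ν false true * 2 := by
  unfold Wt
  rcases z01 ν with rfl | rfl
  · simp
  · simp [one_ne]

theorem Wt_sum (L : ℝ) (ν μ : ZMod 2) :
    ∑ t : Bool, ∑ o : Bool, Wt L ν t o * le1 μ o = w1 (3 * L) (ν + μ) * w1 L μ := by
  have hc := hcs L
  simp only [Fintype.sum_bool]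
  unfold Wt le1 w1
  rcases z01 ν with rfl | rfl <;> rcases z01 μ with rfl | rfl
  · simp only [c2, s2, c3, if_true, add_zero]
    norm_num
    linear_combination (-2 * Real.sinh L ^ 2 - 4 * Real.cosh L ^ 2 - 1) * hc
  · simp only [c2, s2, s3, zero_add, one_ne, if_true, if_false]
    norm_num
    linear_combination (2 * Real.sinh L ^ 2) * hc
  · simp only [c2, s2, s3, add_zero, one_ne, if_true, if_false]
    norm_num
    ring
  · simp only [c2, s2, c3, one_add_one', one_ne, if_true, if_false]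
    norm_num
    linear_combination (-4 * Real.sinh L * Real.cosh L) * hc

theorem cw_sum (J : ℝ) (η : ZMod 2) : ∑ t : Bool, cw J η t = w1 J η := by
  simp only [Fintype.sum_bool]
  unfold cw w1
  rcases z01 η with rfl | rfl
  · simp
  · simp [one_ne]

theorem cw_nonneg {J : ℝ} (hJ : 0 ≤ J) (η : ZMod 2) (t : Bool) : 0 ≤ cw J η t := by
  have h1 : 1 ≤ Real.cosh J := Real.one_le_cosh _
  have h2 : 0 ≤ Real.sinh J := Real.sinh_nonneg_iff.2 hJ
  unfold cw
  split_ifs
  · linarith
  · norm_num
  · exact h2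
  · exact le_refl _

theorem w1_nonneg {J : ℝ} (hJ : 0 ≤ J) (η : ZMod 2) : 0 ≤ w1 J η := by
  rw [← cw_sum]
  exact Finset.sum_nonneg fun t _ => cw_nonneg hJ η t

theorem le1_nonneg (μ : ZMod 2) (o : Bool) : 0 ≤ le1 μ o := by
  unfold le1
  split_ifs <;> norm_num

theorem cw_false_le {L : ℝ} (hL : 0 ≤ L) (ν μ : ZMod 2) :
    cw (3 * L) (ν + μ) false * w1 L μ ≤ ∑ o : Bool, Wt L ν false o * le1 μ o := by
  have hc := hcs L
  have h1 : 1 ≤ Real.cosh L := Real.one_le_cosh _
  have h2 : 0 ≤ Real.sinh L := Real.sinh_nonneg_iff.2 hL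
  simp only [Fintype.sum_bool]
  unfold Wt le1 w1 cw
  rcases z01 ν with rfl | rfl <;> rcases z01 μ with rfl | rfl
  · simp only [c2, s2, if_true, add_zero]
    norm_num
    nlinarith
  · simp only [c2, s2, zero_add, one_ne, if_true, if_false]
    norm_num
    positivity
  · simp only [c2, s2, add_zero, one_ne, if_true, if_false]
    norm_num
    positivity
  · simp only [c2, s2, one_add_one', one_ne, if_true, if_false]
    norm_num
    nlinarith

/-- The indicator of `Le`. -/
theorem ind_Le {E : Type*} [Fintype E] (μ : E → ZMod 2) (ω : E → Bool) :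
    ind (Le μ ω) = ∏ e, le1 (μ e) (ω e) := by
  classical
  by_cases h : Le μ ω
  · rw [ind_true h, Finset.prod_eq_one]
    intro e _
    unfold le1
    by_cases h0 : μ e = 0
    · rw [if_pos h0]
    · rw [if_neg h0, h e h0, if_pos rfl]
  · rw [ind_false h]
    unfold Le at h
    push Not at h
    obtain ⟨e, h0, h1⟩ := h
    symm
    apply Finset.prod_eq_zero (Finset.mem_univ e)
    unfold le1
    rw [if_neg h0]
    have : ω e = false := by simpa using h1
    rw [this]
    simp

theorem ind_and (p q : Prop) : ind (p ∧ q) = ind p * ind q := by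
  by_cases hp : p <;> by_cases hq : q <;> simp [ind, hp, hq]

end Pool.Agent.H48.SC
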