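import Pool.Agent.H48.SC.Lat
import Pool.Agent.H48.SC.Push
import Pool.Agent.H48.SC.Tab

/-! # Restriction and splitting of partition functions -/

set_option autoImplicit false

namespace Pool.Agent.H48.SC

open Pool.Agent.H90.SC MeasureTheory

theorem Zf_one {E V : Type*} [Fintype E] [DecidableEq E] [DecidableEq V] (a b : E → V)
    (J : E → ℝ) (s : V → ZMod 2) : Zf a b J s (fun _ => 1) = Z a b J s := by
  unfold Zf Z
  refine Finset.sum_congr rfl fun η _ => ?_
  have h1 : ∀ T : E → Bool, ind (bd a b η = s) * (∏ e, cw (J e) (η e) (T e)) * 1 =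
      ind (bd a b η = s) * (∏ e, cw (J e) (η e) (T e)) := fun T => mul_one _
  rw [Finset.sum_congr rfl fun T _ => h1 T, ← Finset.mul_sum,
    sum_prod (fun e t => cw (J e) (η e) t)]
  congr 1
  exact Finset.prod_congr rfl fun e _ => cw_sum _ _

/-- Edges with coupling 0 can be removed. -/
theorem Z_ext {E E' V : Type*} [Fintype E] [DecidableEq E] [Fintype E'] [DecidableEq E']
    [DecidableEq V] (ι : E → E') (hι : Function.Injective ι) (a b : E' → V) (J : E' → ℝ)
    (h0 : ∀ e, e ∉ Set.range ι → J e = 0) (s : V → ZMod 2) :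
    Z a b J s = Z (a ∘ ι) (b ∘ ι) (J ∘ ι) s := by
  unfold Z
  symm
  refine Fintype.sum_of_injective
    (fun η : E → ZMod 2 => Function.extend ι η (0 : E' → ZMod 2)) ?_ _ _ ?_ ?_
  · exact Function.extend_injective hι _
  · intro η hη
    obtain ⟨e, he, hne⟩ : ∃ e, e ∉ Set.range ι ∧ η e ≠ 0 := by
      by_contra hc
      push Not at hc
      apply hη
      refine ⟨fun e => η (ι e), ?_⟩
      funext e
      by_cases h : ∃ x, ι x = e
      · obtain ⟨x, rfl⟩ := h
        simp only
        rw [hι.extend_apply]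
      · simp only
        rw [Function.extend_apply' _ _ _ h, hc e (fun ⟨x, hx⟩ => h ⟨x, hx⟩)]
        rfl
    rw [Finset.prod_eq_zero (Finset.mem_univ e), mul_zero]
    unfold w1
    rw [if_neg hne, h0 e he, Real.sinh_zero]
  · intro η
    have h1 : bd a b (Function.extend ι η 0) = bd (a ∘ ι) (b ∘ ι) η := by
      funext v
      unfold bd
      symm
      refine Fintype.sum_of_injective ι hι _ _ ?_ ?_
      · intro e he
        have h : ¬∃ x, ι x = e := fun ⟨x, hx⟩ => he ⟨x, hx⟩
        rw [Function.extend_apply' _ _ _ h]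
        simp
      · intro e
        rw [hι.extend_apply]
        rfl
    have h2 : ∏ e, w1 ((J ∘ ι) e) (η e) = ∏ e, w1 (J e) (Function.extend ι η 0 e) := by
      refine Fintype.prod_of_injective ι hι _ _ ?_ ?_
      · intro e he
        have h : ¬∃ x, ι x = e := fun ⟨x, hx⟩ => he ⟨x, hx⟩
        rw [Function.extend_apply' _ _ _ h, h0 e he]
        simp [w1]
      · intro e
        rw [hι.extend_apply]
        rfl
    rw [h1, h2]

variable {d : ℕ}

/-- Restriction of a subtype equivalence. -/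
private def spl (E F : Finset (Edg d)) (hF : F ⊆ E) :
    ({e // e ∈ F} ⊕ {e // e ∈ E \ F}) ≃ {e // e ∈ E} where
  toFun := Sum.elim (fun e => ⟨e.1, hF e.2⟩) (fun e => ⟨e.1, (Finset.mem_sdiff.1 e.2).1⟩)
  invFun := fun e => if h : e.1 ∈ F then Sum.inl ⟨e.1, h⟩
    else Sum.inr ⟨e.1, Finset.mem_sdiff.2 ⟨e.2, h⟩⟩
  left_inv := by
    rintro (e | e)
    · simp
    · have h : e.1 ∉ F := (Finset.mem_sdiff.1 e.2).2
      simp [h]
  right_inv := by
    intro e
    by_cases h : e.1 ∈ F
    · simp [h]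
    · simp [h]

/-- The sum over the parities on `F`. -/
theorem ZE_split (E F : Finset (Edg d)) (hF : F ⊆ E) (β : ℝ) (s : Vtx d → ZMod 2) :
    ZE E β s = ∑ η : {e // e ∈ F} → ZMod 2,
      (∏ e, w1 β (η e)) * ZE (E \ F) β (s + bd (ea F) (eb F) η) := by
  classical
  have h0 : ∀ η : {e // e ∈ F} → ZMod 2,
      (∏ e, w1 β (η e)) * ZE (E \ F) β (s + bd (ea F) (eb F) η) =
      ∑ μ : {e // e ∈ E \ F} → ZMod 2, (∏ e, w1 β (η e)) *
        (ind (bd (ea (E \ F)) (eb (E \ F)) μ = s + bd (ea F) (eb F) η) * ∏ e, w1 β (μ e)) := by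
    intro η
    unfold ZE Z
    rw [Finset.mul_sum]
  rw [Finset.sum_congr rfl fun η _ => h0 η, ← Fintype.sum_prod_type']
  unfold ZE Z
  refine Fintype.sum_equiv (((spl E F hF).arrowCongr (Equiv.refl (ZMod 2))).symm.trans
    (Equiv.sumArrowEquivProdArrow _ _ _)) _ _ ?_
  intro ν
  have hb : bd (ea E) (eb E) ν =
      bd (ea F) (eb F) (fun e => ν (spl E F hF (Sum.inl e))) +
      bd (ea (E \ F)) (eb (E \ F)) (fun e => ν (spl E F hF (Sum.inr e))) := by
    funext v
    rw [Pi.add_apply]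
    unfold bd
    rw [← (spl E F hF).sum_comp, Fintype.sum_sum_type]
    rfl
  have hp : ∏ e, w1 β (ν e) = (∏ e, w1 β (ν (spl E F hF (Sum.inl e)))) *
      ∏ e, w1 β (ν (spl E F hF (Sum.inr e))) := by
    rw [← (spl E F hF).prod_comp, Fintype.prod_sum_type]
  have hi : (bd (ea E) (eb E) ν = s) ↔
      (bd (ea (E \ F)) (eb (E \ F)) (fun e => ν (spl E F hF (Sum.inr e))) =
        s + bd (ea F) (eb F) (fun e => ν (spl E F hF (Sum.inl e)))) := by
    rw [hb]
    have hc : ∀ x : Vtx d → ZMod 2, x + x = 0 := fun x => by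
      funext v
      exact CharTwo.add_self_eq_zero _
    constructor
    · intro h
      rw [← h, add_right_comm, hc, zero_add]
    · intro h
      rw [h, add_comm s, ← add_assoc, hc, zero_add]
  have hi' : ind (bd (ea E) (eb E) ν = s) =
      ind (bd (ea (E \ F)) (eb (E \ F)) (fun e => ν (spl E F hF (Sum.inr e))) =
        s + bd (ea F) (eb F) (fun e => ν (spl E F hF (Sum.inl e)))) := by
    rw [propext hi]
  rw [hi', hp]
  show _ = (∏ e, w1 β (ν (spl E F hF (Sum.inl e)))) *
    (ind (bd (ea (E \ F)) (eb (E \ F)) (fun e => ν (spl E F hF (Sum.inr e))) =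
      s + bd (ea F) (eb F) (fun e => ν (spl E F hF (Sum.inl e)))) *
        ∏ e, w1 β (ν (spl E F hF (Sum.inr e))))
  ring

end Pool.Agent.H48.SC
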