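import Pool.Agent.H48.SC.PlusDefs
import Pool.Agent.H48.SC.Ext

/-! # The free state on the graph with ghost -/

set_option autoImplicit false

namespace Pool.Agent.H48.SC

open Pool.Agent.H90.SC

variable {d : ℕ}

theorem ZE_ghost (Λ : Finset (Vtx d)) {E E' : Finset (Edg d)} (hE : E ⊆ E')
    (hΛ : ∀ e ∈ E, e.1 ∈ Λ ∧ tip e ∈ Λ) (β : ℝ) (s : Vtx d → ZMod 2) :
    ZE E β s = Z (fun e : {e // e ∈ E'} => mg Λ e.1.1) (fun e => mg Λ (tip e.1))
      (fun e => if e.1 ∈ E then β else 0) (lf s) := by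
  have hι : Function.Injective (fun e : {e // e ∈ E} => (⟨e.1, hE e.2⟩ : {e // e ∈ E'})) := by
    intro e f hef
    have := congrArg Subtype.val hef
    exact Subtype.ext this
  rw [Z_ext (fun e : {e // e ∈ E} => (⟨e.1, hE e.2⟩ : {e // e ∈ E'})) hι
    (fun e : {e // e ∈ E'} => mg Λ e.1.1) (fun e => mg Λ (tip e.1))
    (fun e => if e.1 ∈ E then β else 0)]
  · have h1 : ((fun e : {e // e ∈ E'} => mg Λ e.1.1) ∘
        fun e : {e // e ∈ E} => (⟨e.1, hE e.2⟩ : {e // e ∈ E'})) = fun e => some (ea E e) := by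
      funext e
      simp only [Function.comp_apply]
      unfold mg ea
      rw [if_pos (hΛ e.1 e.2).1]
    have h2 : ((fun e : {e // e ∈ E'} => mg Λ (tip e.1)) ∘
        fun e : {e // e ∈ E} => (⟨e.1, hE e.2⟩ : {e // e ∈ E'})) = fun e => some (eb E e) := by
      funext e
      simp only [Function.comp_apply]
      unfold mg eb
      rw [if_pos (hΛ e.1 e.2).2]
    have h3 : ((fun e : {e // e ∈ E'} => if e.1 ∈ E then β else 0) ∘
        fun e : {e // e ∈ E} => (⟨e.1, hE e.2⟩ : {e // e ∈ E'})) = fun _ => β := by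
      funext e
      simp only [Function.comp_apply]
      rw [if_pos e.2]
    rw [h1, h2, h3]
    unfold ZE Z
    refine Finset.sum_congr rfl fun η _ => ?_
    have hb : bd (fun e => some (ea E e)) (fun e => some (eb E e)) η =
        lf (bd (ea E) (eb E) η) := by
      funext v
      cases v with
      | none =>
        unfold bd lf
        refine Finset.sum_eq_zero fun e _ => ?_
        simp
      | some v =>
        unfold bd lf
        refine Finset.sum_congr rfl fun e _ => ?_
        simp only [Option.some.injEq]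
    rw [hb]
    congr 2
    apply propext
    constructor
    · intro h
      rw [h]
    · intro h
      funext v
      exact congrFun h (some v)
  · intro e he
    by_cases h2 : e.1 ∈ E
    · exact absurd ⟨⟨e.1, h2⟩, rfl⟩ he
    · exact if_neg h2

theorem rt_ghost (Λ : Finset (Vtx d)) {E E' : Finset (Edg d)} (hE : E ⊆ E')
    (hΛ : ∀ e ∈ E, e.1 ∈ Λ ∧ tip e ∈ Λ) (β : ℝ) (s : Vtx d → ZMod 2) :
    rt E β s = rr (fun e : {e // e ∈ E'} => mg Λ e.1.1) (fun e => mg Λ (tip e.1))
      (fun e => if e.1 ∈ E then β else 0) (lf s) := by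
  unfold rt rr
  rw [ZE_ghost Λ hE hΛ, ZE_ghost Λ hE hΛ β 0, lf_zero]

theorem free_le_plus (N : ℕ) {β : ℝ} (hβ : 0 ≤ β) (s : Vtx d → ZMod 2) :
    rt (boxE d N) β s ≤ rp N β (lf s) := by
  have h2 : ∀ e ∈ boxE d N, e.1 ∈ box d N ∧ tip e ∈ box d N := by
    intro e he
    unfold boxE at he
    rw [Finset.mem_filter, Finset.mem_product] at he
    exact ⟨he.1.1, he.2⟩
  have h0 : box d N ⊆ box d (N + 1) := by
    intro v hv
    unfold box at hv ⊢
    rw [Fintype.mem_piFinset] at hv ⊢
    intro i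
    have := hv i
    rw [Finset.mem_Icc] at this ⊢
    push_cast
    omega
  have h1 : boxE d N ⊆ touchE d N := by
    intro e he
    obtain ⟨h3, h4⟩ := h2 e he
    unfold touchE boxE
    rw [Finset.mem_filter, Finset.mem_filter, Finset.mem_product]
    exact ⟨⟨⟨h0 h3, Finset.mem_univ _⟩, h0 h4⟩, Or.inl h3⟩
  rw [rt_ghost (box d N) h1 h2]
  unfold rp rP
  exact rr_mono _ _ (fun e => by split_ifs <;> [exact hβ; exact le_rfl])
    (fun e => by split_ifs <;> [exact le_rfl; exact hβ]) _

end Pool.Agent.H48.SC
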