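import Pool.Agent.H48.SC.Rr
import Pool.Agent.H48.SC.Push

/-! # The pressure -/

set_option autoImplicit false

namespace Pool.Agent.H48.SC

variable {E V : Type*} [Fintype E] [DecidableEq E] [DecidableEq V]

private theorem pr_cases (c : ZMod 2) : c = 0 ∨ c = 1 := by
  revert c
  decide

private theorem pr_self {X : Type*} (c : X → ZMod 2) : c + c = 0 :=
  funext fun x => CharTwo.add_self_eq_zero (c x)

private theorem pr_w1_deriv (η : ZMod 2) (β : ℝ) :
    HasDerivAt (fun β => w1 β η) (w1 β (η + 1)) β := by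
  have h2 : (1 : ZMod 2) + 1 = 0 := by decide
  have h3 : (1 : ZMod 2) ≠ 0 := by decide
  rcases pr_cases η with rfl | rfl
  · simp only [w1, zero_add, if_true, if_neg h3]
    exact Real.hasDerivAt_cosh β
  · simp only [w1, h2, if_true, if_neg h3]
    exact Real.hasDerivAt_sinh β

private theorem pr_bd_single (a b : E → V) (η : E → ZMod 2) (e : E) :
    bd a b (η + Pi.single e 1) = bd a b η + (dl (a e) + dl (b e)) := by
  rw [bd_add]
  congr 1
  funext v
  unfold bd
  rw [Finset.sum_eq_single e]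
  · simp [dl]
  · intro f _ hf
    simp [hf]
  · simp

private theorem pr_prod_deriv (η : E → ZMod 2) (β : ℝ) :
    HasDerivAt (fun β => ∏ e, w1 β (η e))
      (∑ e, ∏ f, w1 β ((η + Pi.single e 1 : E → ZMod 2) f)) β := by
  have h1 := HasDerivAt.fun_finsetProd (u := Finset.univ) (f := fun e β => w1 β (η e))
    (f' := fun e => w1 β (η e + 1)) (x := β) fun e _ => pr_w1_deriv (η e) β
  refine h1.congr_deriv ?_
  refine Finset.sum_congr rfl fun e _ => ?_
  rw [← Finset.mul_prod_erase Finset.univ _ (Finset.mem_univ e), smul_eq_mul, mul_comm]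
  congr 1
  · simp
  · refine Finset.prod_congr rfl fun f hf => ?_
    have h2 : f ≠ e := (Finset.mem_erase.1 hf).1
    simp [h2]

theorem Z_hasDerivAt (a b : E → V) (β : ℝ) :
    HasDerivAt (fun β => Z a b (fun _ => β) 0) (∑ e, Z a b (fun _ => β) (dl (a e) + dl (b e))) β := by
  unfold Z
  have h1 : HasDerivAt (fun β => ∑ η : E → ZMod 2, ind (bd a b η = 0) * ∏ e, w1 β (η e))
      (∑ η : E → ZMod 2, ind (bd a b η = 0) *
        (∑ e, ∏ f, w1 β ((η + Pi.single e 1 : E → ZMod 2) f))) β := by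
    refine HasDerivAt.fun_sum fun η _ => ?_
    exact (pr_prod_deriv η β).const_mul _
  refine h1.congr_deriv ?_
  rw [Finset.sum_congr rfl fun η _ => Finset.mul_sum _ _ _, Finset.sum_comm]
  refine Finset.sum_congr rfl fun e _ => ?_
  rw [← Equiv.sum_comp (Equiv.addRight (Pi.single e 1 : E → ZMod 2))
    (fun η => ind (bd a b η = dl (a e) + dl (b e)) * ∏ f, w1 β (η f))]
  refine Finset.sum_congr rfl fun η _ => ?_
  rw [Equiv.coe_addRight]
  congr 2
  rw [pr_bd_single]
  apply propext
  constructor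
  · intro h
    rw [h, zero_add]
  · intro h
    exact add_eq_right.1 h

private theorem pr_log_deriv (a b : E → V) {β : ℝ} (hβ : 0 ≤ β) :
    HasDerivAt (fun β => Real.log (Z a b (fun _ => β) 0))
      (∑ e, rr a b (fun _ => β) (dl (a e) + dl (b e))) β := by
  have h1 := (Z_hasDerivAt a b β).log (Z_zero_pos a b (fun _ => β) fun _ => hβ).ne'
  refine h1.congr_deriv ?_
  rw [Finset.sum_div]
  rfl

/-- The increments of the pressure are bounded by the energies. -/
theorem logZ_ge (a b : E → V) {b1 b2 : ℝ} (h1 : 0 ≤ b1) (h2 : b1 ≤ b2) :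
    (b2 - b1) * ∑ e, rr a b (fun _ => b1) (dl (a e) + dl (b e)) ≤
      Real.log (Z a b (fun _ => b2) 0) - Real.log (Z a b (fun _ => b1) 0) := by
  rw [mul_comm]
  refine (convex_Icc b1 b2).mul_sub_le_image_sub_of_le_deriv
    (f := fun β => Real.log (Z a b (fun _ => β) 0)) ?_ ?_ ?_ b1 (Set.left_mem_Icc.2 h2) b2
    (Set.right_mem_Icc.2 h2) h2
  · intro x hx
    exact (pr_log_deriv a b (h1.trans hx.1)).continuousAt.continuousWithinAt
  · intro x hx
    exact (pr_log_deriv a b (h1.trans (interior_subset hx).1)).differentiableAt.differentiableWithinAt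
  · intro x hx
    have hx' := interior_subset hx
    rw [(pr_log_deriv a b (h1.trans hx'.1)).deriv]
    exact Finset.sum_le_sum fun e _ => rr_mono a b (fun _ => h1) (fun _ => hx'.1) _

theorem logZ_le (a b : E → V) {b1 b2 : ℝ} (h1 : 0 ≤ b1) (h2 : b1 ≤ b2) :
    Real.log (Z a b (fun _ => b2) 0) - Real.log (Z a b (fun _ => b1) 0) ≤
      (b2 - b1) * ∑ e, rr a b (fun _ => b2) (dl (a e) + dl (b e)) := by
  rw [mul_comm (b2 - b1)]
  refine (convex_Icc b1 b2).image_sub_le_mul_sub_of_deriv_le
    (f := fun β => Real.log (Z a b (fun _ => β) 0)) ?_ ?_ ?_ b1 (Set.left_mem_Icc.2 h2) b2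
    (Set.right_mem_Icc.2 h2) h2
  · intro x hx
    exact (pr_log_deriv a b (h1.trans hx.1)).continuousAt.continuousWithinAt
  · intro x hx
    exact (pr_log_deriv a b (h1.trans (interior_subset hx).1)).differentiableAt.differentiableWithinAt
  · intro x hx
    have hx' := interior_subset hx
    rw [(pr_log_deriv a b (h1.trans hx'.1)).deriv]
    exact Finset.sum_le_sum fun e _ => rr_mono a b (fun _ => h1.trans hx'.1) (fun _ => hx'.2) _

/-- Edges with coupling 0 can be removed. -/
private theorem pr_Z_ext {E E' V : Type*} [Fintype E] [DecidableEq E] [Fintype E'] [DecidableEq E']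
    [DecidableEq V] (ι : E → E') (hι : Function.Injective ι) (a b : E' → V) (J : E' → ℝ)
    (h0 : ∀ e, e ∉ Set.range ι → J e = 0) (s : V → ZMod 2) :
    Z a b J s = Z (a ∘ ι) (b ∘ ι) (J ∘ ι) s := by
  unfold Z
  symm
  refine Fintype.sum_of_injective
    (fun η : E → ZMod 2 => Function.extend ι η (0 : E' → ZMod 2)) ?_ _ _ ?_ ?_
  · exact Function.extend_injective hι _
  · intro η hη
    obtain ⟨e, he, hne⟩ : ∃ e, e ∉ Set.range ι ∧ η e ≠ 0 := by
      by_contra hc
      push Not at hc
      apply hη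
      refine ⟨fun e => η (ι e), ?_⟩
      funext e
      by_cases h : ∃ x, ι x = e
      · obtain ⟨x, rfl⟩ := h
        simp only
        rw [hι.extend_apply]
      · simp only
        rw [Function.extend_apply' _ _ _ h, hc e (fun ⟨x, hx⟩ => h ⟨x, hx⟩)]
        rfl
    rw [Finset.prod_eq_zero (Finset.mem_univ e), mul_zero]
    unfold w1
    rw [if_neg hne, h0 e he, Real.sinh_zero]
  · intro η
    have h1 : bd a b (Function.extend ι η 0) = bd (a ∘ ι) (b ∘ ι) η := by
      funext v
      unfold bd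
      symm
      refine Fintype.sum_of_injective ι hι _ _ ?_ ?_
      · intro e he
        have h : ¬∃ x, ι x = e := fun ⟨x, hx⟩ => he ⟨x, hx⟩
        rw [Function.extend_apply' _ _ _ h]
        simp
      · intro e
        rw [hι.extend_apply]
        rfl
    have h2 : ∏ e, w1 ((J ∘ ι) e) (η e) = ∏ e, w1 (J e) (Function.extend ι η 0 e) := by
      refine Fintype.prod_of_injective ι hι _ _ ?_ ?_
      · intro e he
        have h : ¬∃ x, ι x = e := fun ⟨x, hx⟩ => he ⟨x, hx⟩
        rw [Function.extend_apply' _ _ _ h, h0 e he]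
        simp [w1]
      · intro e
        rw [hι.extend_apply]
        rfl
    rw [h1, h2]

private theorem pr_w1_mono {J J' : ℝ} (h0 : 0 ≤ J) (h : J ≤ J') (η : ZMod 2) :
    w1 J η ≤ w1 J' η := by
  unfold w1
  split_ifs
  · rw [Real.cosh_le_cosh, abs_of_nonneg h0, abs_of_nonneg (h0.trans h)]
    exact h
  · exact Real.sinh_le_sinh.2 h

private theorem pr_Z_mono (a b : E → V) (J J' : E → ℝ) (h0 : ∀ e, 0 ≤ J e)
    (h : ∀ e, J e ≤ J' e) (s : V → ZMod 2) : Z a b J s ≤ Z a b J' s := by
  unfold Z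
  refine Finset.sum_le_sum fun η _ => mul_le_mul_of_nonneg_left ?_ (ind_nonneg _)
  exact Finset.prod_le_prod (fun e _ => w1_nonneg (h0 e) _) fun e _ => pr_w1_mono (h0 e) (h e) _

private theorem pr_w1_add (J K : ℝ) (η : ZMod 2) :
    w1 (J + K) η = ∑ κ : ZMod 2, w1 J (η + κ) * w1 K κ := by
  have h0 : (∑ κ : ZMod 2, w1 J (η + κ) * w1 K κ) =
      w1 J (η + 0) * w1 K 0 + w1 J (η + 1) * w1 K 1 :=
    Fin.sum_univ_two _
  rw [h0]
  have h2 : (1 : ZMod 2) + 1 = 0 := by decide
  have h3 : (1 : ZMod 2) ≠ 0 := by decide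
  rcases pr_cases η with rfl | rfl
  · simp only [w1, add_zero, zero_add, if_true, if_neg h3]
    exact Real.cosh_add J K
  · simp only [w1, add_zero, h2, if_true, if_neg h3]
    exact Real.sinh_add J K

private theorem pr_Z_add (a b : E → V) (J K : E → ℝ) (s : V → ZMod 2) :
    Z a b (fun e => J e + K e) s =
      ∑ κ : E → ZMod 2, (∏ e, w1 (K e) (κ e)) * Z a b J (s + bd a b κ) := by
  unfold Z
  have h1 : ∀ η : E → ZMod 2, ∏ e, w1 (J e + K e) (η e) =
      ∑ κ : E → ZMod 2, ∏ e, (w1 (J e) (η e + κ e) * w1 (K e) (κ e)) := by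
    intro η
    rw [sum_prod (fun e κ => w1 (J e) (η e + κ) * w1 (K e) κ)]
    exact Finset.prod_congr rfl fun e _ => pr_w1_add _ _ _
  rw [Finset.sum_congr rfl fun η _ => by rw [h1 η, Finset.mul_sum], Finset.sum_comm]
  refine Finset.sum_congr rfl fun κ _ => ?_
  rw [Finset.mul_sum, ← Equiv.sum_comp (Equiv.addRight κ) (fun η => (∏ e, w1 (K e) (κ e)) *
    (ind (bd a b η = s + bd a b κ) * ∏ e, w1 (J e) (η e)))]
  refine Finset.sum_congr rfl fun η _ => ?_
  rw [Equiv.coe_addRight]
  have h3 : ind (bd a b (η + κ) = s + bd a b κ) = ind (bd a b η = s) := by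
    congr 1
    rw [bd_add]
    apply propext
    exact add_left_inj _
  rw [h3, Finset.prod_mul_distrib]
  simp only [Pi.add_apply]
  ring

private theorem pr_Z_le_zero (a b : E → V) (J : E → ℝ) (hJ : ∀ e, 0 ≤ J e) (t : V → ZMod 2) :
    Z a b J t ≤ Z a b J 0 := by
  have h := rr_le_one a b hJ t
  unfold rr at h
  rwa [div_le_one (Z_zero_pos a b J hJ)] at h

private theorem pr_sum_w1 (K : ℝ) : ∑ κ : ZMod 2, w1 K κ = Real.exp K := by
  have h0 : (∑ κ : ZMod 2, w1 K κ) = w1 K 0 + w1 K 1 := Fin.sum_univ_two _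
  have h3 : (1 : ZMod 2) ≠ 0 := by decide
  rw [h0]
  simp only [w1, if_true, if_neg h3]
  exact Real.cosh_add_sinh K

/-- Removing edges. -/
theorem Z_drop {E' : Type*} [Fintype E'] [DecidableEq E'] (ι : E' → E)
    (hι : Function.Injective ι) (a b : E → V) {β : ℝ} (hβ : 0 ≤ β) :
    Z (a ∘ ι) (b ∘ ι) (fun _ => β) 0 ≤ Z a b (fun _ => β) 0 ∧
    Z a b (fun _ => β) 0 ≤ Real.exp (β * (Fintype.card E - Fintype.card E')) *
      Z (a ∘ ι) (b ∘ ι) (fun _ => β) 0 := by
  classical
  have h1 : Z a b (fun e => if e ∈ Set.range ι then β else 0) 0 =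
      Z (a ∘ ι) (b ∘ ι) (fun _ => β) 0 := by
    rw [pr_Z_ext ι hι a b (fun e => if e ∈ Set.range ι then β else 0)]
    · congr 1
      funext e
      simp
    · intro e he
      exact if_neg he
  have hJ : ∀ e, 0 ≤ (fun e => if e ∈ Set.range ι then β else 0) e := fun e => by
    simp only
    split_ifs <;> [exact hβ; exact le_rfl]
  have hK : ∀ e, 0 ≤ (fun e => if e ∈ Set.range ι then 0 else β) e := fun e => by
    simp only
    split_ifs <;> [exact le_rfl; exact hβ]
  constructor
  · rw [← h1]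
    refine pr_Z_mono a b _ _ hJ ?_ 0
    intro e
    split_ifs <;> [exact le_rfl; exact hβ]
  · have h2 : (fun _ : E => β) = fun e => (fun e => if e ∈ Set.range ι then β else 0) e +
        (fun e => if e ∈ Set.range ι then 0 else β) e := by
      funext e
      simp only
      split_ifs <;> ring
    rw [← h1]
    conv_lhs => rw [h2]
    rw [pr_Z_add]
    have h3 : ∑ κ : E → ZMod 2, (∏ e, w1 ((fun e => if e ∈ Set.range ι then 0 else β) e) (κ e)) *
        Z a b (fun e => if e ∈ Set.range ι then β else 0) (0 + bd a b κ) ≤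
        ∑ κ : E → ZMod 2, (∏ e, w1 ((fun e => if e ∈ Set.range ι then 0 else β) e) (κ e)) *
        Z a b (fun e => if e ∈ Set.range ι then β else 0) 0 :=
      Finset.sum_le_sum fun κ _ => mul_le_mul_of_nonneg_left (pr_Z_le_zero a b _ hJ _)
        (Finset.prod_nonneg fun e _ => w1_nonneg (hK e) _)
    refine h3.trans (le_of_eq ?_)
    rw [← Finset.sum_mul, sum_prod fun e κ => w1 ((fun e => if e ∈ Set.range ι then 0 else β) e) κ]
    congr 1
    rw [Finset.prod_congr rfl fun e _ => pr_sum_w1 _, ← Real.exp_sum]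
    congr 1
    have h4 : ∀ e : E, (if e ∈ Set.range ι then (0 : ℝ) else β) =
        β - if e ∈ Set.range ι then β else 0 := by
      intro e
      split_ifs <;> ring
    rw [Finset.sum_congr rfl fun e _ => h4 e, Finset.sum_sub_distrib]
    have h5 : ∑ e : E, (if e ∈ Set.range ι then β else 0) = ∑ _e : E', β := by
      symm
      refine Fintype.sum_of_injective ι hι _ _ ?_ ?_
      · intro e he
        exact if_neg he
      · intro e
        exact (if_pos ⟨e, rfl⟩).symm
    rw [h5]
    simp only [Finset.sum_const, Finset.card_univ, nsmul_eq_mul]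
    ring

end Pool.Agent.H48.SC
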