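import Pool.Agent.H48.SC.EnLim
import Pool.Agent.H48.SC.Press
import Pool.Agent.H48.SC.Count
import Pool.Agent.H48.SC.Ghost

/-! # The energies of the plus and of the free state -/

set_option autoImplicit false

namespace Pool.Agent.H48.SC

open Pool.Agent.H90.SC Filter Topology

variable {d : ℕ}

private theorem bk_mem_boxE {e : Edg d} {N : ℕ} :
    e ∈ boxE d N ↔ e.1 ∈ box d N ∧ tip e ∈ box d N := by
  unfold boxE
  simp only [Finset.mem_filter, Finset.mem_product, Finset.mem_univ, and_true]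

/-- The comparison of the energies in the box. -/
theorem sum_le (N : ℕ) {b1 b2 : ℝ} (h1 : 0 ≤ b1) (h2 : b1 ≤ b2) :
    (b2 - b1) * ∑ e ∈ boxE d N, epN N b1 e ≤
      (b2 - b1) * ∑ e ∈ boxE d N, efN N b2 e + b2 * (touchE d N \ boxE d N).card := by
  have hsub : boxE d N ⊆ touchE d N := boxE_sub_touchE N
  have h02 : 0 ≤ b2 := h1.trans h2
  set a : {e // e ∈ touchE d N} → Option (Vtx d) := fun e => mg (box d N) e.1.1 with ha
  set b : {e // e ∈ touchE d N} → Option (Vtx d) := fun e => mg (box d N) (tip e.1) with hb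
  set ι : {e // e ∈ boxE d N} → {e // e ∈ touchE d N} := fun e => ⟨e.1, hsub e.2⟩ with hι
  have hinj : Function.Injective ι := by
    intro e f hef
    have := congrArg Subtype.val hef
    exact Subtype.ext this
  have k1 := logZ_ge a b h1 h2
  have k2 := logZ_le (a ∘ ι) (b ∘ ι) h1 h2
  have d1 := (Z_drop ι hinj a b h1).1
  have d2 := (Z_drop ι hinj a b h02).2
  have p1 : 0 < Z (a ∘ ι) (b ∘ ι) (fun _ => b1) 0 := Z_zero_pos _ _ _ fun _ => h1
  have p2 : 0 < Z (a ∘ ι) (b ∘ ι) (fun _ => b2) 0 := Z_zero_pos _ _ _ fun _ => h02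
  have p3 : 0 < Z a b (fun _ => b2) 0 := Z_zero_pos _ _ _ fun _ => h02
  have l1 := Real.log_le_log p1 d1
  have l2 := Real.log_le_log p3 d2
  rw [Real.log_mul (Real.exp_pos _).ne' p2.ne', Real.log_exp] at l2
  have hcard : ((Fintype.card {e // e ∈ touchE d N} : ℕ) : ℝ) -
      (Fintype.card {e // e ∈ boxE d N} : ℕ) = ((touchE d N \ boxE d N).card : ℝ) := by
    rw [Fintype.card_coe, Fintype.card_coe, Finset.card_sdiff_of_subset hsub,
      Nat.cast_sub (Finset.card_le_card hsub)]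
  rw [hcard] at l2
  have s1 : ∑ e ∈ boxE d N, epN N b1 e ≤ ∑ e, rr a b (fun _ => b1) (dl (a e) + dl (b e)) := by
    have e1 : ∑ e, rr a b (fun _ => b1) (dl (a e) + dl (b e)) =
        ∑ e ∈ touchE d N, rr a b (fun _ => b1) (dl (mg (box d N) e.1) +
          dl (mg (box d N) (tip e))) :=
      Finset.sum_coe_sort (touchE d N) fun e => rr a b (fun _ => b1) (dl (mg (box d N) e.1) +
          dl (mg (box d N) (tip e)))
    rw [e1]
    refine le_trans (le_of_eq ?_) (Finset.sum_le_sum_of_subset_of_nonneg hsub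
      fun _ _ _ => rr_nonneg _ _ (fun _ => h1) _)
    refine Finset.sum_congr rfl fun e he => ?_
    rw [bk_mem_boxE] at he
    unfold mg epN rp rP
    rw [if_pos he.1, if_pos he.2]
  have s2 : ∑ e, rr (a ∘ ι) (b ∘ ι) (fun _ => b2) (dl ((a ∘ ι) e) + dl ((b ∘ ι) e)) =
      ∑ e ∈ boxE d N, efN N b2 e := by
    rw [← Finset.sum_coe_sort (boxE d N)]
    refine Finset.sum_congr rfl fun e _ => ?_
    have he := bk_mem_boxE.1 e.2
    have g := rt_ghost (box d N) (Finset.Subset.refl (boxE d N))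
      (fun f hf => bk_mem_boxE.1 hf) b2 (dl e.1.1 + dl (tip e.1))
    have hc : (fun f : {e // e ∈ boxE d N} => if f.1 ∈ boxE d N then b2 else 0) = fun _ => b2 := by
      funext f
      exact if_pos f.2
    rw [hc, lf_add, lf_dl, lf_dl] at g
    unfold efN
    rw [g]
    have e1 : (a ∘ ι) e = some e.1.1 := if_pos he.1
    have e2 : (b ∘ ι) e = some (tip e.1) := if_pos he.2
    rw [e1, e2]
    rfl
  rw [s2] at k2
  have h3 := mul_le_mul_of_nonneg_left s1 (sub_nonneg.2 h2)
  linarith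

/-- The energy of the plus state at `b1` is at most the energy of the free state at `b2`. -/
theorem ep_le_ef {b1 b2 : ℝ} (h1 : 0 ≤ b1) (h2 : b1 < b2) :
    ∑ i : Fin d, ep i b1 ≤ ∑ i : Fin d, ef i b2 := by
  have h02 : 0 ≤ b2 := h1.trans h2.le
  by_contra hcon
  push Not at hcon
  set Δ := ∑ i : Fin d, ep i b1 - ∑ i : Fin d, ef i b2 with hΔ
  have hΔ0 : 0 < Δ := sub_pos.2 hcon
  have key : ∀ N : ℕ, (b2 - b1) * (2 * N * Δ) ≤ b2 * (2 * d) := by
    intro N
    have k := sum_le (d := d) N h1 h2.le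
    have hc := card_bdry (d := d) N
    have fib : ∀ g : Fin d → ℝ, ∑ e ∈ boxE d N, g e.2 =
        2 * N * (2 * N + 1) ^ (d - 1) * ∑ i, g i := by
      intro g
      rw [← Finset.sum_fiberwise' (boxE d N) (fun e => e.2) g, Finset.mul_sum]
      refine Finset.sum_congr rfl fun i _ => ?_
      rw [Finset.sum_const, card_dir, nsmul_eq_mul]
      push_cast
      ring
    have a1 : ∑ e ∈ boxE d N, ep e.2 b1 ≤ ∑ e ∈ boxE d N, epN N b1 e :=
      Finset.sum_le_sum fun e he => ep_le h1 he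
    have a2 : ∑ e ∈ boxE d N, efN N b2 e ≤ ∑ e ∈ boxE d N, ef e.2 b2 :=
      Finset.sum_le_sum fun e _ => le_ef N h02 e
    rw [fib fun i => ep i b1] at a1
    rw [fib fun i => ef i b2] at a2
    have hpos : (0 : ℝ) < (2 * N + 1) ^ (d - 1) := by positivity
    have hc' : ((touchE d N \ boxE d N).card : ℝ) ≤ 2 * d * (2 * N + 1) ^ (d - 1) := by
      exact_mod_cast hc
    have b1' := mul_le_mul_of_nonneg_left a1 (sub_nonneg.2 h2.le)
    have b2' := mul_le_mul_of_nonneg_left a2 (sub_nonneg.2 h2.le)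
    have b3' := mul_le_mul_of_nonneg_left hc' h02
    have fin : (b2 - b1) * (2 * N * Δ) * (2 * N + 1) ^ (d - 1) ≤
        b2 * (2 * d) * (2 * N + 1) ^ (d - 1) := by
      rw [hΔ]
      nlinarith
    exact le_of_mul_le_mul_right fin hpos
  have hpos : 0 < (b2 - b1) * (2 * Δ) := mul_pos (sub_pos.2 h2) (by linarith)
  obtain ⟨N, hN⟩ := exists_nat_gt (b2 * (2 * d) / ((b2 - b1) * (2 * Δ)))
  rw [div_lt_iff₀ hpos] at hN
  have := key N
  nlinarith

end Pool.Agent.H48.SC
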