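import Pool.Agent.H48.SC.Bulk

/-! # Almost equal energies -/

set_option autoImplicit false

namespace Pool.Agent.H48.SC

open Pool.Agent.H90.SC Filter Topology

variable {d : ℕ}

theorem ef_le_ep (i : Fin d) {β : ℝ} (hβ : 0 ≤ β) : ef i β ≤ ep i β := by
  refine le_of_tendsto_of_tendsto' (ef_tendsto hβ ((0 : Vtx d), i))
    (ep_tendsto hβ ((0 : Vtx d), i)) fun N => ?_
  have h := free_le_plus N hβ
    (dl ((0 : Vtx d), i).1 + dl (tip ((0 : Vtx d), i)) : Vtx d → ZMod 2)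
  rw [lf_add, lf_dl, lf_dl] at h
  exact h

/-- Almost equal energies at some point of every interval. -/
theorem exists_close {b b' ε : ℝ} (h0 : 0 ≤ b') (h : b' < b) (hε : 0 < ε) :
    ∃ b'' : ℝ, b' < b'' ∧ b'' < b ∧ ∀ i : Fin d, ep i b'' - ef i b'' ≤ ε := by
  obtain ⟨K, hK⟩ := exists_nat_gt ((d : ℝ) / ε)
  rw [div_lt_iff₀ hε] at hK
  set p : ℕ → ℝ := fun j => b' + (b - b') * (((j : ℝ) + 1) / ((K : ℝ) + 2)) with hp
  have hK2 : (0 : ℝ) < (K : ℝ) + 2 := by positivity
  have hbb : 0 < b - b' := by linarith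
  have hp1 : ∀ j, b' < p j := by
    intro j
    have : 0 < (b - b') * (((j : ℝ) + 1) / ((K : ℝ) + 2)) := by positivity
    simp only [hp]
    linarith
  have hp2 : ∀ j, j ≤ K → p j < b := by
    intro j hj
    have hj' : (j : ℝ) ≤ K := by exact_mod_cast hj
    have h1 : ((j : ℝ) + 1) / ((K : ℝ) + 2) < 1 := by
      rw [div_lt_one hK2]
      linarith
    have h2 : (b - b') * (((j : ℝ) + 1) / ((K : ℝ) + 2)) < (b - b') * 1 :=
      mul_lt_mul_of_pos_left h1 hbb
    simp only [hp]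
    linarith
  have hp3 : ∀ j, p j < p (j + 1) := by
    intro j
    have h1 : ((j : ℝ) + 1) / ((K : ℝ) + 2) < (((j + 1 : ℕ) : ℝ) + 1) / ((K : ℝ) + 2) := by
      apply div_lt_div_of_pos_right _ hK2
      push_cast
      linarith
    have h2 := mul_lt_mul_of_pos_left h1 hbb
    simp only [hp]
    linarith
  have hp0 : ∀ j, 0 ≤ p j := fun j => h0.trans (hp1 j).le
  have hex : ∃ j < K, ∑ i : Fin d, (ep i (p j) - ef i (p j)) ≤ ε := by
    by_contra hcon
    push Not at hcon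
    have h1 : ∑ _j ∈ Finset.range K, ε ≤
        ∑ j ∈ Finset.range K, ∑ i : Fin d, (ep i (p j) - ef i (p j)) :=
      Finset.sum_le_sum fun j hj => (hcon j (Finset.mem_range.mp hj)).le
    have h2 : ∑ j ∈ Finset.range K, ∑ i : Fin d, (ep i (p j) - ef i (p j)) ≤
        ∑ j ∈ Finset.range K, ((∑ i : Fin d, ef i (p (j + 1))) - ∑ i : Fin d, ef i (p j)) := by
      refine Finset.sum_le_sum fun j _ => ?_
      rw [Finset.sum_sub_distrib]
      have := ep_le_ef (d := d) (hp0 j) (hp3 j)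
      linarith
    rw [Finset.sum_range_sub (fun j => ∑ i : Fin d, ef i (p j))] at h2
    have h3 : ∑ i : Fin d, ef i (p K) ≤ d := by
      calc ∑ i : Fin d, ef i (p K) ≤ ∑ _i : Fin d, (1 : ℝ) :=
            Finset.sum_le_sum fun i _ => ef_le_one i (hp0 K)
        _ = d := by simp
    have h4 : 0 ≤ ∑ i : Fin d, ef i (p 0) := Finset.sum_nonneg fun i _ => ef_nonneg i (hp0 0)
    rw [Finset.sum_const, Finset.card_range, nsmul_eq_mul] at h1
    linarith
  obtain ⟨j, hj, hjs⟩ := hex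
  refine ⟨p j, hp1 j, hp2 j hj.le, fun i => ?_⟩
  refine le_trans ?_ hjs
  exact Finset.single_le_sum (f := fun i : Fin d => ep i (p j) - ef i (p j))
    (fun i _ => sub_nonneg.mpr (ef_le_ep i (hp0 j))) (Finset.mem_univ i)

end Pool.Agent.H48.SC
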