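import Pool.Agent.H48.SC.Defs

/-! # Sums over currents -/

set_option autoImplicit false

namespace Pool.Agent.H48.SC

private theorem Law_hsc {X : Type*} {f g : X → ℝ} {a : ℝ} (h : HasSum f a)
    (e : ∀ x, f x = g x) : HasSum g a := by
  rw [← funext e]
  exact h

private def Law_Pi (α : Type*) [Fintype α] : Prop :=
  ∀ (f : α → ℕ → ℝ) (s : α → ℝ), (∀ e, HasSum (f e) (s e)) →
      HasSum (fun n : α → ℕ => ∏ e, f e (n e)) (∏ e, s e)

private theorem Law_pi (α : Type*) [Fintype α] : Law_Pi α := by
  refine Fintype.induction_empty_option (P := fun β _ => Law_Pi β) ?_ ?_ ?_ α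
  · intro α β _ e ih f s h
    let _ := Fintype.ofEquiv β e.symm
    have h1 := ih (fun a => f (e a)) (fun a => s (e a)) (fun a => h (e a))
    rw [Equiv.prod_comp e s] at h1
    rw [← (Equiv.arrowCongr e (Equiv.refl ℕ)).hasSum_iff]
    have h2 : ((fun n : β → ℕ => ∏ b, f b (n b)) ∘ (Equiv.arrowCongr e (Equiv.refl ℕ))) =
        fun n : α → ℕ => ∏ a, f (e a) (n a) := by
      funext n
      simp only [Function.comp, Equiv.arrowCongr_apply, Equiv.coe_refl, id]
      rw [← Equiv.prod_comp e]
      refine Finset.prod_congr rfl fun a _ => ?_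
      simp
    rw [h2]
    exact h1
  · intro f s h
    have h1 := hasSum_unique (fun n : PEmpty → ℕ => ∏ e, f e (n e))
    simp at h1 ⊢
  · intro α _ ih f s h
    have h1 := ih (fun a => f (some a)) (fun a => s (some a)) (fun a => h (some a))
    have h0 := h none
    have n2 : Summable (fun x : ℕ × (α → ℕ) => f none x.1 * ∏ a, f (some a) (x.2 a)) :=
      summable_mul_of_summable_norm (f := fun k : ℕ => f none k)
        (g := fun n : α → ℕ => ∏ a, f (some a) (n a)) h0.summable.norm h1.summable.norm
    have h2 := HasSum.mul (f := fun k : ℕ => f none k)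
      (g := fun n : α → ℕ => ∏ a, f (some a) (n a)) (s := s none) (t := ∏ a, s (some a)) h0 h1 n2
    have e2 : (fun n : Option α → ℕ => ∏ e, f e (n e)) =
        (fun x : ℕ × (α → ℕ) => f none x.1 * ∏ a, f (some a) (x.2 a)) ∘
          (Equiv.piOptionEquivProd (β := fun _ : Option α => ℕ)) := by
      funext n
      simp only [Function.comp, Fintype.prod_option]
      rfl
    rw [Fintype.prod_option, e2]
    exact (Equiv.hasSum_iff (Equiv.piOptionEquivProd (β := fun _ : Option α => ℕ))).2 h2

private theorem Law_odd (β : ℝ) :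
    HasSum (fun k : ℕ => if Odd k then β ^ k / (k.factorial : ℝ) else 0) (Real.sinh β) := by
  have hinj : Function.Injective (fun n : ℕ => 2 * n + 1) := fun a b h => by
    simp only at h
    omega
  rw [← hinj.hasSum_iff]
  · refine Law_hsc (Real.hasSum_sinh β) fun n => ?_
    simp only [Function.comp]
    rw [if_pos ⟨n, rfl⟩]
  · intro k hk
    refine if_neg fun ⟨m, hm⟩ => hk ⟨m, hm.symm⟩

private theorem Law_even (β : ℝ) :
    HasSum (fun k : ℕ => if Even k ∧ 0 < k then β ^ k / (k.factorial : ℝ) else 0)
      (Real.cosh β - 1) := by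
  have hinj : Function.Injective (fun n : ℕ => 2 * n) := fun a b h => by
    simp only at h
    omega
  have h1 : HasSum (fun k : ℕ => if Even k then β ^ k / (k.factorial : ℝ) else 0)
      (Real.cosh β) := by
    rw [← hinj.hasSum_iff]
    · refine Law_hsc (Real.hasSum_cosh β) fun n => ?_
      simp only [Function.comp]
      rw [if_pos (even_two_mul n)]
    · intro k hk
      refine if_neg fun hm => ?_
      obtain ⟨m, hm⟩ := hm
      exact hk ⟨m, by simp only; omega⟩
  have h2 := h1.sub (hasSum_ite_eq (0 : ℕ) (1 : ℝ))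
  refine Law_hsc h2 fun k => ?_
  rcases Nat.eq_zero_or_pos k with hk | hk
  · subst hk
    simp
  · have : k ≠ 0 := by omega
    simp [this, hk]

/-- The factor of one edge. -/
private noncomputable def Law_fac (J : ℝ) (η : ZMod 2) (t : Bool) (k : ℕ) : ℝ :=
  if (k : ZMod 2) = η ∧ decide (0 < k) = t then J ^ k / (k.factorial : ℝ) else 0

private theorem Law_fac_sum (J : ℝ) (η : ZMod 2) (t : Bool) :
    HasSum (Law_fac J η t) (cw J η t) := by
  by_cases hη : η = 0
  · subst hη
    cases t with
    | true =>
      have hc : cw J 0 true = Real.cosh J - 1 := by simp [cw]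
      rw [hc]
      refine Law_hsc (Law_even J) fun k => ?_
      unfold Law_fac
      simp only [ZMod.natCast_eq_zero_iff_even, decide_eq_true_eq]
    | false =>
      have hc : cw J 0 false = 1 := by simp [cw]
      rw [hc]
      refine Law_hsc (hasSum_ite_eq (0 : ℕ) (1 : ℝ)) fun k => ?_
      unfold Law_fac
      rcases Nat.eq_zero_or_pos k with hk | hk
      · subst hk
        simp
      · have h1 : k ≠ 0 := by omega
        simp [h1]
  · have hη1 : η = 1 := by
      revert hη
      revert η
      decide
    subst hη1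
    cases t with
    | true =>
      have hc : cw J 1 true = Real.sinh J := by simp [cw]
      rw [hc]
      refine Law_hsc (Law_odd J) fun k => ?_
      unfold Law_fac
      by_cases hk : Odd k
      · rw [if_pos hk, if_pos ⟨ZMod.natCast_eq_one_iff_odd.2 hk, by simpa using hk.pos⟩]
      · rw [if_neg hk, if_neg fun h => hk (ZMod.natCast_eq_one_iff_odd.1 h.1)]
    | false =>
      have hc : cw J 1 false = 0 := by simp [cw]
      rw [hc]
      refine Law_hsc hasSum_zero fun k => ?_
      unfold Law_fac
      rw [if_neg]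
      rintro ⟨h1, h2⟩
      have h3 : Odd k := ZMod.natCast_eq_one_iff_odd.1 h1
      have h4 : ¬ (0 < k) := by simpa using h2
      exact h4 h3.pos

/-- The joint law of the parities and the trace of a current. -/
theorem cur_law {E : Type*} [Fintype E] [DecidableEq E] (J : E → ℝ)
    (Φ : (E → ZMod 2) → (E → Bool) → ℝ) :
    HasSum (fun n : E → ℕ => (∏ e, J e ^ n e / (n e).factorial) *
        Φ (fun e => (n e : ZMod 2)) (fun e => decide (0 < n e)))
      (∑ η : E → ZMod 2, ∑ T : E → Bool, (∏ e, cw (J e) (η e) (T e)) * Φ η T) := by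
  have h1 : HasSum (fun n : E → ℕ => ∑ η : E → ZMod 2, ∑ T : E → Bool,
      (∏ e, Law_fac (J e) (η e) (T e) (n e)) * Φ η T)
      (∑ η : E → ZMod 2, ∑ T : E → Bool, (∏ e, cw (J e) (η e) (T e)) * Φ η T) := by
    refine hasSum_sum fun η _ => hasSum_sum fun T _ => ?_
    exact (Law_pi E (fun e => Law_fac (J e) (η e) (T e)) (fun e => cw (J e) (η e) (T e))
      (fun e => Law_fac_sum _ _ _)).mul_right _
  refine Law_hsc h1 fun n => ?_
  rw [Finset.sum_eq_single (fun e => (n e : ZMod 2))]
  · rw [Finset.sum_eq_single (fun e => decide (0 < n e))]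
    · congr 1
      refine Finset.prod_congr rfl fun e _ => ?_
      unfold Law_fac
      rw [if_pos ⟨rfl, rfl⟩]
    · intro T _ hne
      obtain ⟨e, he⟩ := Function.ne_iff.1 hne
      rw [Finset.prod_eq_zero (Finset.mem_univ e), zero_mul]
      unfold Law_fac
      rw [if_neg fun h => he h.2.symm]
    · intro h
      exact absurd (Finset.mem_univ _) h
  · intro η _ hne
    obtain ⟨e, he⟩ := Function.ne_iff.1 hne
    refine Finset.sum_eq_zero fun T _ => ?_
    rw [Finset.prod_eq_zero (Finset.mem_univ e), zero_mul]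
    unfold Law_fac
    rw [if_neg fun h => he h.1.symm]
  · intro h
    exact absurd (Finset.mem_univ _) h

end Pool.Agent.H48.SC
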