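import Pool.Agent.H48.SC.Lat
import Pool.Agent.H48.SC.Law

/-! # Sums over currents with prescribed values on `F` -/

set_option autoImplicit false

namespace Pool.Agent.H48.SC

open Pool.Agent.H90.SC MeasureTheory

variable {d : ℕ}

/-- The function with the values `k` on `F` and `m'` on `E \ F`. -/
private def CurGen_M (E F : Finset (Edg d)) (k : Edg d → ℕ) (m' : {e // e ∈ E \ F} → ℕ) :
    Edg d → ℕ := fun e => if h : e ∈ E \ F then m' ⟨e, h⟩ else k e

private theorem CurGen_M_F (E F : Finset (Edg d)) (k : Edg d → ℕ) (m' : {e // e ∈ E \ F} → ℕ)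
    (e : Edg d) (he : e ∈ F) : CurGen_M E F k m' e = k e := by
  unfold CurGen_M
  rw [dif_neg]
  intro h
  exact (Finset.mem_sdiff.mp h).2 he

private theorem CurGen_M_E (E F : Finset (Edg d)) (k : Edg d → ℕ) (m' : {e // e ∈ E \ F} → ℕ)
    (e : {e // e ∈ E \ F}) : CurGen_M E F k m' e.1 = m' e := by
  unfold CurGen_M
  rw [dif_pos e.2]

private theorem CurGen_tip (e : Edg d) : e.1 ≠ tip e := by
  intro h
  have := congrFun h e.2
  simp [tip] at this

private theorem CurGen_even (a : ℕ) : Even a ↔ (a : ZMod 2) = 0 :=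
  (ZMod.natCast_eq_zero_iff_even (n := a)).symm

/-- The coefficient of an edge in the boundary. -/
private def CurGen_c (e : Edg d) (x : Vtx d) : ZMod 2 :=
  (if e.1 = x then 1 else 0) + (if tip e = x then 1 else 0)

private theorem CurGen_term (a : ℕ) (e : Edg d) (x : Vtx d) :
    (((if x = e.1 ∨ x = tip e then a else 0 : ℕ)) : ZMod 2) = (a : ZMod 2) * CurGen_c e x := by
  unfold CurGen_c
  by_cases h1 : e.1 = x
  · have h2 : tip e ≠ x := by
      intro h
      exact CurGen_tip e (h1.trans h.symm)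
    rw [if_pos (Or.inl h1.symm), if_pos h1, if_neg h2]
    ring
  · by_cases h2 : tip e = x
    · rw [if_pos (Or.inr h2.symm), if_neg h1, if_pos h2]
      ring
    · rw [if_neg (fun h => h.elim (fun h => h1 h.symm) (fun h => h2 h.symm)), if_neg h1,
        if_neg h2]
      simp

private theorem CurGen_src (E F : Finset (Edg d)) (hF : F ⊆ E) (k : Edg d → ℕ)
    (m' : {e // e ∈ E \ F} → ℕ) :
    Sourceless E (fun e : {e // e ∈ E} => CurGen_M E F k m' e.1) ↔
      bd (ea (E \ F)) (eb (E \ F)) (fun e => (m' e : ZMod 2)) = bdF F k := by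
  have key : ∀ x : Vtx d, ((∑ e : {e // e ∈ E}, (if x = e.1.1 ∨ x = tip e.1 then
      CurGen_M E F k m' e.1 else 0) : ℕ) : ZMod 2) =
      bdF F k x + bd (ea (E \ F)) (eb (E \ F)) (fun e => (m' e : ZMod 2)) x := by
    intro x
    rw [Nat.cast_sum]
    have h1 : ∀ e : {e // e ∈ E}, (((if x = e.1.1 ∨ x = tip e.1 then
        CurGen_M E F k m' e.1 else 0 : ℕ)) : ZMod 2) =
        (fun e : Edg d => (CurGen_M E F k m' e : ZMod 2) * CurGen_c e x) e.1 :=
      fun e => CurGen_term _ _ _
    rw [Finset.sum_congr rfl fun e _ => h1 e,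
      Finset.sum_coe_sort E (fun e : Edg d => (CurGen_M E F k m' e : ZMod 2) * CurGen_c e x),
      ← Finset.sum_sdiff hF, add_comm]
    congr 1
    · unfold bdF
      refine Finset.sum_congr rfl fun e he => ?_
      rw [CurGen_M_F E F k m' e he]
      rfl
    · rw [← Finset.sum_coe_sort (E \ F)
        (fun e : Edg d => (CurGen_M E F k m' e : ZMod 2) * CurGen_c e x)]
      unfold bd
      refine Finset.sum_congr rfl fun e _ => ?_
      rw [CurGen_M_E E F k m' e]
      rfl
  constructor
  · intro h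
    funext x
    have h1 := (CurGen_even _).mp (h x)
    rw [key x] at h1
    exact (CharTwo.add_eq_zero.mp h1).symm
  · intro h x
    refine (CurGen_even _).mpr ?_
    rw [key x, h]
    exact CharTwo.add_self_eq_zero _

private theorem CurGen_ext (E F : Finset (Edg d)) (M : Edg d → ℕ) (e : Edg d) (he : e ∈ E) :
    ext0 E (fun e : {e // e ∈ E} => M e.1) e = M e := by
  unfold ext0
  rw [dif_pos he]

private theorem CurGen_mem (E F : Finset (Edg d)) (hF : F ⊆ E) (k : Edg d → ℕ)
    (Ψ : ({e // e ∈ E \ F} → Bool) → Prop) (m' : {e // e ∈ E \ F} → ℕ) :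
    ext0 E (fun e : {e // e ∈ E} => CurGen_M E F k m' e.1) ∈
      {n | n ∈ cyl F k ∧ Ψ fun e : {e // e ∈ E \ F} => decide (0 < n e.1)} ↔
      Ψ (fun e => decide (0 < m' e)) := by
  have h2 : (fun e : {e // e ∈ E \ F} => decide
      (0 < ext0 E (fun e : {e // e ∈ E} => CurGen_M E F k m' e.1) e.1)) =
      fun e => decide (0 < m' e) := by
    funext e
    rw [CurGen_ext E F _ _ (Finset.mem_sdiff.mp e.2).1, CurGen_M_E]
  rw [Set.mem_setOf_eq, h2]
  constructor
  · exact fun h => h.2
  · intro h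
    refine ⟨?_, h⟩
    intro e he
    rw [CurGen_ext E F _ _ (hF he), CurGen_M_F E F k m' e he]

theorem curSum_gen (β : ℝ) (E F : Finset (Edg d)) (hF : F ⊆ E) (k : Edg d → ℕ)
    (Ψ : ({e // e ∈ E \ F} → Bool) → Prop) :
    curSum β E {n | n ∈ cyl F k ∧ Ψ fun e => decide (0 < n e.1)} =
      (∏ e ∈ F, β ^ k e / (k e).factorial) * ZfE (E \ F) β (bdF F k) fun T => ind (Ψ T) := by
  classical
  have hZ : ZfE (E \ F) β (bdF F k) (fun T => ind (Ψ T)) =
      ∑' n : {e // e ∈ E \ F} → ℕ, (∏ e, β ^ n e / (n e).factorial) *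
        (ind (bd (ea (E \ F)) (eb (E \ F)) (fun e => (n e : ZMod 2)) = bdF F k) *
          ind (Ψ (fun e => decide (0 < n e)))) := by
    have h := cur_law (E := {e // e ∈ E \ F}) (fun _ => β)
      (fun η T => ind (bd (ea (E \ F)) (eb (E \ F)) η = bdF F k) * ind (Ψ T))
    rw [h.tsum_eq]
    unfold ZfE Zf
    refine Finset.sum_congr rfl fun η _ => Finset.sum_congr rfl fun T _ => ?_
    ring
  rw [hZ, ← tsum_mul_left]
  unfold curSum
  have hinj : Function.Injective (fun (m' : {e // e ∈ E \ F} → ℕ) (e : {e // e ∈ E}) =>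
      CurGen_M E F k m' e.1) := by
    intro m1 m2 h
    funext e
    have h1 := congrFun h ⟨e.1, (Finset.mem_sdiff.mp e.2).1⟩
    simp only at h1
    rwa [CurGen_M_E E F k m1 e, CurGen_M_E E F k m2 e] at h1
  rw [← hinj.tsum_eq]
  · refine tsum_congr fun m' => ?_
    have hp : (∏ e : {e // e ∈ E}, β ^ CurGen_M E F k m' e.1 /
        ((CurGen_M E F k m' e.1).factorial : ℝ)) =
        (∏ e ∈ F, β ^ k e / ((k e).factorial : ℝ)) *
          ∏ e : {e // e ∈ E \ F}, β ^ m' e / ((m' e).factorial : ℝ) := by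
      rw [Finset.prod_coe_sort E (fun e : Edg d => β ^ CurGen_M E F k m' e /
        ((CurGen_M E F k m' e).factorial : ℝ)), ← Finset.prod_sdiff hF, mul_comm]
      congr 1
      · refine Finset.prod_congr rfl fun e he => ?_
        rw [CurGen_M_F E F k m' e he]
      · rw [← Finset.prod_coe_sort (E \ F) (fun e : Edg d => β ^ CurGen_M E F k m' e /
          ((CurGen_M E F k m' e).factorial : ℝ))]
        refine Finset.prod_congr rfl fun e _ => ?_
        rw [CurGen_M_E E F k m' e]
    have hs := CurGen_src E F hF k m'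
    have hm := CurGen_mem E F hF k Ψ m'
    by_cases h1 : bd (ea (E \ F)) (eb (E \ F)) (fun e => (m' e : ZMod 2)) = bdF F k
    · by_cases h2 : Ψ (fun e => decide (0 < m' e))
      · rw [if_pos ⟨hs.mpr h1, hm.mpr h2⟩, hp, ind_true h1, ind_true h2]
        ring
      · rw [if_neg (fun h => h2 (hm.mp h.2)), ind_false h2]
        ring
    · rw [if_neg (fun h => h1 (hs.mp h.1)), ind_false h1]
      ring
  · intro m hm
    rw [Function.mem_support] at hm
    have hc : Sourceless E m ∧ ext0 E m ∈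
        {n | n ∈ cyl F k ∧ Ψ fun e : {e // e ∈ E \ F} => decide (0 < n e.1)} := by
      by_contra hcon
      exact hm (if_neg hcon)
    refine ⟨fun e => m ⟨e.1, (Finset.mem_sdiff.mp e.2).1⟩, ?_⟩
    funext e
    simp only
    by_cases he : e.1 ∈ F
    · rw [CurGen_M_F E F k _ e.1 he]
      have h1 := hc.2.1 e.1 he
      unfold ext0 at h1
      rw [dif_pos e.2] at h1
      exact h1.symm
    · unfold CurGen_M
      rw [dif_pos (Finset.mem_sdiff.mpr ⟨e.2, he⟩)]

end Pool.Agent.H48.SC
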