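import Pool.Agent.H48.SC.Push

/-! # Domination of product weights -/

set_option autoImplicit false

namespace Pool.Agent.H48.SC

theorem dom_le {E : Type*} [Fintype E] [DecidableEq E] (w w' : E → Bool → ℝ)
    (h : ∀ e t, 0 ≤ w e t) (h' : ∀ e t, 0 ≤ w' e t)
    (hs : ∀ e, w' e false + w' e true = w e false + w e true) (ht : ∀ e, w e false ≤ w' e false)
    (f : (E → Bool) → ℝ) (hf : Monotone f) :
    ∑ T : E → Bool, (∏ e, w' e (T e)) * f T ≤ ∑ T : E → Bool, (∏ e, w e (T e)) * f T := by
  classical
  set v : E → Fin 3 → ℝ := fun e => ![w e false, w' e false - w e false, w' e true] with hv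
  have hv0 : ∀ e i, 0 ≤ v e i := by
    intro e i
    fin_cases i
    · exact h e false
    · exact sub_nonneg.2 (ht e)
    · exact h' e true
  have e1 := push v (fun _ x => decide (x = 2)) f
  have e2 := push v (fun _ x => decide (x ≠ 0)) f
  have w1 : ∀ (r : E → Bool) (e : E),
      (∑ x : Fin 3, if decide (x = 2) = r e then v e x else 0) = w' e (r e) := by
    intro r e
    rw [Fin.sum_univ_three]
    cases r e
    · simp [hv]
    · simp [hv]
  have w2 : ∀ (r : E → Bool) (e : E),
      (∑ x : Fin 3, if decide (x ≠ 0) = r e then v e x else 0) = w e (r e) := by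
    intro r e
    rw [Fin.sum_univ_three]
    cases r e
    · simp [hv]
    · simp only [hv]
      simp
      linarith [hs e]
  simp only [w1] at e1
  simp only [w2] at e2
  rw [← e1, ← e2]
  refine Finset.sum_le_sum fun s _ => mul_le_mul_of_nonneg_left (hf fun e => ?_)
    (Finset.prod_nonneg fun e _ => hv0 e (s e))
  by_cases h2 : s e = 2
  · simp [h2]
  · simp [h2]

end Pool.Agent.H48.SC
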