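import Pool.Agent.H48.SC.Defs

/-! # The number of even subgraphs at most doubles when an edge is added -/

set_option autoImplicit false

namespace Pool.Agent.H48.SC

variable {E V : Type*} [Fintype E] [DecidableEq E] [DecidableEq V]

private theorem z2_cases (c : ZMod 2) : c = 0 ∨ c = 1 := by
  revert c
  decide

private theorem z2_self (c : ZMod 2) : c + c = 0 := CharTwo.add_self_eq_zero c

private theorem ind_split (p : Prop) (c : ZMod 2) : ind p = ind (p ∧ c = 0) + ind (p ∧ c = 1) := by
  rcases z2_cases c with h | h
  · subst h
    by_cases hp : p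
    · rw [ind_true hp, ind_true ⟨hp, rfl⟩, ind_false (fun h => zero_ne_one h.2), add_zero]
    · rw [ind_false hp, ind_false (fun h => hp h.1), ind_false (fun h => hp h.1), add_zero]
  · subst h
    by_cases hp : p
    · rw [ind_true hp, ind_false (fun h => one_ne_zero h.2), ind_true ⟨hp, rfl⟩, zero_add]
    · rw [ind_false hp, ind_false (fun h => hp h.1), ind_false (fun h => hp h.1), add_zero]

theorem Nb_update_le (a b : E → V) (ω : E → Bool) (e : E) :
    Nb a b 0 (Function.update ω e true) ≤ 2 * Nb a b 0 (Function.update ω e false) := by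
  set ωt := Function.update ω e true with hωt
  set ωf := Function.update ω e false with hωf
  have h0 : ∑ μ : E → ZMod 2, ind ((Le μ ωt ∧ bd a b μ = 0) ∧ μ e = 0) = Nb a b 0 ωf := by
    unfold Nb
    refine Finset.sum_congr rfl fun μ _ => congrArg ind (propext ?_)
    constructor
    · rintro ⟨⟨h1, h2⟩, h3⟩
      refine ⟨fun f hf => ?_, h2⟩
      have hfe : f ≠ e := fun h => hf (h ▸ h3)
      have h4 := h1 f hf
      rw [hωt, Function.update_of_ne hfe] at h4
      rw [hωf, Function.update_of_ne hfe]
      exact h4
    · rintro ⟨h1, h2⟩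
      have h3 : μ e = 0 := by
        by_contra hcon
        have := h1 e hcon
        rw [hωf, Function.update_self] at this
        exact Bool.false_ne_true this
      refine ⟨⟨fun f hf => ?_, h2⟩, h3⟩
      have hfe : f ≠ e := fun h => hf (h ▸ h3)
      have h4 := h1 f hf
      rw [hωf, Function.update_of_ne hfe] at h4
      rw [hωt, Function.update_of_ne hfe]
      exact h4
  have h1 : ∑ μ : E → ZMod 2, ind ((Le μ ωt ∧ bd a b μ = 0) ∧ μ e = 1) ≤
      ∑ μ : E → ZMod 2, ind ((Le μ ωt ∧ bd a b μ = 0) ∧ μ e = 0) := by
    by_cases hex : ∃ μ1 : E → ZMod 2, (Le μ1 ωt ∧ bd a b μ1 = 0) ∧ μ1 e = 1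
    · obtain ⟨μ1, ⟨h2, h3⟩, h4⟩ := hex
      rw [← Equiv.sum_comp (Equiv.addRight μ1)]
      refine Finset.sum_le_sum fun μ _ => ?_
      rw [Equiv.coe_addRight]
      refine ind_mono ?_
      rintro ⟨⟨h5, h6⟩, h7⟩
      have h8 : μ e = 0 := by
        have h7' : μ e + μ1 e = 1 := h7
        rw [h4] at h7'
        exact add_eq_right.1 h7'
      refine ⟨⟨fun f hf => ?_, ?_⟩, h8⟩
      · by_cases h9 : μ1 f = 0
        · apply h5
          change μ f + μ1 f ≠ 0
          rw [h9, add_zero]
          exact hf
        · exact h2 f h9
      · have h6' : bd a b (μ + μ1) = 0 := h6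
        rw [bd_add, h3, add_zero] at h6'
        exact h6'
    · push Not at hex
      have h2 : ∑ μ : E → ZMod 2, ind ((Le μ ωt ∧ bd a b μ = 0) ∧ μ e = 1) = 0 :=
        Finset.sum_eq_zero fun μ _ => ind_false fun h => hex μ h.1 h.2
      rw [h2]
      exact Finset.sum_nonneg fun μ _ => ind_nonneg _
  have h2 : Nb a b 0 ωt = ∑ μ : E → ZMod 2, ind ((Le μ ωt ∧ bd a b μ = 0) ∧ μ e = 0) +
      ∑ μ : E → ZMod 2, ind ((Le μ ωt ∧ bd a b μ = 0) ∧ μ e = 1) := by
    rw [← Finset.sum_add_distrib]
    unfold Nb
    exact Finset.sum_congr rfl fun μ _ => ind_split _ _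
  rw [h2]
  linarith

omit [Fintype E] in
private theorem anti_of_update [Fintype E] (g : (E → Bool) → ℝ)
    (h : ∀ ω e, g (Function.update ω e true) ≤ g (Function.update ω e false)) : Antitone g := by
  intro ω ω' hle
  have key : ∀ s : Finset E, g (fun e => if e ∈ s then ω' e else ω e) ≤ g ω := by
    intro s
    induction s using Finset.induction_on with
    | empty => simp
    | insert x s hx ih =>
      refine le_trans ?_ ih
      have e1 : (fun e => if e ∈ insert x s then ω' e else ω e) =
          Function.update (fun e => if e ∈ s then ω' e else ω e) x (ω' x) := by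
        funext e
        by_cases hex : e = x
        · subst hex
          rw [Function.update_self, if_pos (Finset.mem_insert_self _ _)]
        · rw [Function.update_of_ne hex]
          by_cases hs : e ∈ s
          · rw [if_pos (Finset.mem_insert_of_mem hs), if_pos hs]
          · rw [if_neg hs, if_neg]
            intro h
            rcases Finset.mem_insert.1 h with h | h
            · exact hex h
            · exact hs h
      rw [e1]
      by_cases hxx : ω' x = ω x
      · rw [hxx]
        have e2 : Function.update (fun e => if e ∈ s then ω' e else ω e) x (ω x) =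
            fun e => if e ∈ s then ω' e else ω e := by
          have : ω x = (fun e => if e ∈ s then ω' e else ω e) x := by
            simp only [if_neg hx]
          conv_lhs => rw [this]
          exact Function.update_eq_self x _
        rw [e2]
      · have h1 := hle x
        have h2 : ω' x = true ∧ ω x = false := by
          cases h3 : ω' x <;> cases h4 : ω x
          · exact absurd (h3.trans h4.symm) hxx
          · rw [h3, h4] at h1
            exact absurd (h1 rfl) Bool.false_ne_true
          · exact ⟨rfl, rfl⟩
          · exact absurd (h3.trans h4.symm) hxx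
        rw [h2.1]
        refine (h _ x).trans (le_of_eq ?_)
        congr 1
        have : (false : Bool) = (fun e => if e ∈ s then ω' e else ω e) x := by
          simp only [if_neg hx]
          exact h2.2.symm
        conv_lhs => rw [this]
        exact Function.update_eq_self x _
  have := key Finset.univ
  simpa using this

theorem Nb_half_anti (a b : E → V) :
    Antitone fun ω : E → Bool => Nb a b 0 ω * ∏ e, (if ω e = true then (1 / 2 : ℝ) else 1) := by
  refine anti_of_update _ fun ω e => ?_
  have hp : ∀ t : Bool, ∏ f, (if Function.update ω e t f = true then (1 / 2 : ℝ) else 1) =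
      (if t = true then (1 / 2 : ℝ) else 1) *
        ∏ f ∈ Finset.univ.erase e, (if ω f = true then (1 / 2 : ℝ) else 1) := by
    intro t
    rw [← Finset.mul_prod_erase Finset.univ _ (Finset.mem_univ e), Function.update_self]
    congr 1
    refine Finset.prod_congr rfl fun f hf => ?_
    rw [Function.update_of_ne (Finset.ne_of_mem_erase hf)]
  have h1 := Nb_update_le a b ω e
  have h2 : 0 ≤ ∏ f ∈ Finset.univ.erase e, (if ω f = true then (1 / 2 : ℝ) else 1) := by
    refine Finset.prod_nonneg fun f _ => ?_
    split_ifs <;> norm_num
  rw [hp true, hp false, if_pos rfl, if_neg Bool.false_ne_true, one_mul]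
  calc Nb a b 0 (Function.update ω e true) * (1 / 2 * ∏ f ∈ Finset.univ.erase e,
        (if ω f = true then (1 / 2 : ℝ) else 1))
      = (Nb a b 0 (Function.update ω e true) / 2) * ∏ f ∈ Finset.univ.erase e,
        (if ω f = true then (1 / 2 : ℝ) else 1) := by ring
    _ ≤ _ := mul_le_mul_of_nonneg_right (by linarith) h2

end Pool.Agent.H48.SC
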