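import Pool.Agent.H48.SC.Defs

/-! # The switching lemma -/

set_option autoImplicit false

namespace Pool.Agent.H48.SC

variable {E V : Type*} [Fintype E] [DecidableEq E] [DecidableEq V]

private theorem z2_add_self (c : ZMod 2) : c + c = 0 := CharTwo.add_self_eq_zero c

private theorem fun_add_self {X : Type*} (c : X → ZMod 2) : c + c = 0 :=
  funext fun x => z2_add_self (c x)

omit [DecidableEq V] in
private theorem bd_single' [DecidableEq V] (a b : E → V) (e : E) :
    bd a b (Pi.single e 1) = dl (a e) + dl (b e) := by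
  funext v
  unfold bd
  rw [Finset.sum_eq_single e]
  · simp [dl]
  · intro f _ hf
    simp [hf]
  · simp

/-- Connected points are joined by a path inside `ω`. -/
theorem exists_bd (a b : E → V) (ω : E → Bool) {x y : V} (h : Cn a b ω x y) :
    ∃ μ : E → ZMod 2, Le μ ω ∧ bd a b μ = dl x + dl y := by
  unfold Cn at h
  induction h with
  | refl => exact ⟨0, fun e he => absurd rfl he, by rw [bd_zero, fun_add_self]⟩
  | tail _ hstep ih =>
    rename_i u v _
    obtain ⟨μ, h1, h2⟩ := ih
    obtain ⟨e, he, h3⟩ := hstep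
    refine ⟨μ + Pi.single e 1, ?_, ?_⟩
    · intro f hf
      by_cases hfe : f = e
      · rw [hfe]
        exact he
      · apply h1
        intro h0
        apply hf
        rw [Pi.add_apply, h0, Pi.single_eq_of_ne hfe, add_zero]
    · rw [bd_add, h2, bd_single']
      rcases h3 with ⟨rfl, rfl⟩ | ⟨rfl, rfl⟩
      · calc dl x + dl (a e) + (dl (a e) + dl (b e))
            = dl x + (dl (a e) + dl (a e)) + dl (b e) := by abel
          _ = dl x + dl (b e) := by rw [fun_add_self, add_zero]
      · calc dl x + dl (b e) + (dl (a e) + dl (b e))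
            = dl x + (dl (b e) + dl (b e)) + dl (a e) := by abel
          _ = dl x + dl (a e) := by rw [fun_add_self, add_zero]

theorem Cn_of_bd (a b : E → V) (ω : E → Bool) {x y : V} {μ : E → ZMod 2} (hμ : Le μ ω)
    (h : bd a b μ = dl x + dl y) : Cn a b ω x y := by
  classical
  by_contra hcon
  set F : Finset V := (({x, y} : Finset V) ∪ Finset.univ.image a ∪ Finset.univ.image b).filter
    (fun v => Cn a b ω x v) with hF
  have hxF : x ∈ F := by
    rw [hF, Finset.mem_filter]
    refine ⟨?_, Relation.ReflTransGen.refl⟩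
    simp
  have hyF : y ∉ F := by
    rw [hF, Finset.mem_filter]
    exact fun h => hcon h.2
  have haF : ∀ e, a e ∈ F ↔ Cn a b ω x (a e) := by
    intro e
    rw [hF, Finset.mem_filter]
    refine ⟨fun h => h.2, fun h => ⟨?_, h⟩⟩
    rw [Finset.mem_union, Finset.mem_union]
    exact Or.inl (Or.inr (Finset.mem_image_of_mem a (Finset.mem_univ e)))
  have hbF : ∀ e, b e ∈ F ↔ Cn a b ω x (b e) := by
    intro e
    rw [hF, Finset.mem_filter]
    refine ⟨fun h => h.2, fun h => ⟨?_, h⟩⟩
    rw [Finset.mem_union, Finset.mem_union]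
    exact Or.inr (Finset.mem_image_of_mem b (Finset.mem_univ e))
  have hab : ∀ e, ω e = true → (a e ∈ F ↔ b e ∈ F) := by
    intro e he
    rw [haF, hbF]
    constructor
    · intro h1
      exact h1.tail ⟨e, he, Or.inl ⟨rfl, rfl⟩⟩
    · intro h1
      exact h1.tail ⟨e, he, Or.inr ⟨rfl, rfl⟩⟩
  have s1 : ∑ v ∈ F, bd a b μ v = 0 := by
    unfold bd
    rw [Finset.sum_comm]
    refine Finset.sum_eq_zero fun e _ => ?_
    rw [← Finset.mul_sum, Finset.sum_add_distrib, Finset.sum_ite_eq, Finset.sum_ite_eq]
    by_cases hm : μ e = 0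
    · rw [hm, zero_mul]
    · have h1 := hab e (hμ e hm)
      by_cases h2 : a e ∈ F
      · rw [if_pos h2, if_pos (h1.1 h2), z2_add_self, mul_zero]
      · rw [if_neg h2, if_neg (fun h3 => h2 (h1.2 h3)), z2_add_self, mul_zero]
  have s2 : ∑ v ∈ F, bd a b μ v = 1 := by
    rw [h]
    simp only [Pi.add_apply, dl]
    rw [Finset.sum_add_distrib, Finset.sum_ite_eq, Finset.sum_ite_eq, if_pos hxF, if_neg hyF,
      add_zero]
  rw [s1] at s2
  exact zero_ne_one s2

/-- Inside `ω` there are as many `μ` with boundary `δ_x + δ_y` as even `μ` if `x` and `y` are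
connected in `ω`, and none otherwise. -/
theorem Nb_switch (a b : E → V) (x y : V) (ω : E → Bool) :
    Nb a b (dl x + dl y) ω = ind (Cn a b ω x y) * Nb a b 0 ω := by
  by_cases hc : Cn a b ω x y
  · rw [ind_true hc, one_mul]
    obtain ⟨μ0, h1, h2⟩ := exists_bd a b ω hc
    unfold Nb
    rw [← Equiv.sum_comp (Equiv.addRight μ0)]
    refine Finset.sum_congr rfl fun μ _ => ?_
    rw [Equiv.coe_addRight]
    have hiff : (Le (μ + μ0) ω ∧ bd a b (μ + μ0) = dl x + dl y) ↔ (Le μ ω ∧ bd a b μ = 0) := by
      constructor
      · rintro ⟨h3, h4⟩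
        constructor
        · intro e he
          by_cases h5 : μ0 e = 0
          · apply h3
            rw [Pi.add_apply, h5, add_zero]
            exact he
          · exact h1 e h5
        · rw [bd_add, h2] at h4
          exact add_eq_right.1 h4
      · rintro ⟨h3, h4⟩
        constructor
        · intro e he
          by_cases h5 : μ0 e = 0
          · apply h3
            rw [Pi.add_apply, h5, add_zero] at he
            exact he
          · exact h1 e h5
        · rw [bd_add, h2, h4, zero_add]
    exact congrArg ind (propext hiff)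
  · rw [ind_false hc, zero_mul]
    unfold Nb
    refine Finset.sum_eq_zero fun μ _ => ?_
    exact ind_false fun h => hc (Cn_of_bd a b ω h.1 h.2)

end Pool.Agent.H48.SC
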