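import Pool.Agent.H48.SC.Defs

/-! # Correlation inequalities for product weights on `E → Fin 3` -/

set_option autoImplicit false

namespace Pool.Agent.H48.SC

/-- Two monotone functions of arbitrary sign are positively correlated. -/
private theorem Fkg3_mm {E : Type*} [Fintype E] [DecidableEq E] (c : E → Fin 3 → ℝ)
    (hc : ∀ e i, 0 ≤ c e i) (F G : (E → Fin 3) → ℝ) (hF : Monotone F) (hG : Monotone G) :
    (∑ s : E → Fin 3, (∏ e, c e (s e)) * F s) * (∑ s : E → Fin 3, (∏ e, c e (s e)) * G s) ≤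
      (∑ s : E → Fin 3, ∏ e, c e (s e)) * ∑ s : E → Fin 3, (∏ e, c e (s e)) * (F s * G s) := by
  classical
  set μ : (E → Fin 3) → ℝ := fun s => ∏ e, c e (s e) with hμ
  set a : ℝ := -F ⊥ with ha
  set b : ℝ := -G ⊥ with hb
  have hμ0 : 0 ≤ μ := fun s => Finset.prod_nonneg fun e _ => hc e (s e)
  have key := fkg (μ := μ) (f := fun s => F s + a) (g := fun s => G s + b) hμ0
    (fun s => by
      have := hF (bot_le : (⊥ : E → Fin 3) ≤ s)
      change 0 ≤ F s + a
      rw [ha]; linarith)
    (fun s => by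
      have := hG (bot_le : (⊥ : E → Fin 3) ≤ s)
      change 0 ≤ G s + b
      rw [hb]; linarith)
    (fun s t h => by
      change F s + a ≤ F t + a
      linarith [hF h])
    (fun s t h => by
      change G s + b ≤ G t + b
      linarith [hG h])
    (fun s t => by
      simp only [hμ]
      rw [← Finset.prod_mul_distrib, ← Finset.prod_mul_distrib]
      refine le_of_eq (Finset.prod_congr rfl fun e _ => ?_)
      simp only [Pi.inf_apply, Pi.sup_apply]
      rcases le_total (s e) (t e) with h | h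
      · rw [inf_eq_left.2 h, sup_eq_right.2 h]
      · rw [inf_eq_right.2 h, sup_eq_left.2 h, mul_comm])
  have e1 : ∑ s, μ s * (F s + a) = ∑ s, μ s * F s + a * ∑ s, μ s := by
    rw [Finset.mul_sum, ← Finset.sum_add_distrib]
    exact Finset.sum_congr rfl fun s _ => by ring
  have e2 : ∑ s, μ s * (G s + b) = ∑ s, μ s * G s + b * ∑ s, μ s := by
    rw [Finset.mul_sum, ← Finset.sum_add_distrib]
    exact Finset.sum_congr rfl fun s _ => by ring
  have e3 : ∑ s, μ s * ((F s + a) * (G s + b)) = ∑ s, μ s * (F s * G s) +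
      b * ∑ s, μ s * F s + a * ∑ s, μ s * G s + a * b * ∑ s, μ s := by
    rw [Finset.mul_sum, Finset.mul_sum, Finset.mul_sum, ← Finset.sum_add_distrib,
      ← Finset.sum_add_distrib, ← Finset.sum_add_distrib]
    exact Finset.sum_congr rfl fun s _ => by ring
  simp only [e1, e2, e3] at key
  nlinarith [key]

/-- A monotone and an antitone function are negatively correlated. -/
theorem fkg_ma {E : Type*} [Fintype E] [DecidableEq E] (c : E → Fin 3 → ℝ) (hc : ∀ e i, 0 ≤ c e i)
    (F G : (E → Fin 3) → ℝ) (hF : Monotone F) (hG : Antitone G) :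
    (∑ s : E → Fin 3, ∏ e, c e (s e)) * (∑ s : E → Fin 3, (∏ e, c e (s e)) * (F s * G s)) ≤
      (∑ s : E → Fin 3, (∏ e, c e (s e)) * F s) * ∑ s : E → Fin 3, (∏ e, c e (s e)) * G s := by
  have h := Fkg3_mm c hc F (fun s => -G s) hF (fun s t hst => neg_le_neg (hG hst))
  simp only [mul_neg, Finset.sum_neg_distrib] at h
  linarith

/-- Two antitone functions are positively correlated. -/
theorem fkg_aa {E : Type*} [Fintype E] [DecidableEq E] (c : E → Fin 3 → ℝ) (hc : ∀ e i, 0 ≤ c e i)
    (F G : (E → Fin 3) → ℝ) (hF : Antitone F) (hG : Antitone G) :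
    (∑ s : E → Fin 3, (∏ e, c e (s e)) * F s) * (∑ s : E → Fin 3, (∏ e, c e (s e)) * G s) ≤
      (∑ s : E → Fin 3, ∏ e, c e (s e)) * ∑ s : E → Fin 3, (∏ e, c e (s e)) * (F s * G s) := by
  have h := Fkg3_mm c hc (fun s => -F s) (fun s => -G s) (fun s t hst => neg_le_neg (hF hst))
    (fun s t hst => neg_le_neg (hG hst))
  simp only [mul_neg, neg_mul, neg_neg, Finset.sum_neg_distrib] at h
  linarith

end Pool.Agent.H48.SC
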