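import Pool.Agent.H48.SC.Push
import Pool.Agent.H48.SC.Fkg3

/-! # The comparison for symmetric weights -/

set_option autoImplicit false

namespace Pool.Agent.H48.SC

/-- The weights on `Bool × Fin 3`. -/
private noncomputable def Sym_w {E : Type*} (w : E → Bool → Bool → ℝ) (e : E)
    (x : Bool × Fin 3) : ℝ :=
  if x.1 then (if x.2 = 1 then w e true true else w e true false)
  else (if x.2 = 1 then 0 else w e false false / 2)

private def Sym_T (x : Bool × Fin 3) : Bool := x.1 && decide (x.2 ≠ 2)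

private def Sym_O (x : Bool × Fin 3) : Bool := x.1 && decide (x.2 ≠ 0)

private theorem Sym_w_nonneg {E : Type*} (w : E → Bool → Bool → ℝ)
    (h0 : ∀ e t o, 0 ≤ w e t o) (e : E) (x : Bool × Fin 3) : 0 ≤ Sym_w w e x := by
  unfold Sym_w
  split_ifs
  · exact h0 _ _ _
  · exact h0 _ _ _
  · exact le_rfl
  · have := h0 e false false
    linarith

private theorem Sym_sum {E : Type*} (w : E → Bool → Bool → ℝ)
    (hs : ∀ e, w e true false = w e false true) (e : E) (r : Bool × Bool) :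
    (∑ x : Bool × Fin 3, if (Sym_T x, Sym_O x) = r then Sym_w w e x else 0) =
      w e r.1 r.2 := by
  obtain ⟨t, o⟩ := r
  rw [Fintype.sum_prod_type, Fintype.sum_bool, Fin.sum_univ_three, Fin.sum_univ_three]
  cases t <;> cases o <;> simp [Sym_T, Sym_O, Sym_w, hs]

private theorem Sym_pairs {E A B : Type*} [Fintype E] [DecidableEq E] [Fintype A] [Fintype B]
    (H : (E → A × B) → ℝ) :
    ∑ r : E → A × B, H r = ∑ a : E → A, ∑ b : E → B, H (fun e => (a e, b e)) := by
  rw [← Fintype.sum_prod_type' (fun (a : E → A) (b : E → B) => H (fun e => (a e, b e)))]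
  exact (Equiv.sum_comp (Equiv.arrowProdEquivProdArrow E (fun _ => A) (fun _ => B))
    (fun p : (E → A) × (E → B) => H (fun e => (p.1 e, p.2 e)))).symm ▸ rfl

private theorem Sym_key {E : Type*} [Fintype E] [DecidableEq E] (w : E → Bool → Bool → ℝ)
    (hs : ∀ e, w e true false = w e false true) (G : (E → Bool) → (E → Bool) → ℝ) :
    ∑ T : E → Bool, ∑ ω : E → Bool, (∏ e, w e (T e) (ω e)) * G T ω =
      ∑ Q : E → Bool, ∑ s : E → Fin 3, (∏ e, Sym_w w e (Q e, s e)) *
        G (fun e => Sym_T (Q e, s e)) (fun e => Sym_O (Q e, s e)) := by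
  have h := push (E := E) (S := Bool × Fin 3) (R := Bool × Bool) (fun e x => Sym_w w e x)
    (fun _ x => (Sym_T x, Sym_O x)) (fun r => G (fun e => (r e).1) (fun e => (r e).2))
  rw [Sym_pairs, Sym_pairs] at h
  simp only [Sym_sum w hs] at h
  exact h.symm

theorem sym_le {E : Type*} [Fintype E] [DecidableEq E] (w : E → Bool → Bool → ℝ)
    (h0 : ∀ e t o, 0 ≤ w e t o) (hs : ∀ e, w e true false = w e false true)
    (f g : (E → Bool) → ℝ) (hf : Monotone f) (hg : Antitone g) :
    ∑ T : E → Bool, ∑ ω : E → Bool, (∏ e, w e (T e) (ω e)) * (g ω * f ω) ≤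
      ∑ T : E → Bool, ∑ ω : E → Bool, (∏ e, w e (T e) (ω e)) * (g ω * f T) := by
  rw [Sym_key w hs (fun _ ω => g ω * f ω), Sym_key w hs (fun T ω => g ω * f T)]
  refine Finset.sum_le_sum fun Q _ => ?_
  set c : E → Fin 3 → ℝ := fun e i => Sym_w w e (Q e, i) with hc
  have hc0 : ∀ e i, 0 ≤ c e i := fun e i => Sym_w_nonneg w h0 e (Q e, i)
  set F : (E → Fin 3) → ℝ := fun s => f (fun e => Sym_O (Q e, s e)) with hF
  set F' : (E → Fin 3) → ℝ := fun s => f (fun e => Sym_T (Q e, s e)) with hF'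
  set G : (E → Fin 3) → ℝ := fun s => g (fun e => Sym_O (Q e, s e)) with hG
  have mO : ∀ q : Bool, ∀ i j : Fin 3, i ≤ j → Sym_O (q, i) ≤ Sym_O (q, j) := by
    unfold Sym_O
    decide
  have mT : ∀ q : Bool, ∀ i j : Fin 3, i ≤ j → Sym_T (q, j) ≤ Sym_T (q, i) := by
    unfold Sym_T
    decide
  have hFm : Monotone F := fun s s' hss => hf (fun e => mO (Q e) _ _ (hss e))
  have hF'a : Antitone F' := fun s s' hss => hf (fun e => mT (Q e) _ _ (hss e))
  have hGa : Antitone G := fun s s' hss => hg (fun e => mO (Q e) _ _ (hss e))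
  have h1 := fkg_ma c hc0 F G hFm hGa
  have h2 := fkg_aa c hc0 G F' hGa hF'a
  -- the symmetry
  have hsym : ∑ s : E → Fin 3, (∏ e, c e (s e)) * F' s = ∑ s : E → Fin 3, (∏ e, c e (s e)) * F s := by
    have hrev : ∀ q : Bool, ∀ i : Fin 3, Sym_T (q, Fin.rev i) = Sym_O (q, i) := by
      unfold Sym_T Sym_O
      decide
    have hcr : ∀ e i, c e (Fin.rev i) = c e i := by
      intro e i
      simp only [hc, Sym_w]
      fin_cases i <;> simp
    rw [← Equiv.sum_comp (Equiv.arrowCongr (Equiv.refl E) Fin.revPerm)]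
    refine Finset.sum_congr rfl fun s _ => ?_
    have e1 : ∀ e, (Equiv.arrowCongr (Equiv.refl E) Fin.revPerm) s e = Fin.rev (s e) := by
      intro e
      rfl
    simp only [hF, hF', e1, hcr, hrev]
  have hE0 : 0 ≤ ∑ s : E → Fin 3, ∏ e, c e (s e) :=
    Finset.sum_nonneg fun s _ => Finset.prod_nonneg fun e _ => hc0 e (s e)
  rcases hE0.eq_or_lt with hE | hE
  · have hz : ∀ s : E → Fin 3, ∏ e, c e (s e) = 0 := by
      intro s
      exact (Finset.sum_eq_zero_iff_of_nonneg
        (fun s _ => Finset.prod_nonneg fun e _ => hc0 e (s e))).1 hE.symm s (Finset.mem_univ s)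
    have hl : ∑ s : E → Fin 3, (∏ e, c e (s e)) * (G s * F s) = 0 :=
      Finset.sum_eq_zero fun s _ => by rw [hz s, zero_mul]
    have hr : ∑ s : E → Fin 3, (∏ e, c e (s e)) * (G s * F' s) = 0 :=
      Finset.sum_eq_zero fun s _ => by rw [hz s, zero_mul]
    change ∑ s : E → Fin 3, (∏ e, c e (s e)) * (G s * F s) ≤
      ∑ s : E → Fin 3, (∏ e, c e (s e)) * (G s * F' s)
    rw [hl, hr]
  · change ∑ s : E → Fin 3, (∏ e, c e (s e)) * (G s * F s) ≤
      ∑ s : E → Fin 3, (∏ e, c e (s e)) * (G s * F' s)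
    have hcomm : ∑ s : E → Fin 3, (∏ e, c e (s e)) * (G s * F s) =
        ∑ s : E → Fin 3, (∏ e, c e (s e)) * (F s * G s) :=
      Finset.sum_congr rfl fun s _ => by rw [mul_comm (G s)]
    rw [hcomm]
    refine le_of_mul_le_mul_left ?_ hE
    refine h1.trans ?_
    refine le_trans (le_of_eq ?_) h2
    rw [hsym, mul_comm]

end Pool.Agent.H48.SC
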