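import Pool.Agent.H48.SC.Tab
import Pool.Agent.H48.SC.Sym
import Pool.Agent.H48.SC.Dom
import Pool.Agent.H48.SC.Half
import Pool.Agent.H48.SC.Switch

/-! # The inequality for one current -/

set_option autoImplicit false

namespace Pool.Agent.H48.SC

variable {E V : Type*} [Fintype E] [DecidableEq E] [DecidableEq V]

private theorem MainA_sum2 (w : E → Bool → Bool → ℝ) :
    ∑ T : E → Bool, ∑ ω : E → Bool, ∏ e, w e (T e) (ω e) = ∏ e, ∑ t : Bool, ∑ o : Bool, w e t o := by
  have h : ∀ T : E → Bool, ∑ ω : E → Bool, ∏ e, w e (T e) (ω e) = ∏ e, ∑ o : Bool, w e (T e) o :=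
    fun T => sum_prod fun e o => w e (T e) o
  simp only [h]
  exact sum_prod fun e t => ∑ o : Bool, w e t o

private theorem MainA_Nb (a b : E → V) (s : V → ZMod 2) (ω : E → Bool) :
    Nb a b s ω = ∑ μ : E → ZMod 2, ind (bd a b μ = s) * ∏ e, le1 (μ e) (ω e) := by
  unfold Nb
  refine Finset.sum_congr rfl fun μ _ => ?_
  rw [ind_and, ind_Le, mul_comm]

/-- Substitution `η = ν + μ`. -/
private theorem MainA_shift (a b : E → V) (s δ : V → ZMod 2) (μ : E → ZMod 2)
    (hμ : bd a b μ = δ) (F : (E → ZMod 2) → ℝ) :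
    ∑ ν : E → ZMod 2, ind (bd a b ν = s) * F (ν + μ) =
      ∑ η : E → ZMod 2, ind (bd a b η = s + δ) * F η := by
  refine Fintype.sum_equiv (Equiv.addRight μ) _ _ fun ν => ?_
  simp only [Equiv.coe_addRight]
  congr 1
  rw [bd_add, hμ]
  by_cases h : bd a b ν = s
  · rw [ind_true h, ind_true (by rw [h])]
  · rw [ind_false h, ind_false (fun h' => h (add_right_cancel h'))]

/-- The intermediate sum. -/
noncomputable def Mid (a b : E → V) (L : E → ℝ) (s : V → ZMod 2)
    (Φ : (E → Bool) → (E → Bool) → ℝ) : ℝ :=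
  ∑ ν : E → ZMod 2, ind (bd a b ν = s) *
    ∑ T : E → Bool, ∑ ω : E → Bool, (∏ e, Wt (L e) (ν e) (T e) (ω e)) * (Nb a b 0 ω * Φ T ω)

/-- (ii) -/
theorem Mid_right (a b : E → V) (L : E → ℝ) (s : V → ZMod 2) (x y : V) :
    Mid a b L s (fun _ ω => ind (Cn a b ω x y)) =
      Z a b (fun e => 3 * L e) (s + (dl x + dl y)) * Z a b L (dl x + dl y) := by
  unfold Mid
  have h1 : ∀ ν : E → ZMod 2, ∑ T : E → Bool, ∑ ω : E → Bool,
      (∏ e, Wt (L e) (ν e) (T e) (ω e)) * (Nb a b 0 ω * ind (Cn a b ω x y)) =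
      ∑ μ : E → ZMod 2, ind (bd a b μ = dl x + dl y) *
        ((∏ e, w1 (3 * L e) ((ν + μ) e)) * ∏ e, w1 (L e) (μ e)) := by
    intro ν
    have h2 : ∀ T ω : E → Bool,
        (∏ e, Wt (L e) (ν e) (T e) (ω e)) * (Nb a b 0 ω * ind (Cn a b ω x y)) =
        ∑ μ : E → ZMod 2, ind (bd a b μ = dl x + dl y) *
          ∏ e, (Wt (L e) (ν e) (T e) (ω e) * le1 (μ e) (ω e)) := by
      intro T ω
      rw [mul_comm (Nb a b 0 ω), ← Nb_switch, MainA_Nb, Finset.mul_sum]
      refine Finset.sum_congr rfl fun μ _ => ?_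
      rw [Finset.prod_mul_distrib]
      ring
    simp only [h2]
    calc _ = ∑ T : E → Bool, ∑ μ : E → ZMod 2, ∑ ω : E → Bool, ind (bd a b μ = dl x + dl y) *
          ∏ e, (Wt (L e) (ν e) (T e) (ω e) * le1 (μ e) (ω e)) :=
          Finset.sum_congr rfl fun T _ => Finset.sum_comm
      _ = ∑ μ : E → ZMod 2, ∑ T : E → Bool, ∑ ω : E → Bool, ind (bd a b μ = dl x + dl y) *
          ∏ e, (Wt (L e) (ν e) (T e) (ω e) * le1 (μ e) (ω e)) := Finset.sum_comm
      _ = _ := by
          refine Finset.sum_congr rfl fun μ _ => ?_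
          simp only [← Finset.mul_sum]
          rw [MainA_sum2 fun e t o => Wt (L e) (ν e) t o * le1 (μ e) o, ← Finset.prod_mul_distrib]
          congr 1
          exact Finset.prod_congr rfl fun e _ => Wt_sum (L e) (ν e) (μ e)
  simp only [h1, Finset.mul_sum]
  rw [Finset.sum_comm]
  unfold Z
  rw [Finset.sum_mul_sum]
  conv_rhs => rw [Finset.sum_comm]
  refine Finset.sum_congr rfl fun μ _ => ?_
  by_cases hμ : bd a b μ = dl x + dl y
  · have := MainA_shift a b s (dl x + dl y) μ hμ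
      (fun η => (∏ e, w1 (3 * L e) (η e)) * ∏ e, w1 (L e) (μ e))
    simp only [ind_true hμ, one_mul]
    rw [this]
    exact Finset.sum_congr rfl fun η _ => by ring
  · simp only [ind_false hμ, zero_mul, mul_zero]

/-- (i) -/
theorem Mid_left (a b : E → V) (L : E → ℝ) (hL : ∀ e, 0 ≤ L e) (s : V → ZMod 2)
    (f : (E → Bool) → ℝ) (hf : Monotone f) :
    Mid a b L s (fun T _ => f T) ≤ Zf a b (fun e => 3 * L e) s f * Z a b L 0 := by
  have h1 : Mid a b L s (fun T _ => f T) =
      ∑ μ : E → ZMod 2, ind (bd a b μ = 0) * ∑ ν : E → ZMod 2, ind (bd a b ν = s) *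
        ∑ T : E → Bool, (∏ e, ∑ o : Bool, Wt (L e) (ν e) (T e) o * le1 (μ e) o) * f T := by
    unfold Mid
    have h2 : ∀ (ν : E → ZMod 2) (T ω : E → Bool),
        (∏ e, Wt (L e) (ν e) (T e) (ω e)) * (Nb a b 0 ω * f T) =
        ∑ μ : E → ZMod 2, ind (bd a b μ = 0) *
          ((∏ e, (Wt (L e) (ν e) (T e) (ω e) * le1 (μ e) (ω e))) * f T) := by
      intro ν T ω
      rw [MainA_Nb, Finset.sum_mul, Finset.mul_sum]
      refine Finset.sum_congr rfl fun μ _ => ?_
      rw [Finset.prod_mul_distrib]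
      ring
    simp only [h2]
    have h3 : ∀ ν : E → ZMod 2, ∑ T : E → Bool, ∑ ω : E → Bool, ∑ μ : E → ZMod 2,
        ind (bd a b μ = 0) * ((∏ e, (Wt (L e) (ν e) (T e) (ω e) * le1 (μ e) (ω e))) * f T) =
        ∑ μ : E → ZMod 2, ind (bd a b μ = 0) *
          ∑ T : E → Bool, (∏ e, ∑ o : Bool, Wt (L e) (ν e) (T e) o * le1 (μ e) o) * f T := by
      intro ν
      calc _ = ∑ T : E → Bool, ∑ μ : E → ZMod 2, ∑ ω : E → Bool, ind (bd a b μ = 0) *
            ((∏ e, (Wt (L e) (ν e) (T e) (ω e) * le1 (μ e) (ω e))) * f T) :=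
            Finset.sum_congr rfl fun T _ => Finset.sum_comm
        _ = ∑ μ : E → ZMod 2, ∑ T : E → Bool, ∑ ω : E → Bool, ind (bd a b μ = 0) *
            ((∏ e, (Wt (L e) (ν e) (T e) (ω e) * le1 (μ e) (ω e))) * f T) := Finset.sum_comm
        _ = _ := by
            refine Finset.sum_congr rfl fun μ _ => ?_
            rw [Finset.mul_sum]
            refine Finset.sum_congr rfl fun T _ => ?_
            rw [← Finset.mul_sum, ← Finset.sum_mul]
            congr 2
            exact sum_prod fun e o => Wt (L e) (ν e) (T e) o * le1 (μ e) o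
    simp only [h3, Finset.mul_sum]
    rw [Finset.sum_comm]
    refine Finset.sum_congr rfl fun μ _ => Finset.sum_congr rfl fun ν _ =>
      Finset.sum_congr rfl fun T _ => by ring
  have h4 : Zf a b (fun e => 3 * L e) s f * Z a b L 0 =
      ∑ μ : E → ZMod 2, ind (bd a b μ = 0) * ∑ ν : E → ZMod 2, ind (bd a b ν = s) *
        ∑ T : E → Bool, (∏ e, (cw (3 * L e) (ν e + μ e) (T e) * w1 (L e) (μ e))) * f T := by
    unfold Z Zf
    rw [mul_comm, Finset.sum_mul]
    refine Finset.sum_congr rfl fun μ _ => ?_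
    rw [mul_assoc]
    by_cases hμ : bd a b μ = 0
    · simp only [ind_true hμ, one_mul]
      have h5 := MainA_shift a b s 0 μ hμ (fun η => ∑ T : E → Bool,
        (∏ e, (cw (3 * L e) (η e) (T e) * w1 (L e) (μ e))) * f T)
      rw [add_zero] at h5
      simp only [Pi.add_apply] at h5
      rw [h5, Finset.mul_sum]
      refine Finset.sum_congr rfl fun η _ => ?_
      rw [Finset.mul_sum, Finset.mul_sum]
      refine Finset.sum_congr rfl fun T _ => ?_
      rw [Finset.prod_mul_distrib]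
      ring
    · simp only [ind_false hμ, zero_mul]
  rw [h1, h4]
  refine Finset.sum_le_sum fun μ _ => mul_le_mul_of_nonneg_left ?_ (ind_nonneg _)
  refine Finset.sum_le_sum fun ν _ => mul_le_mul_of_nonneg_left ?_ (ind_nonneg _)
  refine dom_le (fun e t => cw (3 * L e) (ν e + μ e) t * w1 (L e) (μ e))
    (fun e t => ∑ o : Bool, Wt (L e) (ν e) t o * le1 (μ e) o)
    (fun e t => mul_nonneg (cw_nonneg (by linarith [hL e]) _ _) (w1_nonneg (hL e) _))
    (fun e t => Finset.sum_nonneg fun o _ => mul_nonneg (Wt_nonneg (hL e) _ _ _) (le1_nonneg _ _))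
    (fun e => ?_) (fun e => cw_false_le (hL e) _ _) f hf
  have h6 := Wt_sum (L e) (ν e) (μ e)
  have h7 := cw_sum (3 * L e) (ν e + μ e)
  rw [Fintype.sum_bool] at h6 h7
  rw [← h7] at h6
  linarith

/-- (iii) -/
theorem Mid_le (a b : E → V) (L : E → ℝ) (hL : ∀ e, 0 ≤ L e) (s : V → ZMod 2)
    (f : (E → Bool) → ℝ) (hf : Monotone f) :
    Mid a b L s (fun _ ω => f ω) ≤ Mid a b L s (fun T _ => f T) := by
  unfold Mid
  refine Finset.sum_le_sum fun ν _ => mul_le_mul_of_nonneg_left ?_ (ind_nonneg _)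
  have h := sym_le (fun e t o => Wt (L e) (ν e) t o * (if o = true then (2 : ℝ) else 1))
    (fun e t o => mul_nonneg (Wt_nonneg (hL e) _ _ _) (by split_ifs <;> norm_num))
    (fun e => by
      have := Wt_symm (L e) (ν e)
      simp only [if_true]
      rw [this]
      simp)
    f _ hf (Nb_half_anti a b)
  have h1 : ∀ (T ω : E → Bool) (r : ℝ),
      (∏ e, (Wt (L e) (ν e) (T e) (ω e) * (if ω e = true then (2 : ℝ) else 1))) *
        ((Nb a b 0 ω * ∏ e, (if ω e = true then (1 / 2 : ℝ) else 1)) * r) =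
      (∏ e, Wt (L e) (ν e) (T e) (ω e)) * (Nb a b 0 ω * r) := by
    intro T ω r
    have h2 : (∏ e, (if ω e = true then (2 : ℝ) else 1)) *
        ∏ e, (if ω e = true then (1 / 2 : ℝ) else 1) = 1 := by
      rw [← Finset.prod_mul_distrib]
      refine Finset.prod_eq_one fun e _ => ?_
      split_ifs <;> norm_num
    rw [Finset.prod_mul_distrib]
    calc _ = (∏ e, Wt (L e) (ν e) (T e) (ω e)) * (Nb a b 0 ω * r) *
          ((∏ e, (if ω e = true then (2 : ℝ) else 1)) *
            ∏ e, (if ω e = true then (1 / 2 : ℝ) else 1)) := by ring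
      _ = _ := by rw [h2, mul_one]
  simp only [h1] at h
  exact h

theorem main_fin (a b : E → V) (L : E → ℝ) (hL : ∀ e, 0 ≤ L e) (s : V → ZMod 2) (x y : V) :
    Z a b (fun e => 3 * L e) (s + (dl x + dl y)) * Z a b L (dl x + dl y) ≤
      Zf a b (fun e => 3 * L e) s (fun T => ind (Cn a b T x y)) * Z a b L 0 := by
  have hf : Monotone fun T : E → Bool => ind (Cn a b T x y) :=
    fun T T' h => ind_mono (Cn_mono a b h)
  rw [← Mid_right]
  exact (Mid_le a b L hL s _ hf).trans (Mid_left a b L hL s _ hf)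

end Pool.Agent.H48.SC
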