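import Pool.Agent.H48.SC.PCyl
import Pool.Agent.H48.SC.MainA

/-! # The conditional lower bound in a finite box -/

set_option autoImplicit false

namespace Pool.Agent.H48.SC

open Pool.Agent.H90.SC

variable {d : ℕ}

private theorem FinCond_conn (G : Finset (Edg d)) (n : Edg d → ℕ) (x y : Vtx d) :
    CnG G n x y ↔ Cn (ea G) (eb G) (fun e => decide (0 < n e.1)) x y := by
  have h : (fun u v : Vtx d => ∃ e ∈ G, 0 < n e ∧ ((e.1 = u ∧ tip e = v) ∨ (e.1 = v ∧ tip e = u))) =
      fun u v => ∃ e : {e // e ∈ G}, decide (0 < n e.1) = true ∧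
        ((ea G e = u ∧ eb G e = v) ∨ (ea G e = v ∧ eb G e = u)) := by
    funext u v
    apply propext
    constructor
    · rintro ⟨e, he, h1, h2⟩
      exact ⟨⟨e, he⟩, decide_eq_true h1, h2⟩
    · rintro ⟨e, h1, h2⟩
      exact ⟨e.1, e.2, of_decide_eq_true h1, h2⟩
  unfold CnG Cn
  rw [h]

private theorem FinCond_Zf (G : Finset (Edg d)) {β : ℝ} (hβ : 0 ≤ β) (s : Vtx d → ZMod 2)
    (x y : Vtx d) :
    rt G (β / 3) (dl x + dl y) ^ 2 * ZE G β s ≤
      ZfE G β s fun T => ind (Cn (ea G) (eb G) T x y) := by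
  have hβ3 : 0 ≤ β / 3 := by linarith
  have h1 := main_fin (ea G) (eb G) (fun _ => β / 3) (fun _ => hβ3) s x y
  have e3 : (fun _ : {e // e ∈ G} => 3 * (β / 3)) = fun _ => β := by
    funext _
    ring
  rw [e3] at h1
  have h2 := gks (ea G) (eb G) (fun _ => β) (fun _ => hβ) s x y
  have h0 := ZE_pos G hβ
  have h03 := ZE_pos G hβ3
  have hm := rt_mono_beta G hβ3 (by linarith : β / 3 ≤ β) (dl x + dl y)
  have hn := rt_nonneg G hβ3 (dl x + dl y)
  have hZs : 0 ≤ ZE G β s := Z_nonneg _ _ _ (fun _ => hβ) s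
  -- with the ratios
  have r1 : ZE G β (dl x + dl y) = rt G β (dl x + dl y) * ZE G β 0 := by
    unfold rt
    rw [div_mul_cancel₀ _ h0.ne']
  have r2 : ZE G (β / 3) (dl x + dl y) = rt G (β / 3) (dl x + dl y) * ZE G (β / 3) 0 := by
    unfold rt
    rw [div_mul_cancel₀ _ h03.ne']
  change ZE G β s * ZE G β (dl x + dl y) ≤ ZE G β (s + (dl x + dl y)) * ZE G β 0 at h2
  change ZE G β (s + (dl x + dl y)) * ZE G (β / 3) (dl x + dl y) ≤
    (ZfE G β s fun T => ind (Cn (ea G) (eb G) T x y)) * ZE G (β / 3) 0 at h1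
  rw [r1, ← mul_assoc] at h2
  rw [r2, ← mul_assoc] at h1
  have h2' := le_of_mul_le_mul_right h2 h0
  have h1' := le_of_mul_le_mul_right h1 h03
  refine le_trans ?_ h1'
  calc rt G (β / 3) (dl x + dl y) ^ 2 * ZE G β s
      = (ZE G β s * rt G (β / 3) (dl x + dl y)) * rt G (β / 3) (dl x + dl y) := by ring
    _ ≤ (ZE G β s * rt G β (dl x + dl y)) * rt G (β / 3) (dl x + dl y) :=
        mul_le_mul_of_nonneg_right (mul_le_mul_of_nonneg_left hm hZs) hn
    _ ≤ ZE G β (s + (dl x + dl y)) * rt G (β / 3) (dl x + dl y) :=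
        mul_le_mul_of_nonneg_right h2' hn

/-- Lower bound for the connection probability outside `F`, conditionally on the values on `F`. -/
theorem Pcur_conn {E F : Finset (Edg d)} (hF : F ⊆ E) {β : ℝ} (hβ : 0 ≤ β) (k : Edg d → ℕ)
    (x y : Vtx d) :
    rt (E \ F) (β / 3) (dl x + dl y) ^ 2 * Pcur β E (cyl F k) ≤
      Pcur β E {n | n ∈ cyl F k ∧ CnG (E \ F) n x y} := by
  have hU : 0 < curSum β E Set.univ := by
    rw [curSum_univ]
    exact ZE_pos E hβ
  have e1 : curSum β E (cyl F k) =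
      (∏ e ∈ F, β ^ k e / (k e).factorial) * ZE (E \ F) β (bdF F k) := by
    have h := curSum_gen β E F hF k (fun _ => True)
    have hset : {n : Edg d → ℕ | n ∈ cyl F k ∧ True} = cyl F k := by
      ext n
      simp
    rw [hset] at h
    rw [h]
    congr 1
    have h1 : (fun _ : ({e // e ∈ E \ F} → Bool) => ind True) = fun _ => (1 : ℝ) := by
      funext _
      exact ind_true trivial
    rw [h1]
    exact Zf_one _ _ _ _
  have e2 : curSum β E {n | n ∈ cyl F k ∧ CnG (E \ F) n x y} =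
      (∏ e ∈ F, β ^ k e / (k e).factorial) *
        ZfE (E \ F) β (bdF F k) fun T => ind (Cn (ea (E \ F)) (eb (E \ F)) T x y) := by
    have h := curSum_gen β E F hF k (fun T => Cn (ea (E \ F)) (eb (E \ F)) T x y)
    rw [← h]
    congr 1
    ext n
    rw [Set.mem_ofPred_eq, Set.mem_ofPred_eq, FinCond_conn]
  have hc : 0 ≤ ∏ e ∈ F, β ^ k e / ((k e).factorial : ℝ) :=
    Finset.prod_nonneg fun e _ => by positivity
  unfold Pcur
  rw [← mul_div_assoc]
  apply div_le_div_of_nonneg_right _ hU.le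
  rw [e1, e2]
  calc rt (E \ F) (β / 3) (dl x + dl y) ^ 2 *
        ((∏ e ∈ F, β ^ k e / (k e).factorial) * ZE (E \ F) β (bdF F k))
      = (∏ e ∈ F, β ^ k e / (k e).factorial) *
        (rt (E \ F) (β / 3) (dl x + dl y) ^ 2 * ZE (E \ F) β (bdF F k)) := by ring
    _ ≤ _ := mul_le_mul_of_nonneg_left (FinCond_Zf (E \ F) hβ (bdF F k) x y) hc

end Pool.Agent.H48.SC
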