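import Pool.Agent.H48.SC.Lat

/-! # An event with conditional probabilities bounded below has probability one -/

set_option autoImplicit false

namespace Pool.Agent.H48.SC

open Pool.Agent.H90.SC MeasureTheory Filter Topology

variable {d : ℕ}

private def fib (s : Finset (Edg d)) (g : s → ℕ) : Set (Edg d → ℕ) :=
  (s.restrict (π := fun _ => ℕ)) ⁻¹' {g}

private theorem mem_fib {s : Finset (Edg d)} {g : s → ℕ} {n : Edg d → ℕ} :
    n ∈ fib s g ↔ s.restrict n = g := Iff.rfl

private theorem full_fiber (s : Finset (Edg d)) (g : s → ℕ) :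
    fib s g = cyl s (fun e => if h : e ∈ s then g ⟨e, h⟩ else 0) := by
  ext n
  rw [mem_fib]
  show _ ↔ ∀ e ∈ s, n e = _
  constructor
  · rintro rfl e he
    rw [dif_pos he]
    rfl
  · intro h
    funext e
    have := h e.1 e.2
    rw [dif_pos e.2] at this
    exact this

private theorem full_cylinder (μ : Measure (Edg d → ℕ)) [IsProbabilityMeasure μ]
    (I : Set (Edg d → ℕ)) (hI : MeasurableSet I) (c : ℝ)
    (h : ∀ (F : Finset (Edg d)) (k : Edg d → ℕ), c * μ.real (cyl F k) ≤ μ.real (cyl F k ∩ I))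
    (s : Finset (Edg d)) (S : Set (s → ℕ)) :
    ENNReal.ofReal c * μ (cylinder s S) ≤ μ (cylinder s S ∩ I) := by
  have hm : ∀ g : S, MeasurableSet (fib s g.1) := fun g =>
    (Finset.measurable_restrict s) (measurableSet_singleton _)
  have hd : Pairwise (Function.onFun Disjoint fun g : S => fib s g.1) := by
    intro g g' hne
    refine Set.disjoint_left.2 fun n hn hn' => hne ?_
    rw [mem_fib] at hn hn'
    exact Subtype.ext (hn.symm.trans hn')
  have h1 : (cylinder s S : Set (Edg d → ℕ)) = ⋃ g : S, fib s g.1 := by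
    ext n
    simp only [Set.mem_iUnion, mem_fib, mem_cylinder]
    exact ⟨fun h5 => ⟨⟨_, h5⟩, rfl⟩, fun ⟨g, h5⟩ => h5 ▸ g.2⟩
  have h2 : (cylinder s S ∩ I : Set (Edg d → ℕ)) = ⋃ g : S, (fib s g.1 ∩ I) := by
    rw [h1, Set.iUnion_inter]
  rw [h2, h1, measure_iUnion hd hm, measure_iUnion
    (fun g g' hne => (hd hne).mono Set.inter_subset_left Set.inter_subset_left)
    (fun g => (hm g).inter hI), ← ENNReal.tsum_mul_left]
  refine ENNReal.tsum_le_tsum fun g => ?_
  rw [full_fiber]
  have h3 := h s (fun e => if h : e ∈ s then g.1 ⟨e, h⟩ else 0)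
  have h4 := ENNReal.ofReal_le_ofReal h3
  rw [ENNReal.ofReal_mul' measureReal_nonneg, ofReal_measureReal, ofReal_measureReal] at h4
  exact h4

/-- If all cylinder sets `A` satisfy `c μ(A) ≤ μ(A ∩ I)` with a constant `c > 0` then `μ(Iᶜ) = 0`. -/
theorem full_of_cyl (μ : Measure (Edg d → ℕ)) [IsProbabilityMeasure μ] (I : Set (Edg d → ℕ))
    (hI : MeasurableSet I) (c : ℝ) (hc : 0 < c)
    (h : ∀ (F : Finset (Edg d)) (k : Edg d → ℕ), c * μ.real (cyl F k) ≤ μ.real (cyl F k ∩ I)) :
    μ Iᶜ = 0 := by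
  have hdense : μ.MeasureDense (measurableCylinders fun _ : Edg d => ℕ) :=
    Measure.MeasureDense.of_generateFrom_isSetAlgebra_finite μ isSetAlgebra_measurableCylinders
      generateFrom_measurableCylinders.symm
  have key : ∀ ε : ℝ, 0 < ε → c * μ.real Iᶜ ≤ (1 + c) * ε := by
    intro ε hε
    obtain ⟨t, ht, hlt⟩ := hdense.approx Iᶜ hI.compl (measure_ne_top _ _) ε hε
    obtain ⟨s, S, hS, rfl⟩ := (mem_measurableCylinders t).1 ht
    have h1 := full_cylinder μ I hI c h s S
    have h2 : c * μ.real (cylinder s S) ≤ μ.real (cylinder s S ∩ I) := by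
      have := ENNReal.toReal_mono (measure_ne_top _ _) h1
      rw [ENNReal.toReal_mul, ENNReal.toReal_ofReal hc.le] at this
      exact this
    have h3 : μ.real (symmDiff Iᶜ (cylinder s S)) ≤ ε := by
      have := ENNReal.toReal_mono ENNReal.ofReal_ne_top hlt.le
      rw [ENNReal.toReal_ofReal hε.le] at this
      exact this
    have h4 : μ.real (cylinder s S ∩ I) ≤ ε := by
      refine (measureReal_mono ?_).trans h3
      intro n hn
      exact Or.inr ⟨hn.1, fun h5 => h5 hn.2⟩
    have h5 : μ.real Iᶜ ≤ μ.real (cylinder s S) + ε := by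
      have h6 : (Iᶜ : Set (Edg d → ℕ)) ⊆ cylinder s S ∪ symmDiff Iᶜ (cylinder s S) := by
        intro n hn
        by_cases h7 : n ∈ (cylinder s S : Set (Edg d → ℕ))
        · exact Or.inl h7
        · exact Or.inr (Or.inl ⟨hn, h7⟩)
      exact ((measureReal_mono h6).trans (measureReal_union_le _ _)).trans (by linarith)
    nlinarith [mul_le_mul_of_nonneg_left h5 hc.le]
  have h0 : c * μ.real Iᶜ ≤ 0 := by
    refine le_of_forall_pos_le_add fun δ hδ => ?_
    have := key (δ / (1 + c)) (by positivity)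
    rw [mul_div_cancel₀ _ (by positivity)] at this
    linarith
  have h1 : μ.real Iᶜ = 0 := by
    have h2 : 0 ≤ μ.real Iᶜ := measureReal_nonneg
    nlinarith
  rwa [measureReal_eq_zero_iff] at h1

end Pool.Agent.H48.SC
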