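import Pool.Agent.H48.SC.Geo

/-! # Infinite components -/

set_option autoImplicit false

namespace Pool.Agent.H48.SC

open Pool.Agent.H90.SC

variable {d : ℕ}

private theorem reach_of_CnG {G : Finset (Edg d)} {n : Edg d → ℕ} {x y : Vtx d}
    (h : CnG G n x y) : (graphOf {e | 0 < n e}).Reachable x y := by
  induction h with
  | refl => exact SimpleGraph.Reachable.refl x
  | @tail b c _ hbc ih =>
    by_cases hne : b = c
    · rw [← hne]; exact ih
    · refine ih.trans (SimpleGraph.Adj.reachable ?_)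
      obtain ⟨e, _, hpos, hor⟩ := hbc
      unfold graphOf
      rw [SimpleGraph.fromRel_adj]
      refine ⟨hne, ?_⟩
      rcases hor with ⟨h1, h2⟩ | ⟨h1, h2⟩
      · exact Or.inl ⟨e, hpos, h1.symm, h2.symm⟩
      · exact Or.inr ⟨e, hpos, h1.symm, h2.symm⟩

theorem hasInfinite_of_DR {n : Edg d → ℕ} {x : Vtx d} (h : ∀ R, n ∈ DR x R) :
    HasInfinite {e | 0 < n e} := by
  refine ⟨x, ?_⟩
  intro hfin
  obtain ⟨R, hR⟩ : ∃ R : ℕ, ∀ w ∈ {w | (graphOf {e | 0 < n e}).Reachable x w},
      w - x ∈ box d R := by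
    set T := hfin.toFinset with hT
    refine ⟨T.sup (fun w => Finset.univ.sup fun i => (w i - x i).natAbs), ?_⟩
    intro w hw
    have hwT : w ∈ T := by rw [hT, Set.Finite.mem_toFinset]; exact hw
    have h1 := Finset.le_sup (f := fun w : Vtx d => Finset.univ.sup fun i => (w i - x i).natAbs) hwT
    unfold box
    rw [Fintype.mem_piFinset]
    intro i
    have h2 := Finset.le_sup (f := fun i => (w i - x i).natAbs) (Finset.mem_univ i)
    have h3 := le_trans h2 h1
    rw [Finset.mem_Icc, Pi.sub_apply]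
    have h4 : ((w i - x i).natAbs : ℤ) = |w i - x i| := Int.natCast_natAbs _
    have h5 : |w i - x i| ≤ ((T.sup (fun w => Finset.univ.sup fun i => (w i - x i).natAbs) : ℕ) : ℤ) := by
      rw [← h4]; exact_mod_cast h3
    exact abs_le.mp h5
  obtain ⟨v, hv, hc⟩ := h R
  exact hv (hR v (reach_of_CnG hc))

end Pool.Agent.H48.SC
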