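import Pool.Agent.H48.SC.PCyl

/-! # Convergence of the probabilities of local events -/

set_option autoImplicit false

namespace Pool.Agent.H48.SC

open Pool.Agent.H90.SC MeasureTheory Filter Topology

variable {d : ℕ}

private theorem LimLoc_w_nonneg {β : ℝ} (hβ : 0 ≤ β) (E : Finset (Edg d)) (m : E → ℕ) :
    0 ≤ ∏ e, β ^ m e / ((m e).factorial : ℝ) :=
  Finset.prod_nonneg fun e _ => div_nonneg (pow_nonneg hβ _) (Nat.cast_nonneg _)

private theorem LimLoc_w_summable (β : ℝ) (E : Finset (Edg d)) :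
    Summable fun m : E → ℕ => ∏ e, β ^ m e / ((m e).factorial : ℝ) := by
  have h := (cur_law (E := E) (fun _ => β) (fun _ _ => 1)).summable
  simpa using h

open Classical in
private theorem LimLoc_summable {β : ℝ} (hβ : 0 ≤ β) (E : Finset (Edg d)) (A : Set (Edg d → ℕ)) :
    Summable fun m : E → ℕ => if Sourceless E m ∧ ext0 E m ∈ A then
      ∏ e, β ^ m e / ((m e).factorial : ℝ) else 0 := by
  refine Summable.of_nonneg_of_le (fun m => ?_) (fun m => ?_) (LimLoc_w_summable β E)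
  · split_ifs
    · exact LimLoc_w_nonneg hβ E m
    · exact le_rfl
  · split_ifs
    · exact le_rfl
    · exact LimLoc_w_nonneg hβ E m

private theorem LimLoc_den {β : ℝ} (hβ : 0 ≤ β) (E : Finset (Edg d)) :
    0 < curSum β E Set.univ := by
  rw [curSum_univ]
  exact ZE_pos E hβ

/-- `Pcur` is monotone in the event. -/
theorem Pcur_mono {β : ℝ} (hβ : 0 ≤ β) (E : Finset (Edg d)) {A B : Set (Edg d → ℕ)}
    (h : A ⊆ B) : Pcur β E A ≤ Pcur β E B := by
  classical
  unfold Pcur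
  refine div_le_div_of_nonneg_right ?_ (LimLoc_den hβ E).le
  unfold curSum
  refine Summable.tsum_le_tsum (fun m => ?_) (LimLoc_summable hβ E A) (LimLoc_summable hβ E B)
  by_cases h1 : Sourceless E m ∧ ext0 E m ∈ A
  · rw [if_pos h1, if_pos ⟨h1.1, h h1.2⟩]
  · rw [if_neg h1]
    split_ifs
    · exact LimLoc_w_nonneg hβ E m
    · exact le_rfl

private theorem LimLoc_cyl_meas (F : Finset (Edg d)) (k : Edg d → ℕ) :
    MeasurableSet (cyl F k) := by
  have h : cyl F k = ⋂ e ∈ F, {n : Edg d → ℕ | n e = k e} := by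
    ext n
    simp [cyl]
  rw [h]
  refine Finset.measurableSet_biInter F fun e _ => ?_
  exact measurableSet_eq_fun (measurable_pi_apply e) measurable_const

private theorem LimLoc_disj (F : Finset (Edg d)) {k k' : F → ℕ} (h : k ≠ k') :
    Disjoint (cyl F (ext0 F k)) (cyl F (ext0 F k')) := by
  rw [Set.disjoint_left]
  intro n hn hn'
  apply h
  funext e
  have h1 := hn e.1 e.2
  have h2 := hn' e.1 e.2
  rw [h1] at h2
  simpa [ext0] using h2

private theorem LimLoc_union (F : Finset (Edg d)) {A : Set (Edg d → ℕ)} (hA : Loc F A) :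
    A = ⋃ k : {k : F → ℕ // ext0 F k ∈ A}, cyl F (ext0 F k.1) := by
  ext n
  have h1 : ∀ e ∈ F, ext0 F (fun e : F => n e.1) e = n e := by
    intro e he
    simp [ext0, he]
  constructor
  · intro hn
    refine Set.mem_iUnion.2 ⟨⟨fun e : F => n e.1, hA n _ (fun e he => (h1 e he).symm) hn⟩, ?_⟩
    intro e he
    exact (h1 e he).symm
  · intro hn
    obtain ⟨k, hk⟩ := Set.mem_iUnion.1 hn
    exact hA _ _ (fun e he => (hk e he).symm) k.2

theorem Loc.measurable {F : Finset (Edg d)} {A : Set (Edg d → ℕ)} (hA : Loc F A) :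
    MeasurableSet A := by
  rw [LimLoc_union F hA]
  exact MeasurableSet.iUnion fun k => LimLoc_cyl_meas F _

private theorem LimLoc_compl {F : Finset (Edg d)} {A : Set (Edg d → ℕ)} (hA : Loc F A) :
    Loc F Aᶜ := fun n n' h hn hn' => hn (hA n' n (fun e he => (h e he).symm) hn')

private theorem LimLoc_P_compl {β : ℝ} (hβ : 0 ≤ β) (E : Finset (Edg d)) (A : Set (Edg d → ℕ)) :
    Pcur β E A + Pcur β E Aᶜ = 1 := by
  classical
  unfold Pcur
  rw [← add_div, div_eq_one_iff_eq (LimLoc_den hβ E).ne']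
  unfold curSum
  rw [← (LimLoc_summable hβ E A).tsum_add (LimLoc_summable hβ E Aᶜ)]
  apply tsum_congr
  intro m
  by_cases h1 : Sourceless E m
  · by_cases h2 : ext0 E m ∈ A
    · rw [if_pos ⟨h1, h2⟩, if_neg (fun h => h.2 h2), if_pos ⟨h1, trivial⟩, add_zero]
    · rw [if_neg (fun h => h2 h.2), if_pos ⟨h1, h2⟩, if_pos ⟨h1, trivial⟩, zero_add]
  · rw [if_neg (fun h => h1 h.1), if_neg (fun h => h1 h.1), if_neg (fun h => h1 h.1), add_zero]

private theorem LimLoc_P_sum {β : ℝ} (hβ : 0 ≤ β) (E : Finset (Edg d)) {ι : Type*} (T : Finset ι)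
    (C : ι → Set (Edg d → ℕ)) (hd : ∀ i ∈ T, ∀ j ∈ T, i ≠ j → Disjoint (C i) (C j))
    (A : Set (Edg d → ℕ)) (hC : ∀ i ∈ T, C i ⊆ A) :
    ∑ i ∈ T, Pcur β E (C i) ≤ Pcur β E A := by
  classical
  unfold Pcur
  rw [← Finset.sum_div]
  refine div_le_div_of_nonneg_right ?_ (LimLoc_den hβ E).le
  unfold curSum
  rw [← Summable.tsum_finsetSum (fun i _ => LimLoc_summable hβ E (C i))]
  refine Summable.tsum_le_tsum (fun m => ?_)
    (summable_sum fun i _ => LimLoc_summable hβ E (C i)) (LimLoc_summable hβ E A)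
  by_cases h1 : ∃ i ∈ T, Sourceless E m ∧ ext0 E m ∈ C i
  · obtain ⟨i, hi, h2, h3⟩ := h1
    rw [Finset.sum_eq_single_of_mem i hi, if_pos ⟨h2, h3⟩, if_pos ⟨h2, hC i hi h3⟩]
    intro j hj hji
    rw [if_neg]
    rintro ⟨_, h4⟩
    exact Set.disjoint_left.mp (hd i hi j hj (Ne.symm hji)) h3 h4
  · rw [Finset.sum_eq_zero]
    · split_ifs
      · exact LimLoc_w_nonneg hβ E m
      · exact le_rfl
    · intro i hi
      rw [if_neg]
      intro h2
      exact h1 ⟨i, hi, h2⟩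

private theorem LimLoc_cyl_lim {β : ℝ} (hβ : 0 ≤ β) {μ : Measure (Edg d → ℕ)}
    (hμ : IsLimit d β μ) (F : Finset (Edg d)) (k : Edg d → ℕ) :
    Tendsto (fun N => Pcur β (boxE d N) (cyl F k)) atTop (𝓝 (μ.real (cyl F k))) := by
  obtain ⟨φ, hφ, hlim⟩ := hμ
  have h1 := Lc_tendsto F hβ k
  have h2 : Tendsto (fun j => Pcur β (boxE d (φ j)) (cyl F k)) atTop (𝓝 (Lc F β k)) :=
    h1.comp hφ.tendsto_atTop
  have h3 : Tendsto (fun j => Pcur β (boxE d (φ j)) (cyl F k)) atTop (𝓝 (μ.real (cyl F k))) :=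
    hlim F k
  rw [tendsto_nhds_unique h3 h2]
  exact h1

private theorem LimLoc_lower {β : ℝ} (hβ : 0 ≤ β) {μ : Measure (Edg d → ℕ)}
    [IsProbabilityMeasure μ] (hμ : IsLimit d β μ) {F : Finset (Edg d)} {A : Set (Edg d → ℕ)}
    (hA : Loc F A) (ε : ℝ) (hε : 0 < ε) :
    ∀ᶠ N in atTop, μ.real A - ε < Pcur β (boxE d N) A := by
  classical
  -- a finite number of cylinders
  have h1 : HasSum (fun k : {k : F → ℕ // ext0 F k ∈ A} => μ (cyl F (ext0 F k.1))) (μ A) := by
    have h2 : μ A = ∑' k : {k : F → ℕ // ext0 F k ∈ A}, μ (cyl F (ext0 F k.1)) := by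
      conv_lhs => rw [LimLoc_union F hA]
      refine measure_iUnion (fun k k' hkk => ?_) (fun k => LimLoc_cyl_meas F _)
      exact LimLoc_disj F (fun h => hkk (Subtype.ext h))
    rw [h2]
    exact ENNReal.summable.hasSum
  have h3 : Tendsto (fun T : Finset {k : F → ℕ // ext0 F k ∈ A} =>
      (∑ k ∈ T, μ (cyl F (ext0 F k.1))).toReal) atTop (𝓝 (μ A).toReal) :=
    (ENNReal.tendsto_toReal (measure_ne_top _ _)).comp h1
  have h4 : ∀ T : Finset {k : F → ℕ // ext0 F k ∈ A},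
      (∑ k ∈ T, μ (cyl F (ext0 F k.1))).toReal = ∑ k ∈ T, μ.real (cyl F (ext0 F k.1)) := by
    intro T
    exact ENNReal.toReal_sum (fun k _ => measure_ne_top _ _)
  have h5 : ∀ᶠ T : Finset {k : F → ℕ // ext0 F k ∈ A} in atTop,
      μ.real A - ε / 2 < (∑ k ∈ T, μ (cyl F (ext0 F k.1))).toReal :=
    h3.eventually_const_lt (by unfold Measure.real; linarith)
  obtain ⟨T, hT⟩ := h5.exists
  rw [h4] at hT
  have h6 : Tendsto (fun N => ∑ k ∈ T, Pcur β (boxE d N) (cyl F (ext0 F k.1))) atTop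
      (𝓝 (∑ k ∈ T, μ.real (cyl F (ext0 F k.1)))) :=
    tendsto_finsetSum T fun k _ => LimLoc_cyl_lim hβ hμ F _
  have h7 : ∀ᶠ N in atTop, μ.real A - ε <
      ∑ k ∈ T, Pcur β (boxE d N) (cyl F (ext0 F k.1)) :=
    h6.eventually_const_lt (by linarith)
  filter_upwards [h7] with N hN
  refine hN.trans_le (LimLoc_P_sum hβ _ T (fun k => cyl F (ext0 F k.1)) ?_ A ?_)
  · intro k _ k' _ hkk
    exact LimLoc_disj F (fun h => hkk (Subtype.ext h))
  · intro k _ n hn
    exact hA _ _ (fun e he => (hn e he).symm) k.2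

/-- Convergence of the probabilities of local events, along all boxes. -/
theorem lim_local {β : ℝ} (hβ : 0 ≤ β) {μ : Measure (Edg d → ℕ)} [IsProbabilityMeasure μ]
    (hμ : IsLimit d β μ) {F : Finset (Edg d)} {A : Set (Edg d → ℕ)} (hA : Loc F A) :
    Tendsto (fun N => Pcur β (boxE d N) A) atTop (𝓝 (μ.real A)) := by
  rw [Metric.tendsto_atTop']
  intro ε hε
  have h1 := LimLoc_lower hβ hμ hA ε hε
  have h2 := LimLoc_lower hβ hμ (LimLoc_compl hA) ε hε
  have h3 : μ.real Aᶜ = 1 - μ.real A := probReal_compl_eq_one_sub hA.measurable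
  obtain ⟨N0, hN0⟩ := eventually_atTop.mp (h1.and h2)
  refine ⟨N0, fun N hN => ?_⟩
  obtain ⟨h4, h5⟩ := hN0 N hN.le
  have h6 := LimLoc_P_compl hβ (boxE d N) A
  rw [Real.dist_eq, abs_lt]
  constructor <;> linarith

end Pool.Agent.H48.SC
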