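import Pool.Agent.H48.SC.MuA
import Pool.Agent.H48.SC.LimLoc
import Pool.Agent.H48.SC.FinCond
import Pool.Agent.H48.SC.GeoInf
import Pool.Agent.H48.SC.Full

/-! # The almost sure existence of an infinite component -/

set_option autoImplicit false

namespace Pool.Agent.H48.SC

open Pool.Agent.H90.SC MeasureTheory Filter Topology

variable {d : ℕ}

private theorem CylInf_nonneg {β : ℝ} (hβ : 0 ≤ β) (E : Finset (Edg d)) (A : Set (Edg d → ℕ)) :
    0 ≤ Pcur β E A := by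
  have h := Pcur_mono hβ E (Set.empty_subset A)
  have h0 : Pcur β E (∅ : Set (Edg d → ℕ)) = 0 := by
    unfold Pcur curSum
    simp
  rwa [h0] at h

private theorem CylInf_sv (x v : Vtx d) : sv x (dl (0 : Vtx d) + dl v) = dl x + dl (x + v) := by
  funext w
  unfold sv dl
  simp only [Pi.add_apply]
  have h1 : (0 = w - x) ↔ (x = w) := by
    constructor
    · intro h
      exact (sub_eq_zero.mp h.symm).symm
    · intro h
      rw [h, sub_self]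
  have h2 : (v = w - x) ↔ (x + v = w) := by
    rw [eq_sub_iff_add_eq, add_comm]
  simp only [h1, h2]

theorem cyl_DR (hd : 1 ≤ d) {β : ℝ} (hβ : 0 ≤ β) {μ : Measure (Edg d → ℕ)} [IsProbabilityMeasure μ]
    (hμ : IsLimit d β μ) {c : ℝ} (hc : 0 < c)
    (hl : ∀ x y : Vtx d, ∃ N0, ∀ N ≥ N0, c ≤ rt (boxE d N) (β / 3) (dl x + dl y))
    (F : Finset (Edg d)) (k : Edg d → ℕ) (R : ℕ) :
    ∃ x : Vtx d, c ^ 2 * μ.real (cyl F k) ≤ μ.real (cyl F k ∩ DR x R) := by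
  obtain ⟨v, hv⟩ := exists_notMem_box hd R
  obtain ⟨N1, hN1⟩ := hl 0 v
  obtain ⟨x, hx⟩ := exists_far hd F (boxE d N1)
  refine ⟨x, ?_⟩
  obtain ⟨N2, hN2⟩ := exists_box (F ∪ sE x (boxE d N1))
  have h3 : 0 ≤ β / 3 := by positivity
  have hev : ∀ᶠ N in atTop, c ^ 2 * Pcur β (boxE d N) (cyl F k) ≤
      Pcur β (boxE d N) (cyl F k ∩ DR x R) := by
    filter_upwards [eventually_ge_atTop N2] with N hN
    have hsub : F ∪ sE x (boxE d N1) ⊆ boxE d N := hN2.trans (boxE_mono hN)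
    have hFN : F ⊆ boxE d N := Finset.subset_union_left.trans hsub
    have hGN : sE x (boxE d N1) ⊆ boxE d N \ F := by
      intro e he
      rw [Finset.mem_sdiff]
      exact ⟨hsub (Finset.mem_union_right _ he), fun hF => Finset.disjoint_left.mp hx he hF⟩
    have hr : c ≤ rt (boxE d N \ F) (β / 3) (dl x + dl (x + v)) := by
      calc c ≤ rt (boxE d N1) (β / 3) (dl 0 + dl v) := hN1 N1 le_rfl
        _ = rt (sE x (boxE d N1)) (β / 3) (sv x (dl 0 + dl v)) := (rt_shift _ _ _ _).symm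
        _ = rt (sE x (boxE d N1)) (β / 3) (dl x + dl (x + v)) := by rw [CylInf_sv]
        _ ≤ _ := rt_mono hGN h3 _
    have hc2 : c ^ 2 ≤ rt (boxE d N \ F) (β / 3) (dl x + dl (x + v)) ^ 2 :=
      pow_le_pow_left₀ hc.le hr 2
    have h4 := Pcur_conn hFN hβ k x (x + v)
    have h5 : Pcur β (boxE d N) {n | n ∈ cyl F k ∧ CnG (boxE d N \ F) n x (x + v)} ≤
        Pcur β (boxE d N) (cyl F k ∩ DR x R) := by
      apply Pcur_mono hβ
      rintro n ⟨hn1, hn2⟩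
      refine ⟨hn1, mem_DR_of_CnG hn2 ?_⟩
      rwa [add_sub_cancel_left]
    exact (mul_le_mul_of_nonneg_right hc2 (CylInf_nonneg hβ _ _)).trans (h4.trans h5)
  exact le_of_tendsto_of_tendsto ((lim_local hβ hμ (Loc_cyl F k)).const_mul (c ^ 2))
    (lim_local hβ hμ (Loc_inter (Loc_cyl F k) (Loc_DR x R))) hev

private theorem CylInf_meas_DR (x : Vtx d) (R : ℕ) : MeasurableSet (DR (d := d) x R) :=
  (Loc_DR x R).measurable

private theorem CylInf_meas_I (x : Vtx d) : MeasurableSet (⋂ R : ℕ, DR (d := d) x R) :=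
  MeasurableSet.iInter fun R => CylInf_meas_DR x R

private theorem CylInf_shiftI (x : Vtx d) :
    sn x ⁻¹' (⋂ R : ℕ, DR (d := d) 0 R) = ⋂ R : ℕ, DR (d := d) x R := by
  rw [Set.preimage_iInter]
  congr 1
  funext R
  exact DR_shift x R

private theorem CylInf_map {β : ℝ} (hβ : 0 ≤ β) {μ : Measure (Edg d → ℕ)} [IsProbabilityMeasure μ]
    (hμ : IsLimit d β μ) (x : Vtx d) {A : Set (Edg d → ℕ)} (hA : MeasurableSet A) :
    μ.real (sn x ⁻¹' A) = μ.real A := by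
  have h : μ.map (sn x) A = μ (sn x ⁻¹' A) := Measure.map_apply (measurable_sn x) hA
  rw [mu_shift hβ hμ x] at h
  unfold Measure.real
  rw [h]

theorem cyl_inf (hd : 1 ≤ d) {β : ℝ} (hβ : 0 ≤ β) {μ : Measure (Edg d → ℕ)} [IsProbabilityMeasure μ]
    (hμ : IsLimit d β μ) {c : ℝ} (hc : 0 < c)
    (hl : ∀ x y : Vtx d, ∃ N0, ∀ N ≥ N0, c ≤ rt (boxE d N) (β / 3) (dl x + dl y))
    (F : Finset (Edg d)) (k : Edg d → ℕ) :
    c ^ 2 * μ.real (cyl F k) ≤ μ.real (cyl F k ∩ ⋃ x : Vtx d, ⋂ R : ℕ, DR x R) := by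
  have hstep : ∀ R : ℕ, c ^ 2 * μ.real (cyl F k) ≤
      μ.real (cyl F k ∩ ⋃ x : Vtx d, ⋂ R : ℕ, DR x R) +
        (μ.real (DR (d := d) 0 R) - μ.real (⋂ R : ℕ, DR (d := d) 0 R)) := by
    intro R
    obtain ⟨x, hx⟩ := cyl_DR hd hβ hμ hc hl F k R
    refine hx.trans ?_
    have h1 : cyl F k ∩ DR x R ⊆ (cyl F k ∩ ⋃ x : Vtx d, ⋂ R : ℕ, DR x R) ∪
        (DR x R \ ⋂ R : ℕ, DR x R) := by
      rintro n ⟨hn1, hn2⟩
      by_cases hn : n ∈ ⋂ R : ℕ, DR x R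
      · exact Or.inl ⟨hn1, Set.mem_iUnion.mpr ⟨x, hn⟩⟩
      · exact Or.inr ⟨hn2, hn⟩
    have h2 : μ.real (DR x R \ ⋂ R : ℕ, DR x R) =
        μ.real (DR (d := d) 0 R) - μ.real (⋂ R : ℕ, DR (d := d) 0 R) := by
      rw [measureReal_diff (Set.iInter_subset _ R) (CylInf_meas_I x)]
      rw [← DR_shift x R, CylInf_map hβ hμ x (CylInf_meas_DR 0 R), ← CylInf_shiftI x,
        CylInf_map hβ hμ x (CylInf_meas_I 0)]
    calc μ.real (cyl F k ∩ DR x R) ≤ μ.real ((cyl F k ∩ ⋃ x : Vtx d, ⋂ R : ℕ, DR x R) ∪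
        (DR x R \ ⋂ R : ℕ, DR x R)) := measureReal_mono h1
      _ ≤ _ := measureReal_union_le _ _
      _ = _ := by rw [h2]
  have hlim : Tendsto (fun R : ℕ => μ.real (cyl F k ∩ ⋃ x : Vtx d, ⋂ R : ℕ, DR x R) +
        (μ.real (DR (d := d) 0 R) - μ.real (⋂ R : ℕ, DR (d := d) 0 R))) atTop
      (𝓝 (μ.real (cyl F k ∩ ⋃ x : Vtx d, ⋂ R : ℕ, DR x R) +
        (μ.real (⋂ R : ℕ, DR (d := d) 0 R) - μ.real (⋂ R : ℕ, DR (d := d) 0 R)))) := by
    refine Tendsto.const_add _ (Tendsto.sub_const ?_ _)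
    have h1 : Tendsto (fun R : ℕ => μ (DR (d := d) 0 R)) atTop
        (𝓝 (μ (⋂ R : ℕ, DR (d := d) 0 R))) :=
      tendsto_measure_iInter_atTop (fun R => (CylInf_meas_DR 0 R).nullMeasurableSet)
        (fun R R' h => DR_anti 0 h) ⟨0, measure_ne_top _ _⟩
    exact (ENNReal.tendsto_toReal (measure_ne_top _ _)).comp h1
  rw [sub_self, add_zero] at hlim
  exact ge_of_tendsto' hlim hstep

/-- Long range order in the free state. -/
def LRO (d : ℕ) (b : ℝ) : Prop :=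
  ∃ c > 0, ∀ x y : Vtx d, ∃ N0, ∀ N ≥ N0, c ≤ rt (boxE d N) b (dl x + dl y)

theorem as_inf (hd : 1 ≤ d) {β : ℝ} (hβ : 0 ≤ β) {μ : Measure (Edg d → ℕ)}
    [IsProbabilityMeasure μ] (hμ : IsLimit d β μ) (hl : LRO d (β / 3)) :
    ∀ᵐ n ∂μ, HasInfinite {e | 0 < n e} := by
  obtain ⟨c, hc, hl⟩ := hl
  have hI : MeasurableSet (⋃ x : Vtx d, ⋂ R : ℕ, DR (d := d) x R) :=
    MeasurableSet.iUnion fun x => CylInf_meas_I x
  have h0 := full_of_cyl μ (⋃ x : Vtx d, ⋂ R : ℕ, DR (d := d) x R) hI (c ^ 2) (by positivity)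
    (fun F k => cyl_inf hd hβ hμ hc hl F k)
  have h1 : ∀ᵐ n ∂μ, n ∈ ⋃ x : Vtx d, ⋂ R : ℕ, DR (d := d) x R := h0
  filter_upwards [h1] with n hn
  obtain ⟨x, hx⟩ := Set.mem_iUnion.mp hn
  exact hasInfinite_of_DR (fun R => Set.mem_iInter.mp hx R)

end Pool.Agent.H48.SC
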