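import Mathlib

/-!
# Single random currents on a finite graph: definitions

`E` is the finite type of edges, the edge `e` joins `a e` and `b e`.
-/

set_option autoImplicit false

namespace Pool.Agent.H48.SC

open Classical in
/-- The indicator of a proposition. -/
noncomputable def ind (p : Prop) : ℝ := if p then 1 else 0

theorem ind_true {p : Prop} (h : p) : ind p = 1 := by simp [ind, h]
theorem ind_false {p : Prop} (h : ¬p) : ind p = 0 := by simp [ind, h]
theorem ind_nonneg (p : Prop) : 0 ≤ ind p := by unfold ind; split_ifs <;> norm_num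
theorem ind_le_one (p : Prop) : ind p ≤ 1 := by unfold ind; split_ifs <;> norm_num
theorem ind_mono {p q : Prop} (h : p → q) : ind p ≤ ind q := by
  by_cases hp : p
  · rw [ind_true hp, ind_true (h hp)]
  · rw [ind_false hp]; exact ind_nonneg q

section
variable {E V : Type*} [Fintype E] [DecidableEq V]

/-- The boundary of `ν`, a function on the vertices. -/
def bd (a b : E → V) (ν : E → ZMod 2) : V → ZMod 2 := fun v =>
  ∑ e, ν e * ((if a e = v then 1 else 0) + (if b e = v then 1 else 0))

theorem bd_add (a b : E → V) (ν μ : E → ZMod 2) : bd a b (ν + μ) = bd a b ν + bd a b μ := by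
  funext v
  simp only [bd, Pi.add_apply, add_mul, Finset.sum_add_distrib]

theorem bd_zero (a b : E → V) : bd a b 0 = 0 := by
  funext v
  simp [bd]

theorem bd_update [DecidableEq E] (a b : E → V) (ν : E → ZMod 2) (e : E) (t : ZMod 2) :
    bd a b (Function.update ν e t) = bd a b ν + fun v =>
      (t - ν e) * ((if a e = v then 1 else 0) + (if b e = v then 1 else 0)) := by
  have h : Function.update ν e t = ν + Pi.single e (t - ν e) := by
    funext f
    by_cases hf : f = e
    · subst hf; simp
    · simp [hf]
  rw [h, bd_add]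
  congr 1
  funext v
  unfold bd
  rw [Finset.sum_eq_single e]
  · simp
  · intro f _ hf
    simp [hf]
  · simp

end

/-- `x` and `y` are joined by a path of edges of `ω`. -/
def Cn {E V : Type*} (a b : E → V) (ω : E → Bool) : V → V → Prop :=
  Relation.ReflTransGen fun u v => ∃ e, ω e = true ∧ ((a e = u ∧ b e = v) ∨ (a e = v ∧ b e = u))

theorem Cn_mono {E V : Type*} (a b : E → V) {ω ω' : E → Bool} (h : ω ≤ ω') {x y : V}
    (hc : Cn a b ω x y) : Cn a b ω' x y := by
  refine Relation.ReflTransGen.mono ?_ _ _ hc
  rintro u v ⟨e, he, h1⟩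
  refine ⟨e, ?_, h1⟩
  have := h e
  rw [he] at this
  exact Bool.eq_true_of_true_le this

/-- The point mass at `x`. -/
def dl {V : Type*} [DecidableEq V] (x : V) : V → ZMod 2 := fun v => if x = v then 1 else 0

/-- The edges of `μ` lie in `ω`. -/
def Le {E : Type*} (μ : E → ZMod 2) (ω : E → Bool) : Prop := ∀ e, μ e ≠ 0 → ω e = true

section
variable {E V : Type*} [Fintype E] [DecidableEq E] [DecidableEq V]

/-- The number of `μ` inside `ω` with boundary `s`. -/
noncomputable def Nb (a b : E → V) (s : V → ZMod 2) (ω : E → Bool) : ℝ :=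
  ∑ μ : E → ZMod 2, ind (Le μ ω ∧ bd a b μ = s)

/-- `cosh J` (even) or `sinh J` (odd). -/
noncomputable def w1 (J : ℝ) (η : ZMod 2) : ℝ := if η = 0 then Real.cosh J else Real.sinh J

/-- The weight of a current on one edge with parity `η` which is positive iff `t = true`. -/
noncomputable def cw (J : ℝ) (η : ZMod 2) (t : Bool) : ℝ :=
  if η = 0 then (if t then Real.cosh J - 1 else 1) else (if t then Real.sinh J else 0)

/-- The partition function of the currents with sources `s`. -/
noncomputable def Z (a b : E → V) (J : E → ℝ) (s : V → ZMod 2) : ℝ :=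
  ∑ η : E → ZMod 2, ind (bd a b η = s) * ∏ e, w1 (J e) (η e)

/-- The sum of `f` (a function of the set of edges where the current is positive) over the currents
with sources `s`. -/
noncomputable def Zf (a b : E → V) (J : E → ℝ) (s : V → ZMod 2) (f : (E → Bool) → ℝ) : ℝ :=
  ∑ η : E → ZMod 2, ∑ T : E → Bool, ind (bd a b η = s) * (∏ e, cw (J e) (η e) (T e)) * f T

end

/-- The weights of the comparison (on one edge). -/
noncomputable def Wt (L : ℝ) (ν : ZMod 2) (t o : Bool) : ℝ :=
  if ν = 0 then
    (if o then
      (if t then ((Real.cosh (2 * L) - 1) ^ 2 + Real.sinh (2 * L) ^ 2) / 2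
        else (Real.cosh (2 * L) - 1) / 2)
     else (if t then Real.cosh (2 * L) - 1 else 1))
  else
    (if o then
      (if t then Real.sinh (2 * L) * (Real.cosh (2 * L) - 1) else Real.sinh (2 * L) / 2)
     else (if t then Real.sinh (2 * L) else 0))

/-- The indicator of `μ ≤ o` on one edge. -/
noncomputable def le1 (μ : ZMod 2) (o : Bool) : ℝ := if μ = 0 then 1 else if o then 1 else 0

end Pool.Agent.H48.SC
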