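import Pool.Agent.H48.SC.Rr

/-! # Comparison of two states along a path of common edges -/

set_option autoImplicit false

namespace Pool.Agent.H48.SC

variable {E V : Type*} [Fintype E] [DecidableEq E] [DecidableEq V]

private theorem e_self {X : Type*} (c : X → ZMod 2) : c + c = 0 :=
  funext fun x => CharTwo.add_self_eq_zero (c x)

private theorem e_cases (c : ZMod 2) : c = 0 ∨ c = 1 := by
  revert c
  decide

private theorem bd_single (a b : E → V) (e : E) :
    bd a b (Pi.single e 1) = dl (a e) + dl (b e) := by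
  funext v
  unfold bd
  rw [Finset.sum_eq_single e]
  · simp [dl]
  · intro f _ hf
    simp [hf]
  · simp

private theorem w1_split (J : ℝ) (c : ZMod 2) :
    w1 J c = Real.cosh J * w1 0 c + Real.sinh J * w1 0 (c + 1) := by
  have h2 : (1 : ZMod 2) + 1 = 0 := by decide
  rcases e_cases c with rfl | rfl <;> simp [w1, h2]

/-- the sum with the weight of the edge `e` singled out -/
private noncomputable def gE (J : E → ℝ) (e : E) (η : E → ZMod 2) : ℝ :=
  ∏ f ∈ Finset.univ.erase e, w1 (J f) (η f)

private theorem gE_shift (J : E → ℝ) (e : E) (η : E → ZMod 2) :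
    gE J e (η + Pi.single e 1) = gE J e η := by
  unfold gE
  refine Finset.prod_congr rfl fun f hf => ?_
  have hf' : f ≠ e := (Finset.mem_erase.1 hf).1
  rw [Pi.add_apply, Pi.single_eq_of_ne hf', add_zero]

private theorem gE_upd (J : E → ℝ) (e : E) (η : E → ZMod 2) :
    gE (Function.update J e 0) e η = gE J e η := by
  unfold gE
  refine Finset.prod_congr rfl fun f hf => ?_
  have hf' : f ≠ e := (Finset.mem_erase.1 hf).1
  rw [Function.update_of_ne hf']

private theorem prod_gE (J : E → ℝ) (e : E) (η : E → ZMod 2) :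
    ∏ f, w1 (J f) (η f) = w1 (J e) (η e) * gE J e η := by
  unfold gE
  rw [Finset.mul_prod_erase Finset.univ (fun f => w1 (J f) (η f)) (Finset.mem_univ e)]

/-- Splitting off one edge. -/
theorem Z_edge (a b : E → V) (J : E → ℝ) (e : E) (s : V → ZMod 2) :
    Z a b J s = Real.cosh (J e) * Z a b (Function.update J e 0) s +
      Real.sinh (J e) * Z a b (Function.update J e 0) (s + (dl (a e) + dl (b e))) := by
  have h0 : ∀ s : V → ZMod 2, Z a b (Function.update J e 0) s =
      ∑ η : E → ZMod 2, ind (bd a b η = s) * (w1 0 (η e) * gE J e η) := by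
    intro s
    unfold Z
    refine Finset.sum_congr rfl fun η _ => ?_
    rw [prod_gE, gE_upd, Function.update_self]
  have h1 : ∑ η : E → ZMod 2, ind (bd a b η = s + (dl (a e) + dl (b e))) *
      (w1 0 (η e) * gE J e η) =
      ∑ η : E → ZMod 2, ind (bd a b η = s) * (w1 0 (η e + 1) * gE J e η) := by
    rw [← Equiv.sum_comp (Equiv.addRight (Pi.single e 1 : E → ZMod 2))]
    refine Finset.sum_congr rfl fun η _ => ?_
    rw [Equiv.coe_addRight]
    have h2 : ind (bd a b (η + Pi.single e 1) = s + (dl (a e) + dl (b e))) =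
        ind (bd a b η = s) := by
      congr 1
      rw [bd_add, bd_single]
      apply propext
      constructor
      · intro h
        exact add_right_cancel h
      · intro h
        rw [h]
    have h3 : (η + Pi.single e 1 : E → ZMod 2) e = η e + 1 := by
      rw [Pi.add_apply, Pi.single_eq_same]
    change ind (bd a b (η + Pi.single e 1) = s + (dl (a e) + dl (b e))) *
      (w1 0 ((η + Pi.single e 1 : E → ZMod 2) e) * gE J e (η + Pi.single e 1)) = _
    rw [h2, h3, gE_shift]
  rw [h0, h0, h1]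
  unfold Z
  rw [Finset.mul_sum, Finset.mul_sum, ← Finset.sum_add_distrib]
  refine Finset.sum_congr rfl fun η _ => ?_
  rw [prod_gE J e η, w1_split (J e) (η e)]
  ring

private theorem rr_edge (a b : E → V) {J : E → ℝ} (hJ : ∀ e, 0 ≤ J e) (e : E) (s : V → ZMod 2) :
    rr a b J s = (rr a b (Function.update J e 0) s +
      Real.tanh (J e) * rr a b (Function.update J e 0) (s + (dl (a e) + dl (b e)))) /
      (1 + Real.tanh (J e) * rr a b (Function.update J e 0) (dl (a e) + dl (b e))) := by
  have hJ0 : ∀ f, 0 ≤ Function.update J e 0 f := by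
    intro f
    by_cases hf : f = e
    · subst hf
      rw [Function.update_self]
    · rw [Function.update_of_ne hf]
      exact hJ f
  have hz := Z_zero_pos a b (Function.update J e 0) hJ0
  have hc := Real.cosh_pos (J e)
  have hs : 0 ≤ Real.sinh (J e) := Real.sinh_nonneg_iff.2 (hJ e)
  have hd := Z_nonneg a b (Function.update J e 0) hJ0 (dl (a e) + dl (b e))
  unfold rr
  rw [Z_edge a b J e s, Z_edge a b J e 0, zero_add, Real.tanh_eq_sinh_div_cosh]
  have h1 : 0 < Real.cosh (J e) * Z a b (Function.update J e 0) 0 +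
      Real.sinh (J e) * Z a b (Function.update J e 0) (dl (a e) + dl (b e)) := by positivity
  have h2 : 0 < 1 + Real.sinh (J e) / Real.cosh (J e) *
      (Z a b (Function.update J e 0) (dl (a e) + dl (b e)) / Z a b (Function.update J e 0) 0) := by
    positivity
  rw [div_eq_div_iff h1.ne' h2.ne']
  field_simp

private theorem F_mono {t A A' B B' : ℝ} (ht : 0 < t) (ht1 : t < 1) (hA : A ≤ A') (hA' : A' ≤ 1)
    (hB0 : 0 ≤ B) (hB : B ≤ B') :
    (A * (1 / t - t) + B + t) / (1 + t * B) ≤ (A' * (1 / t - t) + B' + t) / (1 + t * B') := by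
  have h1 : 0 < 1 + t * B := by positivity
  have h2 : 0 < 1 + t * B' := by
    have : 0 ≤ B' := hB0.trans hB
    positivity
  have h3 : 0 < 1 / t - t := by
    have : 1 < 1 / t := by
      rw [lt_div_iff₀ ht, one_mul]
      exact ht1
    linarith
  refine le_trans (b := (A' * (1 / t - t) + B + t) / (1 + t * B)) ?_ ?_
  · refine div_le_div_of_nonneg_right ?_ h1.le
    have := mul_le_mul_of_nonneg_right hA h3.le
    linarith
  · rw [div_le_div_iff₀ h1 h2]
    have h4 : (A' * (1 / t - t) + B' + t) * (1 + t * B) - (A' * (1 / t - t) + B + t) * (1 + t * B') =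
        (B' - B) * (1 - t ^ 2) * (1 - A') := by
      field_simp
      ring
    have h5 : 0 ≤ (B' - B) * (1 - t ^ 2) * (1 - A') := by
      have h6 : 0 ≤ 1 - t ^ 2 := by nlinarith
      exact mul_nonneg (mul_nonneg (sub_nonneg.2 hB) h6) (sub_nonneg.2 hA')
    linarith

private theorem rr_F (a b : E → V) {J : E → ℝ} (hJ : ∀ e, 0 ≤ J e) (e : E) (h0 : 0 < J e)
    {x u y : V} (hde : dl (a e) + dl (b e) = dl u + dl y) :
    rr a b J (dl x + dl u) / Real.tanh (J e) + rr a b J (dl u + dl y) - rr a b J (dl x + dl y) =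
    (rr a b (Function.update J e 0) (dl x + dl u) * (1 / Real.tanh (J e) - Real.tanh (J e)) +
      rr a b (Function.update J e 0) (dl u + dl y) + Real.tanh (J e)) /
      (1 + Real.tanh (J e) * rr a b (Function.update J e 0) (dl u + dl y)) := by
  have hJ0 : ∀ f, 0 ≤ Function.update J e 0 f := by
    intro f
    by_cases hf : f = e
    · subst hf
      rw [Function.update_self]
    · rw [Function.update_of_ne hf]
      exact hJ f
  have ht : 0 < Real.tanh (J e) := by
    rw [Real.tanh_eq_sinh_div_cosh]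
    exact div_pos (Real.sinh_pos_iff.2 h0) (Real.cosh_pos _)
  have h1 : dl x + dl u + (dl u + dl y) = dl x + dl y := by
    rw [add_assoc, ← add_assoc (dl u), e_self, zero_add]
  have h2 : dl u + dl y + (dl u + dl y) = 0 := e_self _
  have h3 : dl x + dl y + (dl u + dl y) = dl x + dl u := by
    rw [add_comm (dl u) (dl y), add_assoc, ← add_assoc (dl y), e_self, zero_add]
  have hB := rr_nonneg a b hJ0 (dl u + dl y)
  rw [rr_edge a b hJ e (dl x + dl u), rr_edge a b hJ e (dl u + dl y),
    rr_edge a b hJ e (dl x + dl y), hde, h1, h2, h3, rr_zero a b hJ0]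
  have h4 : 0 < 1 + Real.tanh (J e) * rr a b (Function.update J e 0) (dl u + dl y) := by
    positivity
  field_simp
  ring

theorem edge_ineq (a b : E → V) {J J' : E → ℝ} (hJ : ∀ e, 0 ≤ J e) (h : ∀ e, J e ≤ J' e) (e : E)
    (he : J e = J' e) (h0 : 0 < J e) {x u y : V}
    (huy : (a e = u ∧ b e = y) ∨ (a e = y ∧ b e = u)) :
    rr a b J' (dl x + dl y) - rr a b J (dl x + dl y) ≤
      (rr a b J' (dl x + dl u) - rr a b J (dl x + dl u)) / Real.tanh (J e) +
        (rr a b J' (dl u + dl y) - rr a b J (dl u + dl y)) := by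
  have hde : (dl (a e) + dl (b e) : V → ZMod 2) = dl u + dl y := by
    rcases huy with ⟨h1, h2⟩ | ⟨h1, h2⟩
    · rw [h1, h2]
    · rw [h1, h2, add_comm]
  have hJ' : ∀ f, 0 ≤ J' f := fun f => (hJ f).trans (h f)
  have hJ0 : ∀ f, 0 ≤ Function.update J e 0 f := by
    intro f
    by_cases hf : f = e
    · subst hf
      rw [Function.update_self]
    · rw [Function.update_of_ne hf]
      exact hJ f
  have hJJ : ∀ f, Function.update J e 0 f ≤ Function.update J' e 0 f := by
    intro f
    by_cases hf : f = e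
    · subst hf
      rw [Function.update_self, Function.update_self]
    · rw [Function.update_of_ne hf, Function.update_of_ne hf]
      exact h f
  have hJ0' : ∀ f, 0 ≤ Function.update J' e 0 f := fun f => (hJ0 f).trans (hJJ f)
  have ht : 0 < Real.tanh (J e) := by
    rw [Real.tanh_eq_sinh_div_cosh]
    exact div_pos (Real.sinh_pos_iff.2 h0) (Real.cosh_pos _)
  have ht1 : Real.tanh (J e) < 1 := by
    rw [Real.tanh_eq_sinh_div_cosh, div_lt_one (Real.cosh_pos _)]
    exact Real.sinh_lt_cosh _
  have hF := F_mono ht ht1 (rr_mono a b hJ0 hJJ (dl x + dl u)) (rr_le_one a b hJ0' _)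
    (rr_nonneg a b hJ0 (dl u + dl y)) (rr_mono a b hJ0 hJJ (dl u + dl y))
  have h1 := rr_F a b hJ e h0 (x := x) hde
  have h2 := rr_F a b hJ' e (he ▸ h0) (x := x) hde
  rw [← he] at h2
  rw [← h1, ← h2] at hF
  rw [sub_div]
  linarith

/-- Along a path of `k` common edges (with coupling `β`). -/
theorem path_ineq (a b : E → V) {J J' : E → ℝ} (hJ : ∀ e, 0 ≤ J e) (h : ∀ e, J e ≤ J' e)
    {β ε : ℝ} (hβ : 0 < β) (u : ℕ → V) (k : ℕ)
    (hp : ∀ i < k, ∃ e, J e = β ∧ J' e = β ∧ ((a e = u i ∧ b e = u (i + 1)) ∨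
      (a e = u (i + 1) ∧ b e = u i)) ∧
      rr a b J' (dl (u i) + dl (u (i + 1))) - rr a b J (dl (u i) + dl (u (i + 1))) ≤ ε) :
    rr a b J' (dl (u 0) + dl (u k)) - rr a b J (dl (u 0) + dl (u k)) ≤
      k * (1 / Real.tanh β) ^ k * ε := by
  have hJ' : ∀ f, 0 ≤ J' f := fun f => (hJ f).trans (h f)
  have ht : 0 < Real.tanh β := by
    rw [Real.tanh_eq_sinh_div_cosh]
    exact div_pos (Real.sinh_pos_iff.2 hβ) (Real.cosh_pos _)
  have ht1 : Real.tanh β < 1 := by
    rw [Real.tanh_eq_sinh_div_cosh, div_lt_one (Real.cosh_pos _)]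
    exact Real.sinh_lt_cosh _
  have h1t : 1 ≤ 1 / Real.tanh β := by
    rw [le_div_iff₀ ht, one_mul]
    exact ht1.le
  induction k with
  | zero =>
    rw [e_self, rr_zero a b hJ, rr_zero a b hJ']
    simp
  | succ k ih =>
    have ih' := ih fun i hi => hp i (hi.trans (Nat.lt_succ_self k))
    obtain ⟨e, he, he', hu, hε⟩ := hp k (Nat.lt_succ_self k)
    have hε0 : 0 ≤ ε := by
      have := rr_mono a b hJ h (dl (u k) + dl (u (k + 1)))
      linarith
    have h1 := edge_ineq a b hJ h e (he.trans he'.symm) (he ▸ hβ) (x := u 0) hu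
    rw [he] at h1
    have h2 : (rr a b J' (dl (u 0) + dl (u k)) - rr a b J (dl (u 0) + dl (u k))) / Real.tanh β ≤
        (k * (1 / Real.tanh β) ^ k * ε) / Real.tanh β :=
      div_le_div_of_nonneg_right ih' ht.le
    have h3 : (k * (1 / Real.tanh β) ^ k * ε) / Real.tanh β =
        k * (1 / Real.tanh β) ^ (k + 1) * ε := by
      rw [pow_succ]
      ring
    have h4 : ε ≤ (1 / Real.tanh β) ^ (k + 1) * ε := by
      have h5 : (1 : ℝ) ≤ (1 / Real.tanh β) ^ (k + 1) := one_le_pow₀ h1t
      have := mul_le_mul_of_nonneg_right h5 hε0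
      linarith
    have h6 : ((k + 1 : ℕ) : ℝ) * (1 / Real.tanh β) ^ (k + 1) * ε =
        k * (1 / Real.tanh β) ^ (k + 1) * ε + (1 / Real.tanh β) ^ (k + 1) * ε := by
      push_cast
      ring
    rw [h6]
    linarith

end Pool.Agent.H48.SC
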