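import Pool.Agent.H48.SC.Rt
import Pool.Agent.H48.SC.BoxG

/-! # Infinite volume limits of the correlations -/

set_option autoImplicit false

namespace Pool.Agent.H48.SC

open Pool.Agent.H90.SC MeasureTheory Filter Topology

variable {d : ℕ}

private theorem rt_range_bdd (F : Finset (Edg d)) {β : ℝ} (hβ : 0 ≤ β) (s : Vtx d → ZMod 2) :
    BddAbove (Set.range fun N => rt (boxE d N \ F) β s) := by
  refine ⟨1, ?_⟩
  rintro _ ⟨N, rfl⟩
  exact rt_le_one _ hβ s

theorem rI_tendsto (F : Finset (Edg d)) {β : ℝ} (hβ : 0 ≤ β) (s : Vtx d → ZMod 2) :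
    Tendsto (fun N => rt (boxE d N \ F) β s) atTop (𝓝 (rI F β s)) := by
  unfold rI
  refine tendsto_atTop_ciSup ?_ (rt_range_bdd F hβ s)
  intro M N h
  exact rt_mono (Finset.sdiff_subset_sdiff (boxE_mono h) (Finset.Subset.refl F)) hβ s

theorem rI_nonneg (F : Finset (Edg d)) {β : ℝ} (hβ : 0 ≤ β) (s : Vtx d → ZMod 2) :
    0 ≤ rI F β s := by
  unfold rI
  exact Real.iSup_nonneg fun N => rt_nonneg _ hβ s

theorem rI_zero (F : Finset (Edg d)) {β : ℝ} (hβ : 0 ≤ β) : rI F β 0 = 1 := by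
  unfold rI
  simp only [rt_zero _ hβ]
  exact ciSup_const

private theorem rI_le_shift (z : Vtx d) (F : Finset (Edg d)) {β : ℝ} (hβ : 0 ≤ β)
    (s : Vtx d → ZMod 2) : rI F β s ≤ rI (sE z F) β (sv z s) := by
  obtain ⟨K, hK⟩ := exists_shift_box z
  unfold rI
  refine ciSup_le fun N => ?_
  rw [← rt_shift z (boxE d N \ F) β s]
  refine (rt_mono ?_ hβ (sv z s)).trans (le_ciSup (rt_range_bdd (sE z F) hβ (sv z s)) (N + K))
  intro e he
  rw [mem_sE, Finset.mem_sdiff] at he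
  rw [Finset.mem_sdiff, mem_sE]
  exact ⟨hK N (mem_sE.2 he.1), he.2⟩

theorem rI_shift (z : Vtx d) (F : Finset (Edg d)) {β : ℝ} (hβ : 0 ≤ β) (s : Vtx d → ZMod 2) :
    rI (sE z F) β (sv z s) = rI F β s := by
  refine le_antisymm ?_ (rI_le_shift z F hβ s)
  have h := rI_le_shift (-z) (sE z F) hβ (sv z s)
  have h1 : sv (-z) (sv z s) = s := by
    funext v
    unfold sv
    simp
  rwa [sE_sE, add_neg_cancel, sE_zero, h1] at h

end Pool.Agent.H48.SC
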