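import Pool.Agent.H48.SC.Plus
import Pool.Agent.H48.SC.RtInf

/-! # The limits of the energies of the plus and of the free state -/

set_option autoImplicit false

namespace Pool.Agent.H48.SC

open Pool.Agent.H90.SC Filter Topology

variable {d : ℕ}

private theorem el_mem_box {v : Vtx d} {N : ℕ} :
    v ∈ box d N ↔ ∀ i, -(N : ℤ) ≤ v i ∧ v i ≤ N := by
  unfold box
  simp only [Fintype.mem_piFinset, Finset.mem_Icc]

private theorem el_mem_boxE {e : Edg d} {N : ℕ} :
    e ∈ boxE d N ↔ e.1 ∈ box d N ∧ tip e ∈ box d N := by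
  unfold boxE
  simp only [Finset.mem_filter, Finset.mem_product, Finset.mem_univ, and_true]

private theorem el_shift_box (z : Vtx d) : ∃ K : ℕ, ∀ N, ∀ v ∈ box d N, v + z ∈ box d (N + K) := by
  refine ⟨∑ j, (z j).natAbs, fun N v hv => ?_⟩
  rw [el_mem_box] at hv ⊢
  intro i
  have h1 := hv i
  have h2 : |z i| ≤ ((∑ j, (z j).natAbs : ℕ) : ℤ) := by
    rw [Int.abs_eq_natAbs]
    have : (z i).natAbs ≤ ∑ j, (z j).natAbs :=
      Finset.single_le_sum (f := fun j => (z j).natAbs) (fun _ _ => Nat.zero_le _)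
        (Finset.mem_univ i)
    exact_mod_cast this
  have h3 := abs_le.1 h2
  rw [Pi.add_apply, Nat.cast_add]
  generalize ((∑ j, (z j).natAbs : ℕ) : ℤ) = K at h3 ⊢
  constructor
  · linarith [h1.1, h3.1]
  · linarith [h1.2, h3.2]

private theorem el_box_mono {M N : ℕ} (h : M ≤ N) {v : Vtx d} (hv : v ∈ box d M) :
    v ∈ box d N := by
  rw [el_mem_box] at hv ⊢
  intro i
  have := hv i
  omega

private theorem el_so_dl (z x : Vtx d) : so z (dl (some x)) = dl (some (x + z)) := by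
  funext v
  cases v with
  | none => simp [so, dl]
  | some v =>
    simp only [so, dl, Option.some.injEq]
    exact if_congr eq_sub_iff_add_eq rfl rfl

private theorem el_so_add (z : Vtx d) (s t : Option (Vtx d) → ZMod 2) :
    so z (s + t) = so z s + so z t := by
  funext v
  cases v <;> simp [so]

private theorem el_sv_dl (z x : Vtx d) : sv z (dl x) = dl (x + z) := by
  funext v
  simp only [sv, dl]
  exact if_congr eq_sub_iff_add_eq rfl rfl

private theorem el_sv_add (z : Vtx d) (s t : Vtx d → ZMod 2) :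
    sv z (s + t) = sv z s + sv z t := rfl

private theorem el_tip (e : Edg d) : tip ((0 : Vtx d), e.2) + e.1 = tip e := by
  unfold tip
  simp only
  abel

private theorem el_tip' (e : Edg d) : tip e + -e.1 = tip ((0 : Vtx d), e.2) := by
  unfold tip
  simp only
  abel

private theorem el_epN_bdd (i : Fin d) {β : ℝ} (hβ : 0 ≤ β) :
    BddBelow (Set.range fun N : ℕ => epN (N + 1) β ((0 : Vtx d), i)) := by
  refine ⟨0, ?_⟩
  rintro _ ⟨N, rfl⟩
  exact rr_nonneg _ _ (fun _ => hβ) _

private theorem el_epN_le {N N' : ℕ} {z : Vtx d} (h : ∀ v ∈ box d N, v + z ∈ box d N') {β : ℝ}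
    (hβ : 0 ≤ β) {x y : Vtx d} (hx : x ∈ box d N) (hy : y ∈ box d N) :
    rp N' β (dl (some (x + z)) + dl (some (y + z))) ≤ rp N β (dl (some x) + dl (some y)) := by
  have := rp_le h hβ (dl (some x) + dl (some y)) (by
    intro v hv
    have h1 : x ≠ v := fun e => hv (e ▸ hx)
    have h2 : y ≠ v := fun e => hv (e ▸ hy)
    simp [dl, h1, h2])
  rwa [el_so_add, el_so_dl, el_so_dl] at this

theorem ep_le {N : ℕ} {β : ℝ} (hβ : 0 ≤ β) {e : Edg d} (he : e ∈ boxE d N) :
    ep e.2 β ≤ epN N β e := by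
  obtain ⟨K, hK⟩ := el_shift_box (-e.1)
  rw [el_mem_boxE] at he
  have h1 : ∀ v ∈ box d N, v + -e.1 ∈ box d (N + K + 1) := fun v hv =>
    el_box_mono (by omega) (hK N v hv)
  have h2 := el_epN_le h1 hβ he.1 he.2
  rw [el_tip', add_neg_cancel] at h2
  exact (ciInf_le (el_epN_bdd e.2 hβ) (N + K)).trans h2

theorem ep_tendsto {β : ℝ} (hβ : 0 ≤ β) (e : Edg d) :
    Tendsto (fun N => epN N β e) atTop (𝓝 (ep e.2 β)) := by
  rw [tendsto_order]
  constructor
  · intro a ha
    obtain ⟨N0, hN0⟩ := exists_box {e}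
    filter_upwards [eventually_ge_atTop N0] with N hN
    exact ha.trans_le (ep_le hβ (boxE_mono hN (hN0 (Finset.mem_singleton_self e))))
  · intro a ha
    obtain ⟨M, hM⟩ := exists_lt_of_ciInf_lt ha
    obtain ⟨K, hK⟩ := el_shift_box e.1
    filter_upwards [eventually_ge_atTop (M + 1 + K)] with N hN
    have h1 : ∀ v ∈ box d (M + 1), v + e.1 ∈ box d N := fun v hv =>
      el_box_mono hN (hK (M + 1) v hv)
    have hx : (0 : Vtx d) ∈ box d (M + 1) := by
      rw [el_mem_box]
      intro i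
      simp only [Pi.zero_apply]
      omega
    have hy : tip ((0 : Vtx d), e.2) ∈ box d (M + 1) := by
      rw [el_mem_box]
      intro i
      unfold tip
      simp only [zero_add]
      by_cases hi : i = e.2
      · subst hi
        rw [Pi.single_eq_same]
        omega
      · rw [Pi.single_eq_of_ne hi]
        omega
    have h2 := el_epN_le h1 hβ hx hy
    rw [el_tip, zero_add] at h2
    exact h2.trans_lt hM

private theorem el_ef_bdd (i : Fin d) {β : ℝ} (hβ : 0 ≤ β) :
    BddAbove (Set.range fun N : ℕ => efN N β ((0 : Vtx d), i)) := by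
  refine ⟨1, ?_⟩
  rintro _ ⟨N, rfl⟩
  exact rt_le_one _ hβ _

theorem le_ef (N : ℕ) {β : ℝ} (hβ : 0 ≤ β) (e : Edg d) : efN N β e ≤ ef e.2 β := by
  obtain ⟨K, hK⟩ := exists_shift_box (-e.1)
  have h1 := rt_shift (-e.1) (boxE d N) β (dl e.1 + dl (tip e))
  rw [el_sv_add, el_sv_dl, el_sv_dl, el_tip', add_neg_cancel] at h1
  have h2 := rt_mono (hK N) hβ (dl (0 : Vtx d) + dl (tip ((0 : Vtx d), e.2)))
  rw [h1] at h2
  exact h2.trans (le_ciSup (el_ef_bdd e.2 hβ) (N + K))

theorem ef_tendsto {β : ℝ} (hβ : 0 ≤ β) (e : Edg d) :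
    Tendsto (fun N => efN N β e) atTop (𝓝 (ef e.2 β)) := by
  rw [tendsto_order]
  constructor
  · intro a ha
    obtain ⟨M, hM⟩ := exists_lt_of_lt_ciSup ha
    obtain ⟨K, hK⟩ := exists_shift_box e.1
    filter_upwards [eventually_ge_atTop (M + K)] with N hN
    have h1 := rt_shift e.1 (boxE d M) β (dl (0 : Vtx d) + dl (tip ((0 : Vtx d), e.2)))
    rw [el_sv_add, el_sv_dl, el_sv_dl, el_tip, zero_add] at h1
    have h2 := rt_mono ((hK M).trans (boxE_mono hN)) hβ (dl e.1 + dl (tip e))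
    rw [h1] at h2
    exact hM.trans_le h2
  · intro a ha
    exact Eventually.of_forall fun N => (le_ef N hβ e).trans_lt ha

theorem ef_le_one (i : Fin d) {β : ℝ} (hβ : 0 ≤ β) : ef i β ≤ 1 :=
  ciSup_le fun _ => rt_le_one _ hβ _

theorem ef_nonneg (i : Fin d) {β : ℝ} (hβ : 0 ≤ β) : 0 ≤ ef i β :=
  Real.iSup_nonneg fun _ => rt_nonneg _ hβ _

end Pool.Agent.H48.SC
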