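import Pool.Agent.H48.SC.Lat

/-! # Connections to a distance -/

set_option autoImplicit false

namespace Pool.Agent.H48.SC

open Pool.Agent.H90.SC

variable {d : ℕ}

theorem CnG_mono {G G' : Finset (Edg d)} (h : G ⊆ G') {n : Edg d → ℕ} {x y : Vtx d}
    (hc : CnG G n x y) : CnG G' n x y := by
  refine Relation.ReflTransGen.mono ?_ _ _ hc
  rintro u v ⟨e, he, h1, h2⟩
  exact ⟨e, h he, h1, h2⟩

theorem Loc_cyl (F : Finset (Edg d)) (k : Edg d → ℕ) : Loc F (cyl F k) := by
  intro n n' h hn e he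
  rw [← h e he]
  exact hn e he

theorem Loc_inter {F F' : Finset (Edg d)} {A A' : Set (Edg d → ℕ)} (h : Loc F A) (h' : Loc F' A') :
    Loc (F ∪ F') (A ∩ A') := by
  intro n n' hn ha
  exact ⟨h n n' (fun e he => hn e (Finset.mem_union_left _ he)) ha.1,
    h' n n' (fun e he => hn e (Finset.mem_union_right _ he)) ha.2⟩

theorem Loc_DR (x : Vtx d) (R : ℕ) : Loc (sE x (touchE d R)) (DR (d := d) x R) := by
  rintro n n' hn ⟨v, hv, hc⟩
  refine ⟨v, hv, Relation.ReflTransGen.mono ?_ _ _ hc⟩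
  rintro a b ⟨e, he, h1, h2⟩
  exact ⟨e, he, by rw [← hn e he]; exact h1, h2⟩

private theorem Geo_mem_box {N : ℕ} {v : Vtx d} :
    v ∈ box d N ↔ ∀ i, -(N : ℤ) ≤ v i ∧ v i ≤ N := by
  unfold box
  rw [Fintype.mem_piFinset]
  simp [Finset.mem_Icc]

private theorem Geo_zero_mem (N : ℕ) : (0 : Vtx d) ∈ box d N := by
  rw [Geo_mem_box]
  intro i
  simp

private theorem Geo_box_mono {N M : ℕ} (h : N ≤ M) : box d N ⊆ box d M := by
  intro v hv
  rw [Geo_mem_box] at hv ⊢
  intro i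
  have := hv i
  have h' : (N : ℤ) ≤ M := by exact_mod_cast h
  omega

private theorem Geo_nbr {N : ℕ} {v w : Vtx d} {i : Fin d} (hv : v ∈ box d N)
    (hw : w = v + Pi.single i 1 ∨ v = w + Pi.single i 1) : w ∈ box d (N + 1) := by
  rw [Geo_mem_box] at hv ⊢
  intro j
  have h1 := hv j
  have h2 : (Pi.single i (1 : ℤ) : Vtx d) j = 0 ∨ (Pi.single i (1 : ℤ) : Vtx d) j = 1 := by
    by_cases hij : j = i
    · subst hij; right; simp
    · left; simp [hij]
  push_cast
  rcases hw with hw | hw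
  · rw [hw, Pi.add_apply]
    rcases h2 with h2 | h2 <;> rw [h2] <;> omega
  · rw [hw, Pi.add_apply] at h1
    rcases h2 with h2 | h2 <;> rw [h2] at h1 <;> omega

private theorem Geo_touch {R : ℕ} {e : Edg d} (h : e.1 ∈ box d R ∨ tip e ∈ box d R) :
    e ∈ touchE d R := by
  unfold touchE boxE
  have h1 : e.1 ∈ box d (R + 1) ∧ tip e ∈ box d (R + 1) := by
    rcases h with h | h
    · exact ⟨Geo_box_mono (Nat.le_succ R) h, Geo_nbr h (Or.inl rfl)⟩
    · exact ⟨Geo_nbr h (Or.inr rfl), Geo_box_mono (Nat.le_succ R) h⟩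
  rw [Finset.mem_filter, Finset.mem_filter, Finset.mem_product]
  exact ⟨⟨⟨h1.1, Finset.mem_univ _⟩, h1.2⟩, h⟩

/-- The first exit of a path. -/
theorem mem_DR_of_CnG {G : Finset (Edg d)} {n : Edg d → ℕ} {x y : Vtx d} {R : ℕ}
    (h : CnG G n x y) (hy : y - x ∉ box d R) : n ∈ DR x R := by
  have key : ∀ z, CnG G n x z →
      (CnG (sE x (touchE d R)) n x z ∧ z - x ∈ box d R) ∨ n ∈ DR x R := by
    intro z hz
    induction hz with
    | refl =>
      left
      refine ⟨Relation.ReflTransGen.refl, ?_⟩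
      rw [sub_self]
      exact Geo_zero_mem R
    | @tail b c hb hbc ih =>
      rcases ih with ⟨ih1, ih2⟩ | ih
      · obtain ⟨e, he, h1, h2⟩ := hbc
        have hm : e ∈ sE x (touchE d R) := by
          rw [mem_sE]
          apply Geo_touch
          rw [tip_sub]
          rcases h2 with ⟨h2, h3⟩ | ⟨h2, h3⟩
          · left
            show e.1 - x ∈ box d R
            rw [h2]; exact ih2
          · right
            rw [h3]; exact ih2
        have hc : CnG (sE x (touchE d R)) n x c :=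
          Relation.ReflTransGen.tail ih1 ⟨e, hm, h1, h2⟩
        by_cases hcx : c - x ∈ box d R
        · exact Or.inl ⟨hc, hcx⟩
        · exact Or.inr ⟨c, hcx, hc⟩
      · exact Or.inr ih
  rcases key y h with ⟨_, h1⟩ | h1
  · exact absurd h1 hy
  · exact h1

theorem DR_anti (x : Vtx d) {R R' : ℕ} (h : R ≤ R') : DR (d := d) x R' ⊆ DR x R := by
  rintro n ⟨v, hv, hc⟩
  exact mem_DR_of_CnG hc fun hv' => hv (Geo_box_mono h hv')

theorem DR_shift (x : Vtx d) (R : ℕ) : sn x ⁻¹' (DR (d := d) 0 R) = DR x R := by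
  ext n
  constructor
  · rintro ⟨v, hv, hc⟩
    refine ⟨v + x, by simpa using hv, ?_⟩
    have := Relation.ReflTransGen.lift (fun u : Vtx d => u + x)
      (p := fun u v => ∃ e ∈ sE x (touchE d R), 0 < n e ∧
        ((e.1 = u ∧ tip e = v) ∨ (e.1 = v ∧ tip e = u))) ?_ _ _ hc
    · simpa [CnG, Function.onFun] using this
    · rintro a b ⟨e, he, h1, h2⟩
      refine ⟨(e.1 + x, e.2), ?_, h1, ?_⟩
      · rw [mem_sE] at he ⊢
        simpa using he
      · rw [tip_add]
        rcases h2 with ⟨h2, h3⟩ | ⟨h2, h3⟩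
        · left; exact ⟨by simp only; rw [h2], by rw [h3]⟩
        · right; exact ⟨by simp only; rw [h2], by rw [h3]⟩
  · rintro ⟨v, hv, hc⟩
    refine ⟨v - x, by simpa using hv, ?_⟩
    have := Relation.ReflTransGen.lift (fun u : Vtx d => u - x)
      (p := fun u v => ∃ e ∈ sE 0 (touchE d R), 0 < sn x n e ∧
        ((e.1 = u ∧ tip e = v) ∨ (e.1 = v ∧ tip e = u))) ?_ _ _ hc
    · simpa [CnG, Function.onFun] using this
    · rintro a b ⟨e, he, h1, h2⟩
      refine ⟨(e.1 - x, e.2), ?_, ?_, ?_⟩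
      · rw [mem_sE] at he ⊢
        simpa using he
      · simpa [sn] using h1
      · rw [tip_sub]
        rcases h2 with ⟨h2, h3⟩ | ⟨h2, h3⟩
        · left; exact ⟨by simp only; rw [h2], by rw [h3]⟩
        · right; exact ⟨by simp only; rw [h2], by rw [h3]⟩

end Pool.Agent.H48.SC
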