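import Pool.Agent.H48.SC.Switch
import Pool.Agent.H48.SC.Tab
import Pool.Agent.H48.SC.Push

/-! # Griffiths' inequalities -/

set_option autoImplicit false

namespace Pool.Agent.H48.SC

variable {E V : Type*} [Fintype E] [DecidableEq E] [DecidableEq V]

private theorem g_self {X : Type*} (c : X → ZMod 2) : c + c = 0 :=
  funext fun x => CharTwo.add_self_eq_zero (c x)

private theorem g_cases (c : ZMod 2) : c = 0 ∨ c = 1 := by
  revert c
  decide

theorem Z_nonneg (a b : E → V) (J : E → ℝ) (hJ : ∀ e, 0 ≤ J e) (s : V → ZMod 2) :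
    0 ≤ Z a b J s := by
  unfold Z
  exact Finset.sum_nonneg fun η _ => mul_nonneg (ind_nonneg _)
    (Finset.prod_nonneg fun e _ => w1_nonneg (hJ e) _)

theorem Z_zero_pos (a b : E → V) (J : E → ℝ) (hJ : ∀ e, 0 ≤ J e) : 0 < Z a b J 0 := by
  unfold Z
  refine Finset.sum_pos' (fun η _ => mul_nonneg (ind_nonneg _)
    (Finset.prod_nonneg fun e _ => w1_nonneg (hJ e) _)) ⟨0, Finset.mem_univ _, ?_⟩
  rw [ind_true (bd_zero a b), one_mul]
  refine Finset.prod_pos fun e _ => ?_
  unfold w1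
  rw [if_pos (Pi.zero_apply e)]
  exact Real.cosh_pos _

/-- the weights of the switching -/
private noncomputable def Vw (J : ℝ) (ν : ZMod 2) (o : Bool) : ℝ :=
  if ν = 0 then (if o then Real.sinh J ^ 2 else 1)
  else (if o then Real.sinh J * Real.cosh J else 0)

private theorem Vw_nonneg {J : ℝ} (hJ : 0 ≤ J) (ν : ZMod 2) (o : Bool) : 0 ≤ Vw J ν o := by
  unfold Vw
  have h1 : 0 ≤ Real.sinh J := Real.sinh_nonneg_iff.2 hJ
  have h2 := Real.cosh_pos J
  split_ifs <;> positivity

private theorem Vw_sum (J : ℝ) (ν μ : ZMod 2) :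
    ∑ o : Bool, Vw J ν o * le1 μ o = w1 J (ν + μ) * w1 J μ := by
  have h1 := Real.cosh_sq J
  rw [Fintype.sum_bool]
  rcases g_cases ν with rfl | rfl <;> rcases g_cases μ with rfl | rfl
  · simp only [Vw, le1, w1, add_zero, if_true, Bool.false_eq_true, if_false]
    nlinarith
  · simp [Vw, le1, w1]
    ring
  · simp [Vw, le1, w1]
  · have h2 : (1 : ZMod 2) + 1 = 0 := by decide
    simp [Vw, le1, w1, h2]
    ring

private theorem Nb_le_zero (a b : E → V) (t : V → ZMod 2) (ω : E → Bool) :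
    Nb a b t ω ≤ Nb a b 0 ω := by
  by_cases hex : ∃ μ0 : E → ZMod 2, Le μ0 ω ∧ bd a b μ0 = t
  · obtain ⟨μ0, h1, h2⟩ := hex
    unfold Nb
    rw [← Equiv.sum_comp (Equiv.addRight μ0)]
    refine Finset.sum_le_sum fun μ _ => ?_
    rw [Equiv.coe_addRight]
    refine ind_mono ?_
    rintro ⟨h3, h4⟩
    constructor
    · intro e he
      by_cases h5 : μ0 e = 0
      · apply h3
        change μ e + μ0 e ≠ 0
        rw [h5, add_zero]
        exact he
      · exact h1 e h5
    · have h4' : bd a b (μ + μ0) = t := h4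
      rw [bd_add, h2] at h4'
      exact add_eq_right.1 h4'
  · have h1 : Nb a b t ω = 0 := by
      unfold Nb
      exact Finset.sum_eq_zero fun μ _ => ind_false fun h => hex ⟨μ, h⟩
    rw [h1]
    unfold Nb
    exact Finset.sum_nonneg fun μ _ => ind_nonneg _

/-- the product of two partition functions after switching -/
private theorem Z_mul (a b : E → V) (J : E → ℝ) (s t : V → ZMod 2) :
    Z a b J s * Z a b J t = ∑ ν : E → ZMod 2, ind (bd a b ν = s + t) *
      ∑ ω : E → Bool, (∏ e, Vw (J e) (ν e) (ω e)) * Nb a b t ω := by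
  have h1 : ∀ ν : E → ZMod 2, ∑ ω : E → Bool, (∏ e, Vw (J e) (ν e) (ω e)) * Nb a b t ω =
      ∑ μ : E → ZMod 2, ind (bd a b μ = t) * ((∏ e, w1 (J e) (ν e + μ e)) * ∏ e, w1 (J e) (μ e)) := by
    intro ν
    have h2 : ∀ ω : E → Bool, (∏ e, Vw (J e) (ν e) (ω e)) * Nb a b t ω =
        ∑ μ : E → ZMod 2, ind (bd a b μ = t) * ∏ e, (Vw (J e) (ν e) (ω e) * le1 (μ e) (ω e)) := by
      intro ω
      unfold Nb
      rw [Finset.mul_sum]
      refine Finset.sum_congr rfl fun μ _ => ?_
      rw [ind_and, ind_Le, Finset.prod_mul_distrib]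
      ring
    rw [Finset.sum_congr rfl fun ω _ => h2 ω, Finset.sum_comm]
    refine Finset.sum_congr rfl fun μ _ => ?_
    rw [← Finset.mul_sum, sum_prod (fun e o => Vw (J e) (ν e) o * le1 (μ e) o)]
    rw [Finset.prod_congr rfl fun e _ => Vw_sum (J e) (ν e) (μ e), Finset.prod_mul_distrib]
  rw [Finset.sum_congr rfl fun ν _ => by rw [h1 ν, Finset.mul_sum]]
  rw [Finset.sum_comm]
  unfold Z
  rw [Finset.sum_mul_sum, Finset.sum_comm]
  refine Finset.sum_congr rfl fun μ _ => ?_
  rw [← Equiv.sum_comp (Equiv.addRight μ)]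
  refine Finset.sum_congr rfl fun ν _ => ?_
  rw [Equiv.coe_addRight]
  by_cases hμ : bd a b μ = t
  · have h3 : ind (bd a b (ν + μ) = s) = ind (bd a b ν = s + t) := by
      congr 1
      rw [bd_add, hμ]
      apply propext
      constructor
      · intro h
        rw [← h, add_assoc, g_self, add_zero]
      · intro h
        rw [h, add_assoc, g_self, add_zero]
    have h3' : ind (bd a b ((fun x => x + μ) ν) = s) = ind (bd a b ν = s + t) := h3
    rw [h3']
    simp only [Pi.add_apply]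
    ring
  · rw [ind_false hμ]
    ring

/-- Second Griffiths inequality (for two arbitrary sets). -/
theorem gks' (a b : E → V) (J : E → ℝ) (hJ : ∀ e, 0 ≤ J e) (s t : V → ZMod 2) :
    Z a b J s * Z a b J t ≤ Z a b J (s + t) * Z a b J 0 := by
  rw [Z_mul a b J s t, Z_mul a b J (s + t) 0, add_zero]
  refine Finset.sum_le_sum fun ν _ => mul_le_mul_of_nonneg_left ?_ (ind_nonneg _)
  refine Finset.sum_le_sum fun ω _ => mul_le_mul_of_nonneg_left (Nb_le_zero a b t ω) ?_
  exact Finset.prod_nonneg fun e _ => Vw_nonneg (hJ e) _ _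

/-- Second Griffiths inequality (for a pair and an arbitrary set). -/
theorem gks (a b : E → V) (J : E → ℝ) (hJ : ∀ e, 0 ≤ J e) (s : V → ZMod 2) (x y : V) :
    Z a b J s * Z a b J (dl x + dl y) ≤ Z a b J (s + (dl x + dl y)) * Z a b J 0 :=
  gks' a b J hJ s (dl x + dl y)

private theorem w1_add (J K : ℝ) (η : ZMod 2) :
    w1 (J + K) η = ∑ κ : ZMod 2, w1 J (η + κ) * w1 K κ := by
  have h0 : (∑ κ : ZMod 2, w1 J (η + κ) * w1 K κ) =
      w1 J (η + 0) * w1 K 0 + w1 J (η + 1) * w1 K 1 :=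
    Fin.sum_univ_two _
  rw [h0]
  have h2 : (1 : ZMod 2) + 1 = 0 := by decide
  have h3 : (1 : ZMod 2) ≠ 0 := by decide
  rcases g_cases η with rfl | rfl
  · simp only [w1, add_zero, zero_add, if_true, if_neg h3]
    exact Real.cosh_add J K
  · simp only [w1, add_zero, h2, if_true, if_neg h3]
    exact Real.sinh_add J K

private theorem Z_add (a b : E → V) (J K : E → ℝ) (s : V → ZMod 2) :
    Z a b (fun e => J e + K e) s =
      ∑ κ : E → ZMod 2, (∏ e, w1 (K e) (κ e)) * Z a b J (s + bd a b κ) := by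
  unfold Z
  have h1 : ∀ η : E → ZMod 2, ∏ e, w1 (J e + K e) (η e) =
      ∑ κ : E → ZMod 2, ∏ e, (w1 (J e) (η e + κ e) * w1 (K e) (κ e)) := by
    intro η
    rw [sum_prod (fun e κ => w1 (J e) (η e + κ) * w1 (K e) κ)]
    exact Finset.prod_congr rfl fun e _ => w1_add _ _ _
  rw [Finset.sum_congr rfl fun η _ => by rw [h1 η, Finset.mul_sum], Finset.sum_comm]
  refine Finset.sum_congr rfl fun κ _ => ?_
  rw [Finset.mul_sum, ← Equiv.sum_comp (Equiv.addRight κ) (fun η => (∏ e, w1 (K e) (κ e)) *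
    (ind (bd a b η = s + bd a b κ) * ∏ e, w1 (J e) (η e)))]
  refine Finset.sum_congr rfl fun η _ => ?_
  rw [Equiv.coe_addRight]
  have h3 : ind (bd a b (η + κ) = s + bd a b κ) = ind (bd a b η = s) := by
    congr 1
    rw [bd_add]
    apply propext
    exact add_left_inj _
  rw [h3, Finset.prod_mul_distrib]
  simp only [Pi.add_apply]
  ring

/-- Monotonicity in the coupling constants. -/
theorem gks_mono (a b : E → V) (J J' : E → ℝ) (hJ : ∀ e, 0 ≤ J e) (h : ∀ e, J e ≤ J' e)
    (s : V → ZMod 2) : Z a b J s * Z a b J' 0 ≤ Z a b J' s * Z a b J 0 := by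
  have hJ' : J' = fun e => J e + (J' e - J e) := funext fun e => by ring
  rw [hJ', Z_add, Z_add, Finset.mul_sum, Finset.sum_mul]
  refine Finset.sum_le_sum fun κ _ => ?_
  have h1 : 0 ≤ ∏ e, w1 (J' e - J e) (κ e) :=
    Finset.prod_nonneg fun e _ => w1_nonneg (by linarith [h e]) _
  have h2 := gks' a b J hJ s (bd a b κ)
  rw [zero_add]
  calc Z a b J s * ((∏ e, w1 (J' e - J e) (κ e)) * Z a b J (bd a b κ))
      = (∏ e, w1 (J' e - J e) (κ e)) * (Z a b J s * Z a b J (bd a b κ)) := by ring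
    _ ≤ (∏ e, w1 (J' e - J e) (κ e)) * (Z a b J (s + bd a b κ) * Z a b J 0) :=
        mul_le_mul_of_nonneg_left h2 h1
    _ = _ := by ring

end Pool.Agent.H48.SC
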