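import Pool.Agent.H48.SC.Defs
import Pool.Agent.H90.SC.Model

/-!
# Definitions on the lattice `ℤ^d`
-/

set_option autoImplicit false

namespace Pool.Agent.H48.SC

open Pool.Agent.H90.SC MeasureTheory

variable {d : ℕ}

/-- First end point of an edge of `E`. -/
def ea (E : Finset (Edg d)) (e : {e // e ∈ E}) : Vtx d := e.1.1

/-- Second end point of an edge of `E`. -/
def eb (E : Finset (Edg d)) (e : {e // e ∈ E}) : Vtx d := tip e.1

/-- The partition function of the currents on `E` with sources `s`. -/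
noncomputable def ZE (E : Finset (Edg d)) (β : ℝ) (s : Vtx d → ZMod 2) : ℝ :=
  Z (ea E) (eb E) (fun _ => β) s

/-- The sum of `f` (a function of the set of edges where the current is positive). -/
noncomputable def ZfE (E : Finset (Edg d)) (β : ℝ) (s : Vtx d → ZMod 2)
    (f : ({e // e ∈ E} → Bool) → ℝ) : ℝ := Zf (ea E) (eb E) (fun _ => β) s f

/-- The correlation `⟨σ_s⟩` of the Ising model on `E` with free boundary. -/
noncomputable def rt (E : Finset (Edg d)) (β : ℝ) (s : Vtx d → ZMod 2) : ℝ := ZE E β s / ZE E β 0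

/-- The boundary of the restriction of `k` to `F`. -/
def bdF (F : Finset (Edg d)) (k : Edg d → ℕ) : Vtx d → ZMod 2 := fun v =>
  ∑ e ∈ F, (k e : ZMod 2) * ((if e.1 = v then 1 else 0) + (if tip e = v then 1 else 0))

/-- Cylinder sets. -/
def cyl (F : Finset (Edg d)) (k : Edg d → ℕ) : Set (Edg d → ℕ) := {n | ∀ e ∈ F, n e = k e}

/-- `x` and `y` are joined by edges of `G` where `n` is positive. -/
def CnG (G : Finset (Edg d)) (n : Edg d → ℕ) : Vtx d → Vtx d → Prop :=
  Relation.ReflTransGen fun u v => ∃ e ∈ G, 0 < n e ∧ ((e.1 = u ∧ tip e = v) ∨ (e.1 = v ∧ tip e = u))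

/-- Translation of a set of edges. -/
def sE (z : Vtx d) (E : Finset (Edg d)) : Finset (Edg d) := E.image fun e => (e.1 + z, e.2)

/-- Translation of a function on the vertices. -/
def sv (z : Vtx d) (s : Vtx d → ZMod 2) : Vtx d → ZMod 2 := fun v => s (v - z)

/-- Translation of a configuration. -/
def sn (z : Vtx d) (n : Edg d → ℕ) : Edg d → ℕ := fun e => n (e.1 + z, e.2)

/-- `x` is joined to the complement of the box `x + [-R, R]^d`. -/
def DR (x : Vtx d) (R : ℕ) : Set (Edg d → ℕ) :=
  {n | ∃ v : Vtx d, v - x ∉ box d R ∧ CnG (sE x (touchE d R)) n x v}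

/-- `A` only depends on the values on `F`. -/
def Loc (F : Finset (Edg d)) (A : Set (Edg d → ℕ)) : Prop :=
  ∀ n n' : Edg d → ℕ, (∀ e ∈ F, n e = n' e) → n ∈ A → n' ∈ A

/-- The infinite volume limit of `rt`. -/
noncomputable def rI (F : Finset (Edg d)) (β : ℝ) (s : Vtx d → ZMod 2) : ℝ :=
  ⨆ N : ℕ, rt (boxE d N \ F) β s

theorem sE_sE (z w : Vtx d) (E : Finset (Edg d)) : sE z (sE w E) = sE (w + z) E := by
  unfold sE
  rw [Finset.image_image]
  refine Finset.image_congr ?_
  intro e _
  simp [add_assoc]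

theorem sE_zero (E : Finset (Edg d)) : sE 0 E = E := by
  unfold sE
  simp

theorem mem_sE {z : Vtx d} {E : Finset (Edg d)} {e : Edg d} :
    e ∈ sE z E ↔ (e.1 - z, e.2) ∈ E := by
  unfold sE
  rw [Finset.mem_image]
  constructor
  · rintro ⟨f, hf, rfl⟩
    simpa using hf
  · intro h
    exact ⟨_, h, by simp⟩

theorem tip_add (e : Edg d) (z : Vtx d) : tip (e.1 + z, e.2) = tip e + z := by
  unfold tip
  simp only
  abel

theorem tip_sub (e : Edg d) (z : Vtx d) : tip (e.1 - z, e.2) = tip e - z := by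
  unfold tip
  simp only
  abel

end Pool.Agent.H48.SC
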