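import Pool.Agent.H48.SC.PlusDefs
import Pool.Agent.H90.SC.H1a

/-! # The magnetisation in a box -/

set_option autoImplicit false

namespace Pool.Agent.H48.SC

open Pool.Agent.H90.SC

variable {d : ℕ}

/-- the parities given by a set of edges -/
private def mnj (N : ℕ) (H : Finset (Edg d)) (e : {e // e ∈ touchE d N}) : ZMod 2 :=
  if e.1 ∈ H then 1 else 0

private theorem mn_cases (c : ZMod 2) : c = 0 ∨ c = 1 := by
  revert c
  decide

private theorem mn_w1 (β : ℝ) (p : Prop) [Decidable p] :
    w1 β (if p then 1 else 0) = Real.cosh β * if p then Real.tanh β else 1 := by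
  have h3 : (1 : ZMod 2) ≠ 0 := by decide
  have ht : Real.cosh β * Real.tanh β = Real.sinh β := by
    rw [Real.tanh_eq_sinh_div_cosh, mul_div_cancel₀ _ (Real.cosh_pos β).ne']
  by_cases hp : p
  · rw [if_pos hp, if_pos hp]
    unfold w1
    rw [if_neg h3, ht]
  · rw [if_neg hp, if_neg hp]
    unfold w1
    rw [if_pos rfl, mul_one]

private theorem mn_prod (N : ℕ) (β : ℝ) {H : Finset (Edg d)} (hH : H ⊆ touchE d N) :
    ∏ e, w1 β (mnj N H e) = Real.cosh β ^ (touchE d N).card * Real.tanh β ^ H.card := by
  have h1 : ∀ e : {e // e ∈ touchE d N}, w1 β (mnj N H e) =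
      (fun e : Edg d => Real.cosh β * if e ∈ H then Real.tanh β else 1) e.1 := fun e =>
    mn_w1 β (e.1 ∈ H)
  rw [Finset.prod_congr rfl fun e _ => h1 e,
    Finset.prod_coe_sort (touchE d N) (fun e : Edg d => Real.cosh β * if e ∈ H then Real.tanh β else 1),
    Finset.prod_mul_distrib, Finset.prod_const]
  congr 1
  rw [Finset.prod_ite, Finset.prod_const_one, mul_one, Finset.prod_const,
    Finset.filter_mem_eq_inter, Finset.inter_eq_right.2 hH]

private theorem mn_Z (N : ℕ) (β : ℝ) (a b : {e // e ∈ touchE d N} → Option (Vtx d))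
    (s : Option (Vtx d) → ZMod 2)
    (P : Finset (Edg d) → Prop) [DecidablePred P]
    (hP : ∀ H ⊆ touchE d N, (bd a b (mnj N H) = s) ↔ P H) :
    Z a b (fun _ => β) s =
      Real.cosh β ^ (touchE d N).card * ∑ H ∈ (touchE d N).powerset.filter P, Real.tanh β ^ H.card := by
  classical
  rw [Finset.sum_filter, Finset.mul_sum]
  unfold Z
  symm
  refine Finset.sum_nbij' (fun H => mnj N H)
    (fun η => (touchE d N).filter fun e => ∃ h : e ∈ touchE d N, η ⟨e, h⟩ = 1) ?_ ?_ ?_ ?_ ?_
  · intro H _
    exact Finset.mem_univ _
  · intro η _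
    rw [Finset.mem_powerset]
    exact Finset.filter_subset _ _
  · intro H hH
    rw [Finset.mem_powerset] at hH
    ext e
    rw [Finset.mem_filter]
    constructor
    · rintro ⟨h1, _, h2⟩
      unfold mnj at h2
      by_contra h3
      rw [if_neg h3] at h2
      exact absurd h2 (by decide)
    · intro h1
      exact ⟨hH h1, hH h1, if_pos h1⟩
  · intro η _
    funext e
    unfold mnj
    rcases mn_cases (η e) with h | h
    · rw [if_neg, h]
      rw [Finset.mem_filter]
      rintro ⟨_, _, h2⟩
      rw [h] at h2
      exact absurd h2 (by decide)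
    · rw [if_pos, h]
      rw [Finset.mem_filter]
      exact ⟨e.2, e.2, h⟩
  · intro H hH
    rw [Finset.mem_powerset] at hH
    simp only
    rw [mn_prod N β hH]
    by_cases h : P H
    · rw [if_pos h, ind_true ((hP H hH).2 h), one_mul]
    · rw [if_neg h, ind_false (fun h' => h ((hP H hH).1 h')), mul_zero, zero_mul]

private theorem mn_mg {Λ : Finset (Vtx d)} {u : Vtx d} (hu : u ∈ Λ) (v : Vtx d) :
    mg Λ v = some u ↔ u = v := by
  unfold mg
  by_cases h : v ∈ Λ
  · rw [if_pos h]
    simp [eq_comm]
  · rw [if_neg h]
    constructor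
    · intro h'
      exact absurd h' (by simp)
    · intro h'
      exact absurd (h' ▸ hu) h

/-- the boundary at the vertices of the box -/
private theorem mn_bd (N : ℕ) {H : Finset (Edg d)} (hH : H ⊆ touchE d N) {u : Vtx d}
    (hu : u ∈ box d N) :
    bd (fun e : {e // e ∈ touchE d N} => mg (box d N) e.1.1) (fun e => mg (box d N) (tip e.1))
      (mnj N H) (some u) = ((H.filter fun e => u = e.1 ∨ u = tip e).card : ZMod 2) := by
  unfold bd mnj
  have h1 : ∀ e : {e // e ∈ touchE d N}, (if e.1 ∈ H then (1 : ZMod 2) else 0) *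
      ((if mg (box d N) e.1.1 = some u then 1 else 0) +
        (if mg (box d N) (tip e.1) = some u then 1 else 0)) =
      (fun e : Edg d => if e ∈ H then (if u = e.1 ∨ u = tip e then (1 : ZMod 2) else 0) else 0) e.1 := by
    intro e
    simp only [mn_mg hu]
    by_cases h2 : e.1 ∈ H
    · rw [if_pos h2, if_pos h2, one_mul]
      by_cases h3 : u = e.1.1
      · have h4 : u ≠ tip e.1 := by
          rw [h3]
          exact H1a_tip_ne e.1
        rw [if_pos h3, if_neg h4, if_pos (Or.inl h3), add_zero]
      · by_cases h4 : u = tip e.1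
        · rw [if_neg h3, if_pos h4, if_pos (Or.inr h4), zero_add]
        · rw [if_neg h3, if_neg h4, if_neg (by tauto), add_zero]
    · rw [if_neg h2, if_neg h2, zero_mul]
  rw [Finset.sum_congr rfl fun e _ => h1 e, Finset.sum_coe_sort (touchE d N)
    (fun e : Edg d => if e ∈ H then (if u = e.1 ∨ u = tip e then (1 : ZMod 2) else 0) else 0),
    ← Finset.sum_filter, Finset.filter_mem_eq_inter, Finset.inter_eq_right.2 hH, Finset.sum_boole]

/-- the sum of the indicators over the vertices -/
private theorem mn_one (Λ : Finset (Vtx d)) (v : Vtx d) :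
    (if mg Λ v = none then (1 : ZMod 2) else 0) + ∑ u ∈ Λ, (if mg Λ v = some u then 1 else 0) = 1 := by
  unfold mg
  by_cases h : v ∈ Λ
  · rw [if_pos h, if_neg (by simp), zero_add, Finset.sum_eq_single v]
    · simp
    · intro u _ hu
      rw [if_neg]
      intro h'
      exact hu (Option.some_injective _ h').symm
    · intro h'
      exact absurd h h'
  · rw [if_neg h, if_pos rfl, Finset.sum_eq_zero, add_zero]
    intro u _
    rw [if_neg (by simp)]

private theorem mn_total (N : ℕ) (η : {e // e ∈ touchE d N} → ZMod 2) :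
    bd (fun e : {e // e ∈ touchE d N} => mg (box d N) e.1.1) (fun e => mg (box d N) (tip e.1))
      η none + ∑ u ∈ box d N,
      bd (fun e : {e // e ∈ touchE d N} => mg (box d N) e.1.1) (fun e => mg (box d N) (tip e.1))
      η (some u) = 0 := by
  unfold bd
  rw [Finset.sum_comm, ← Finset.sum_add_distrib]
  refine Finset.sum_eq_zero fun e _ => ?_
  rw [← Finset.mul_sum, ← mul_add, Finset.sum_add_distrib, add_add_add_comm, mn_one, mn_one]
  have h2 : (1 : ZMod 2) + 1 = 0 := by decide
  rw [h2, mul_zero]

private theorem mn_iff (N : ℕ) (s : Option (Vtx d) → ZMod 2)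
    (hs0 : ∀ u, u ∉ box d N → s (some u) = 0) (hs1 : s none + ∑ u ∈ box d N, s (some u) = 0)
    (η : {e // e ∈ touchE d N} → ZMod 2) :
    bd (fun e : {e // e ∈ touchE d N} => mg (box d N) e.1.1) (fun e => mg (box d N) (tip e.1))
      η = s ↔ ∀ u ∈ box d N,
      bd (fun e : {e // e ∈ touchE d N} => mg (box d N) e.1.1) (fun e => mg (box d N) (tip e.1))
      η (some u) = s (some u) := by
  constructor
  · intro h u _
    rw [h]
  · intro h
    funext v
    cases v with
    | none =>
      have h1 := mn_total N η
      rw [Finset.sum_congr rfl h, ← hs1] at h1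
      exact add_right_cancel h1
    | some u =>
      by_cases hu : u ∈ box d N
      · exact h u hu
      · rw [hs0 u hu]
        unfold bd
        refine Finset.sum_eq_zero fun e _ => ?_
        have h2 : ∀ v : Vtx d, mg (box d N) v ≠ some u := by
          intro v hv
          unfold mg at hv
          split_ifs at hv with h3
          · rw [Option.some_injective _ hv] at h3
            exact hu h3
        rw [if_neg (h2 _), if_neg (h2 _), add_zero, mul_zero]

theorem magN_eq (N : ℕ) {β : ℝ} (hβ : 0 ≤ β) :
    magN d N β = rp N β (dl (some (0 : Vtx d)) + dl none) := by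
  classical
  have h0 : magN d N β = mean d N β 0 := rfl
  have hb : (0 : Vtx d) ∈ box d N := by
    unfold box
    rw [Fintype.mem_piFinset]
    intro i
    rw [Finset.mem_Icc]
    simp
  rw [h0, mean_eq]
  unfold rp rP rr
  have hnum := mn_Z N β (fun e : {e // e ∈ touchE d N} => mg (box d N) e.1.1)
    (fun e => mg (box d N) (tip e.1)) (dl (some (0 : Vtx d)) + dl none)
    (fun H => ∀ u ∈ box d N, (Odd (H.filter fun e => u = e.1 ∨ u = tip e).card ↔ u = 0)) (by
      intro H hH
      rw [mn_iff]
      · refine forall_congr' fun u => ?_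
        refine imp_congr_right fun hu => ?_
        rw [mn_bd N hH hu, Pi.add_apply]
        have h1 : dl (none : Option (Vtx d)) (some u) = 0 := by simp [dl]
        rw [h1, add_zero]
        by_cases h2 : u = 0
        · have h3 : dl (some (0 : Vtx d)) (some u) = 1 := by simp [dl, h2]
          rw [h3, ZMod.natCast_eq_one_iff_odd]
          simp [h2]
        · have h3 : dl (some (0 : Vtx d)) (some u) = 0 := by
            unfold dl
            rw [if_neg]
            intro h4
            exact h2 (Option.some_injective _ h4).symm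
          rw [h3, ZMod.natCast_eq_zero_iff_even, ← Nat.not_odd_iff_even]
          simp [h2]
      · intro u hu
        have h2 : u ≠ 0 := fun h => hu (h ▸ hb)
        rw [Pi.add_apply]
        unfold dl
        rw [if_neg, if_neg (by simp), add_zero]
        intro h4
        exact h2 (Option.some_injective _ h4).symm
      · simp only [Pi.add_apply]
        rw [Finset.sum_eq_single (0 : Vtx d)]
        · simp [dl]
          decide
        · intro u _ hu
          simp [dl, Ne.symm hu]
        · intro h
          exact absurd hb h)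
  have hden := mn_Z N β (fun e : {e // e ∈ touchE d N} => mg (box d N) e.1.1)
    (fun e => mg (box d N) (tip e.1)) 0
    (fun H => ∀ u ∈ box d N, ¬ Odd (H.filter fun e => u = e.1 ∨ u = tip e).card) (by
      intro H hH
      rw [mn_iff]
      · refine forall_congr' fun u => ?_
        refine imp_congr_right fun hu => ?_
        rw [mn_bd N hH hu, Pi.zero_apply, ZMod.natCast_eq_zero_iff_even, Nat.not_odd_iff_even]
      · intro u _
        rfl
      · simp)
  rw [hnum, hden, mul_div_mul_left]
  · unfold Wv W0
    congr!
  · exact (pow_pos (Real.cosh_pos β) _).ne'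

end Pool.Agent.H48.SC
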