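import Pool.Agent.H48.SC.Plus
import Pool.Agent.H48.SC.MagN
import Pool.Agent.H48.SC.BoxG

/-! # The magnetisation -/

set_option autoImplicit false

namespace Pool.Agent.H48.SC

open Pool.Agent.H90.SC

variable {d : ℕ}

private theorem mag_mem_box {v : Vtx d} {N : ℕ} :
    v ∈ box d N ↔ ∀ i, -(N : ℤ) ≤ v i ∧ v i ≤ N := by
  unfold box
  simp only [Fintype.mem_piFinset, Finset.mem_Icc]

private theorem mag_so (x : Vtx d) :
    so (-x) (dl (some x) + dl none : Option (Vtx d) → ZMod 2) =
      dl (some (0 : Vtx d)) + dl none := by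
  funext v
  cases v with
  | none => simp [so, dl]
  | some v =>
    have h : (x = v - -x) ↔ ((0 : Vtx d) = v) := by
      constructor
      · intro h
        have h2 : v - -x - x = 0 := by
          rw [← h, sub_self]
        rw [← h2]
        abel
      · rintro rfl
        abel
    simp only [so, dl, Pi.add_apply, Option.some.injEq, reduceCtorEq, if_false, h]

private theorem mag_nonneg (N : ℕ) {β : ℝ} (hβ : 0 ≤ β) : 0 ≤ magN d N β := by
  rw [magN_eq N hβ]
  exact rr_nonneg _ _ (fun _ => hβ) _

private theorem mag_cobdd {β : ℝ} (hβ : 0 ≤ β) :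
    Filter.IsCoboundedUnder (· ≤ ·) Filter.atTop (fun N => magN d N β) := by
  have h : Filter.IsBoundedUnder (· ≥ ·) Filter.atTop (fun N => magN d N β) :=
    Filter.isBoundedUnder_of ⟨0, fun N => mag_nonneg N hβ⟩
  exact h.isCoboundedUnder_le

/-- The magnetisation is a lower bound for the mean spin at every vertex of the box. -/
theorem mag_le {N : ℕ} {β : ℝ} (hβ : 0 ≤ β) {x : Vtx d} (hx : x ∈ box d N) :
    mag d β ≤ rp N β (dl (some x) + dl none) := by
  unfold mag
  refine Filter.limsup_le_of_le (mag_cobdd hβ) ?_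
  filter_upwards [Filter.eventually_ge_atTop (N + N)] with N' hN'
  rw [magN_eq N' hβ, ← mag_so x]
  refine rp_le ?_ hβ _ ?_
  · intro v hv
    rw [mag_mem_box] at hv hx ⊢
    intro i
    have h1 := hv i
    have h2 := hx i
    have h3 : (N : ℤ) + N ≤ N' := by exact_mod_cast hN'
    rw [Pi.add_apply, Pi.neg_apply]
    constructor
    · linarith [h1.1, h2.2]
    · linarith [h1.2, h2.1]
  · intro v hv
    have hne : x ≠ v := by
      rintro rfl
      exact hv hx
    simp only [dl, Pi.add_apply, Option.some.injEq, reduceCtorEq, if_false, add_zero]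
    rw [if_neg hne]

theorem mag_mono {β β' : ℝ} (hβ : 0 ≤ β) (h : β ≤ β') : mag d β ≤ mag d β' := by
  unfold mag
  refine Filter.limsup_le_limsup ?_ (mag_cobdd hβ) ?_
  · refine Filter.Eventually.of_forall fun N => ?_
    show magN d N β ≤ magN d N β'
    rw [magN_eq N hβ, magN_eq N (hβ.trans h)]
    exact rr_mono _ _ (fun _ => hβ) (fun _ => h) _
  · refine Filter.isBoundedUnder_of ⟨1, fun N => ?_⟩
    show magN d N β' ≤ 1
    rw [magN_eq N (hβ.trans h)]
    exact rr_le_one _ _ (fun _ => hβ.trans h) _

end Pool.Agent.H48.SC
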