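import Pool.Agent.H48.SC.EnLim
import Pool.Agent.H48.SC.Ghost
import Pool.Agent.H48.SC.EdgeIneq

/-! # The difference of the plus state and the free state -/

set_option autoImplicit false

namespace Pool.Agent.H48.SC

open Pool.Agent.H90.SC Filter Topology

variable {d : ℕ}

private def pf_Adj (u v : Vtx d) : Prop :=
  ∃ e : Edg d, (e.1 = u ∧ tip e = v) ∨ (e.1 = v ∧ tip e = u)

private theorem pf_symm {x y : Vtx d} (h : Relation.ReflTransGen (pf_Adj (d := d)) x y) :
    Relation.ReflTransGen (pf_Adj (d := d)) y x := by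
  induction h with
  | refl => exact Relation.ReflTransGen.refl
  | tail _ hyz ih =>
    obtain ⟨e, he⟩ := hyz
    exact Relation.ReflTransGen.head ⟨e, he.symm⟩ ih

private def pf_sub (d : ℕ) : AddSubgroup (Vtx d) where
  carrier := {v | ∀ x, Relation.ReflTransGen (pf_Adj (d := d)) x (x + v)}
  zero_mem' := fun x => by rw [add_zero]
  add_mem' := by
    intro v w hv hw x
    rw [← add_assoc]
    exact (hv x).trans (hw (x + v))
  neg_mem' := by
    intro v hv x
    have h := hv (x + -v)
    rw [neg_add_cancel_right] at h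
    exact pf_symm h

private theorem pf_conn (x y : Vtx d) : Relation.ReflTransGen (pf_Adj (d := d)) x y := by
  have h1 : ∀ i : Fin d, (Pi.single i 1 : Vtx d) ∈ pf_sub d := by
    intro i x
    exact Relation.ReflTransGen.single ⟨(x, i), Or.inl ⟨rfl, rfl⟩⟩
  have h2 : ∀ v : Vtx d, v ∈ pf_sub d := by
    intro v
    have e : v = ∑ i, v i • (Pi.single i 1 : Vtx d) := by
      funext j
      rw [Finset.sum_apply, Finset.sum_eq_single j]
      · simp
      · intro b _ hb
        simp [Pi.single_eq_of_ne (Ne.symm hb)]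
      · intro h
        exact absurd (Finset.mem_univ j) h
    rw [e]
    exact AddSubgroup.sum_mem _ fun i _ => AddSubgroup.zsmul_mem _ (h1 i) _
  have h3 := h2 (y - x) x
  rwa [add_sub_cancel] at h3

/-- Two vertices of `ℤ^d` are joined by a path. -/
theorem exists_path (x y : Vtx d) : ∃ (k : ℕ) (u : ℕ → Vtx d), u 0 = x ∧ u k = y ∧
    ∀ i < k, ∃ e : Edg d, (e.1 = u i ∧ tip e = u (i + 1)) ∨ (e.1 = u (i + 1) ∧ tip e = u i) := by
  have h := pf_conn x y
  induction h with
  | refl => exact ⟨0, fun _ => x, rfl, rfl, fun i hi => absurd hi (Nat.not_lt_zero i)⟩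
  | @tail z w _ hyz ih =>
    obtain ⟨k, u, h0, hk, hp⟩ := ih
    refine ⟨k + 1, fun i => if i ≤ k then u i else w, ?_, ?_, ?_⟩
    · simp [h0]
    · simp
    · intro i hi
      by_cases hik : i < k
      · obtain ⟨e, he⟩ := hp i hik
        refine ⟨e, ?_⟩
        simp only [if_pos hik.le, if_pos (Nat.succ_le_of_lt hik)]
        exact he
      · have hi' : i = k := by omega
        subst hi'
        obtain ⟨e, he⟩ := hyz
        refine ⟨e, ?_⟩
        simp only [if_pos le_rfl, if_neg (Nat.not_succ_le_self i), hk]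
        exact he

private theorem pf_mem_boxE {e : Edg d} {N : ℕ} :
    e ∈ boxE d N ↔ e.1 ∈ box d N ∧ tip e ∈ box d N := by
  unfold boxE
  simp only [Finset.mem_filter, Finset.mem_product, Finset.mem_univ, and_true]

private theorem pf_box_touch (N : ℕ) : boxE d N ⊆ touchE d N := by
  intro e he
  unfold touchE
  rw [Finset.mem_filter]
  exact ⟨boxE_mono (Nat.le_succ N) he, Or.inl (pf_mem_boxE.1 he).1⟩

/-- The difference of the two states at the points `x`, `y`, in terms of the difference of the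
energies. -/
theorem plus_free (x y : Vtx d) : ∃ k : ℕ, ∀ (β ε : ℝ), 0 < β → 0 < ε →
    (∀ i : Fin d, ep i β - ef i β ≤ ε) → ∃ N0, ∀ N ≥ N0,
      rp N β (dl (some x) + dl (some y)) - rt (boxE d N) β (dl x + dl y) ≤
        k * (1 / Real.tanh β) ^ k * (2 * ε) := by
  obtain ⟨k, u, h0, hk, hp⟩ := exists_path x y
  refine ⟨k, ?_⟩
  intro β ε hβ hε hen
  have hev : ∀ i ∈ Set.Iio k, ∀ᶠ N in atTop, ∃ e ∈ boxE d N,
      ((e.1 = u i ∧ tip e = u (i + 1)) ∨ (e.1 = u (i + 1) ∧ tip e = u i)) ∧
      epN N β e - efN N β e ≤ 2 * ε := by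
    intro i hi
    obtain ⟨e, he⟩ := hp i hi
    have h1 := (ep_tendsto hβ.le e).sub (ef_tendsto hβ.le e)
    have h2 : ep e.2 β - ef e.2 β < 2 * ε := by
      have := hen e.2
      linarith
    obtain ⟨M, hM⟩ := exists_box {e}
    filter_upwards [h1.eventually (gt_mem_nhds h2), eventually_ge_atTop M] with N hN hMN
    exact ⟨e, boxE_mono hMN (hM (Finset.mem_singleton_self e)), he, hN.le⟩
  obtain ⟨N1, hN1⟩ := eventually_atTop.1 ((Filter.eventually_all_finite (Set.finite_Iio k)).2 hev)
  refine ⟨N1, ?_⟩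
  intro N hNN
  have hΛ : ∀ f ∈ boxE d N, f.1 ∈ box d N ∧ tip f ∈ box d N := fun f hf => pf_mem_boxE.1 hf
  have hfree : ∀ p q : Vtx d, rt (boxE d N) β (dl p + dl q) =
      rr (fun f : {f // f ∈ touchE d N} => mg (box d N) f.1.1) (fun f => mg (box d N) (tip f.1))
        (fun f => if f.1 ∈ boxE d N then β else 0) (dl (some p) + dl (some q)) := by
    intro p q
    rw [rt_ghost (box d N) (pf_box_touch N) hΛ, lf_add, lf_dl, lf_dl]
  have hplus : ∀ s, rp N β s =
      rr (fun f : {f // f ∈ touchE d N} => mg (box d N) f.1.1) (fun f => mg (box d N) (tip f.1))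
        (fun _ => β) s := fun s => rfl
  have hpath := path_ineq (fun f : {f // f ∈ touchE d N} => mg (box d N) f.1.1)
    (fun f => mg (box d N) (tip f.1)) (J := fun f => if f.1 ∈ boxE d N then β else 0)
    (J' := fun _ => β) (fun f => by split_ifs <;> linarith)
    (fun f => by split_ifs <;> linarith) (ε := 2 * ε) hβ (fun i => some (u i)) k ?_
  · rw [hfree, hplus, ← h0, ← hk]
    exact hpath
  · intro i hi
    obtain ⟨e, hei, he, h5⟩ := hN1 N hNN i hi
    have hm := pf_mem_boxE.1 hei
    refine ⟨⟨e, pf_box_touch N hei⟩, ?_, rfl, ?_, ?_⟩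
    · simp only [if_pos hei]
    · rcases he with ⟨ha, hb⟩ | ⟨ha, hb⟩
      · left
        constructor
        · simp only [mg]
          rw [if_pos hm.1, ha]
        · simp only [mg]
          rw [if_pos hm.2, hb]
      · right
        constructor
        · simp only [mg]
          rw [if_pos hm.1, ha]
        · simp only [mg]
          rw [if_pos hm.2, hb]
    · rw [← hfree, ← hplus]
      unfold epN efN at h5
      rcases he with ⟨ha, hb⟩ | ⟨ha, hb⟩
      · rw [ha, hb] at h5
        exact h5
      · rw [ha, hb, add_comm (dl (some (u (i + 1)))), add_comm (dl (u (i + 1)))] at h5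
        exact h5

end Pool.Agent.H48.SC
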