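import Pool.Agent.H48.SC.Close
import Pool.Agent.H48.SC.Mag
import Pool.Agent.H48.SC.PlusFree

/-! # Long range order in the free state above the critical point -/

set_option autoImplicit false

namespace Pool.Agent.H48.SC

open Pool.Agent.H90.SC Filter Topology

variable {d : ℕ}

private theorem lro_exists {b : ℝ} (hb : betaC d < ENNReal.ofReal b) :
    ∃ b0 : ℝ, 0 ≤ b0 ∧ b0 < b ∧ 0 < mag d b0 := by
  unfold betaC at hb
  obtain ⟨t, ⟨b0, ⟨h0, hm⟩, rfl⟩, hlt⟩ := sInf_lt_iff.1 hb
  exact ⟨b0, h0, (ENNReal.ofReal_lt_ofReal_iff_of_nonneg h0).1 hlt, hm⟩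

private theorem lro_tanh_pos {a : ℝ} (h : 0 < a) : 0 < Real.tanh a := by
  rw [Real.tanh_eq_sinh_div_cosh]
  exact div_pos (Real.sinh_pos_iff.2 h) (Real.cosh_pos a)

private theorem lro_tanh_le {a b : ℝ} (h : a ≤ b) : Real.tanh a ≤ Real.tanh b := by
  rw [Real.tanh_eq_sinh_div_cosh, Real.tanh_eq_sinh_div_cosh,
    div_le_div_iff₀ (Real.cosh_pos a) (Real.cosh_pos b)]
  have h1 : 0 ≤ Real.sinh (b - a) := Real.sinh_nonneg_iff.2 (by linarith)
  rw [Real.sinh_sub] at h1
  linarith

private theorem lro_mem_box (x : Vtx d) {N : ℕ} (h : ∑ i, (x i).natAbs ≤ N) : x ∈ box d N := by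
  unfold box
  rw [Fintype.mem_piFinset]
  intro i
  have h1 : (x i).natAbs ≤ N :=
    (Finset.single_le_sum (f := fun i => (x i).natAbs) (fun _ _ => Nat.zero_le _)
      (Finset.mem_univ i)).trans h
  rw [Finset.mem_Icc]
  omega

private theorem lro_two {N : ℕ} {β m : ℝ} (hβ : 0 ≤ β) (hm : 0 ≤ m) {x y : Vtx d}
    (hx : m ≤ rp N β (dl (some x) + dl none)) (hy : m ≤ rp N β (dl (some y) + dl none)) :
    m * m ≤ rp N β (dl (some x) + dl (some y)) := by
  have h1 : rp N β (dl (some x) + dl none) * rp N β (dl (some y) + dl none) ≤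
      rp N β ((dl (some x) + dl none) + (dl (some y) + dl none)) :=
    rr_gks _ _ (fun _ => hβ) _ _
  have h2 : ((dl (some x) + dl none) + (dl (some y) + dl none) : Option (Vtx d) → ZMod 2) =
      dl (some x) + dl (some y) := by
    have h3 : (dl none + dl none : Option (Vtx d) → ZMod 2) = 0 := by
      funext v
      exact CharTwo.add_self_eq_zero _
    rw [add_add_add_comm, h3, add_zero]
  rw [h2] at h1
  exact (mul_le_mul hx hy hm (hm.trans hx)).trans h1

/-- Long range order in the free state. -/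
theorem lro {b : ℝ} (hb : betaC d < ENNReal.ofReal b) :
    ∃ c > 0, ∀ x y : Vtx d, ∃ N0, ∀ N ≥ N0, c ≤ rt (boxE d N) b (dl x + dl y) := by
  obtain ⟨b0, h0, hlt, hm⟩ := lro_exists hb
  set m := mag d b0 with hmdef
  refine ⟨m * m / 2, by positivity, fun x y => ?_⟩
  obtain ⟨k, hk⟩ := plus_free x y
  have hb1 : 0 < (b0 + b) / 2 := by linarith
  have ht1 : 0 < Real.tanh ((b0 + b) / 2) := lro_tanh_pos hb1
  set A : ℝ := k * (1 / Real.tanh ((b0 + b) / 2)) ^ k with hA
  have hA0 : 0 ≤ A := by positivity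
  set ε : ℝ := m * m / 4 / (A + 1) with hε
  have hε0 : 0 < ε := by positivity
  obtain ⟨b'', hb1', hb2', hcl⟩ := exists_close (d := d) hb1.le (by linarith : (b0 + b) / 2 < b) hε0
  have hb''0 : 0 < b'' := hb1.trans hb1'
  obtain ⟨N0, hN0⟩ := hk b'' ε hb''0 hε0 hcl
  refine ⟨max N0 (max (∑ i, (x i).natAbs) (∑ i, (y i).natAbs)), fun N hN => ?_⟩
  have hx : x ∈ box d N :=
    lro_mem_box x ((le_max_left _ _).trans ((le_max_right _ _).trans hN))
  have hy : y ∈ box d N :=
    lro_mem_box y ((le_max_right _ _).trans ((le_max_right _ _).trans hN))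
  have hmm : m ≤ mag d b'' := mag_mono h0 (by linarith)
  have h1 := lro_two (N := N) hb''0.le hm.le (hmm.trans (mag_le hb''0.le hx))
    (hmm.trans (mag_le hb''0.le hy))
  have h2 := hN0 N ((le_max_left _ _).trans hN)
  have h3 : (k : ℝ) * (1 / Real.tanh b'') ^ k * (2 * ε) ≤ A * (2 * ε) := by
    have ht : Real.tanh ((b0 + b) / 2) ≤ Real.tanh b'' := lro_tanh_le hb1'.le
    have ht2 : 1 / Real.tanh b'' ≤ 1 / Real.tanh ((b0 + b) / 2) :=
      one_div_le_one_div_of_le ht1 ht
    have ht3 : 0 ≤ 1 / Real.tanh b'' := by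
      have := ht1.trans_le ht
      positivity
    have := pow_le_pow_left₀ ht3 ht2 k
    exact mul_le_mul_of_nonneg_right (mul_le_mul_of_nonneg_left this (Nat.cast_nonneg k))
      (by positivity)
  have h4 : A * (2 * ε) ≤ m * m / 2 := by
    have e : A * (2 * ε) = m * m / 2 * (A / (A + 1)) := by
      rw [hε]
      field_simp
      ring
    rw [e]
    have h5 : A / (A + 1) ≤ 1 := by
      rw [div_le_one (by linarith)]
      linarith
    have h6 : 0 ≤ m * m / 2 := by positivity
    nlinarith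
  have h5 := rt_mono_beta (boxE d N) hb''0.le hb2'.le (dl x + dl y)
  linarith

end Pool.Agent.H48.SC
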