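import Pool.Agent.H48.SC.Rr

/-! # Merging vertices increases the correlations -/

set_option autoImplicit false

namespace Pool.Agent.H48.SC

/-- Merge the vertices of `M` into `g`. -/
def mrg {W : Type*} [DecidableEq W] (M : Finset W) (g v : W) : W := if v ∈ M then g else v

variable {E W : Type*} [Fintype E] [DecidableEq E] [DecidableEq W]

private theorem Merge_cases (c : ZMod 2) : c = 0 ∨ c = 1 := by
  revert c
  decide

private theorem Merge_self {X : Type*} (c : X → ZMod 2) : c + c = 0 :=
  funext fun x => CharTwo.add_self_eq_zero (c x)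

/-- The indicator of `mrg M g w = v`. -/
private theorem Merge_ind (M : Finset W) (g : W) (hg : g ∉ M) (w v : W) :
    (if mrg M g w = v then (1 : ZMod 2) else 0) =
      (if w = v then 1 else 0) + ∑ u ∈ M, (if w = u then 1 else 0) * (dl u v + dl g v) := by
  by_cases hw : w ∈ M
  · rw [Finset.sum_eq_single_of_mem w hw (fun u _ hu => by rw [if_neg (Ne.symm hu), zero_mul]),
      if_pos rfl, one_mul]
    unfold mrg dl
    rw [if_pos hw]
    by_cases h1 : w = v
    · rw [if_pos h1]
      have : g ≠ v := fun h => hg (by rw [h, ← h1]; exact hw)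
      rw [if_neg this]
      decide
    · rw [if_neg h1]
      ring
  · rw [Finset.sum_eq_zero, add_zero]
    · unfold mrg
      rw [if_neg hw]
    · intro u hu
      rw [if_neg (fun h => hw (by rw [h]; exact hu)), zero_mul]

private theorem Merge_bd (a b : E → W) (M : Finset W) (g : W) (hg : g ∉ M) (η : E → ZMod 2) :
    bd (fun e => mrg M g (a e)) (fun e => mrg M g (b e)) η =
      fun v => bd a b η v + ∑ u ∈ M, bd a b η u * (dl u v + dl g v) := by
  funext v
  unfold bd
  have h1 : ∑ u ∈ M, (∑ e, η e * ((if a e = u then 1 else 0) + (if b e = u then 1 else 0))) *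
      (dl u v + dl g v) = ∑ e, η e * (∑ u ∈ M, (if a e = u then 1 else 0) * (dl u v + dl g v) +
        ∑ u ∈ M, (if b e = u then 1 else 0) * (dl u v + dl g v)) := by
    simp only [Finset.sum_mul]
    rw [Finset.sum_comm]
    refine Finset.sum_congr rfl fun e _ => ?_
    rw [← Finset.sum_add_distrib, Finset.mul_sum]
    refine Finset.sum_congr rfl fun u _ => ?_
    ring
  rw [h1, ← Finset.sum_add_distrib]
  refine Finset.sum_congr rfl fun e _ => ?_
  simp only
  rw [Merge_ind M g hg (a e) v, Merge_ind M g hg (b e) v]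
  ring

private theorem Merge_dl (A M : Finset W) (hA : A ⊆ M) (g : W) (hg : g ∉ M) (v : W)
    (hv : v ∈ M) : (∑ u ∈ A, (dl u + dl g)) v = if v ∈ A then 1 else 0 := by
  rw [Finset.sum_apply]
  have hgv : g ≠ v := fun h => hg (by rw [h]; exact hv)
  have h1 : ∀ u ∈ A, (dl u + dl g) v = if u = v then (1 : ZMod 2) else 0 := by
    intro u _
    rw [Pi.add_apply]
    unfold dl
    rw [if_neg hgv, add_zero]
  rw [Finset.sum_congr rfl h1, Finset.sum_ite_eq' A v]

/-- The sum over `A = {v ∈ M | f v = 1}`. -/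
private theorem Merge_A (M : Finset W) (g : W) (f : W → ZMod 2) :
    (fun v => ∑ u ∈ M, f u * (dl u v + dl g v)) =
      ∑ u ∈ M.filter (fun u => f u = 1), (dl u + dl g) := by
  funext v
  rw [Finset.sum_apply, Finset.sum_filter]
  refine Finset.sum_congr rfl fun u _ => ?_
  rcases Merge_cases (f u) with h | h
  · rw [h, if_neg (by decide), zero_mul]
  · rw [h, if_pos rfl, one_mul]
    rfl

private theorem Merge_key (a b : E → W) (M : Finset W) (g : W) (hg : g ∉ M) (s : W → ZMod 2)
    (hs : ∀ v ∈ M, s v = 0) (η : E → ZMod 2) :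
    ind (bd (fun e => mrg M g (a e)) (fun e => mrg M g (b e)) η = s) =
      ∑ A ∈ M.powerset, ind (bd a b η = s + ∑ v ∈ A, (dl v + dl g)) := by
  have h1 : bd (fun e => mrg M g (a e)) (fun e => mrg M g (b e)) η =
      bd a b η + ∑ u ∈ M.filter (fun u => bd a b η u = 1), (dl u + dl g) := by
    rw [Merge_bd a b M g hg η, ← Merge_A M g (bd a b η)]
    rfl
  rw [h1]
  generalize bd a b η = f
  have huniq : ∀ A ∈ M.powerset, f = s + ∑ v ∈ A, (dl v + dl g) →
      A = M.filter (fun u => f u = 1) := by
    intro A hA hf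
    have hA' := Finset.mem_powerset.mp hA
    ext v
    rw [Finset.mem_filter]
    constructor
    · intro hv
      refine ⟨hA' hv, ?_⟩
      rw [hf, Pi.add_apply, Merge_dl A M hA' g hg v (hA' hv), hs v (hA' hv), if_pos hv, zero_add]
    · rintro ⟨hv, h2⟩
      rw [hf, Pi.add_apply, Merge_dl A M hA' g hg v hv, hs v hv, zero_add] at h2
      by_contra h3
      rw [if_neg h3] at h2
      exact absurd h2 (by decide)
  have hmem : M.filter (fun u => f u = 1) ∈ M.powerset :=
    Finset.mem_powerset.mpr (Finset.filter_subset _ _)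
  rw [Finset.sum_eq_single_of_mem _ hmem]
  · by_cases h : f + ∑ u ∈ M.filter (fun u => f u = 1), (dl u + dl g) = s
    · rw [ind_true h, ind_true]
      rw [← h, add_assoc, Merge_self, add_zero]
    · rw [ind_false h, ind_false]
      intro h2
      apply h
      generalize (∑ u ∈ M.filter (fun u => f u = 1), (dl u + dl g)) = S at h2 ⊢
      rw [h2, add_assoc, Merge_self, add_zero]
  · intro A hA hne
    rw [ind_false]
    intro h
    exact hne (huniq A hA h)

theorem Z_merge (a b : E → W) (J : E → ℝ) (M : Finset W) (g : W) (hg : g ∉ M) (s : W → ZMod 2)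
    (hs : ∀ v ∈ M, s v = 0) :
    Z (fun e => mrg M g (a e)) (fun e => mrg M g (b e)) J s =
      ∑ A ∈ M.powerset, Z a b J (s + ∑ v ∈ A, (dl v + dl g)) := by
  unfold Z
  rw [Finset.sum_comm]
  refine Finset.sum_congr rfl fun η _ => ?_
  rw [Merge_key a b M g hg s hs η, Finset.sum_mul]

theorem rr_merge (a b : E → W) {J : E → ℝ} (hJ : ∀ e, 0 ≤ J e) (M : Finset W) (g : W)
    (hg : g ∉ M) (s : W → ZMod 2) (hs : ∀ v ∈ M, s v = 0) :
    rr a b J s ≤ rr (fun e => mrg M g (a e)) (fun e => mrg M g (b e)) J s := by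
  unfold rr
  rw [div_le_div_iff₀ (Z_zero_pos a b J hJ) (Z_zero_pos _ _ J hJ),
    Z_merge a b J M g hg s hs, Z_merge a b J M g hg 0 (fun v _ => rfl), Finset.mul_sum,
    Finset.sum_mul]
  refine Finset.sum_le_sum fun A _ => ?_
  rw [zero_add]
  exact gks' a b J hJ s _

end Pool.Agent.H48.SC
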