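import Pool.Agent.H48.SC.PCyl

/-! # Limit measures are translation invariant -/

set_option autoImplicit false

namespace Pool.Agent.H48.SC

open Pool.Agent.H90.SC MeasureTheory Filter Topology

variable {d : ℕ}

theorem mu_cyl {β : ℝ} (hβ : 0 ≤ β) {μ : Measure (Edg d → ℕ)} (hμ : IsLimit d β μ)
    (F : Finset (Edg d)) (k : Edg d → ℕ) : μ.real (cyl F k) = Lc F β k := by
  obtain ⟨φ, hφ, h⟩ := hμ
  have h1 := h F k
  have h2 := (Lc_tendsto F hβ k).comp hφ.tendsto_atTop
  exact tendsto_nhds_unique h1 h2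

theorem measurable_sn (z : Vtx d) : Measurable (sn (d := d) z) :=
  measurable_pi_lambda _ fun e => measurable_pi_apply (e.1 + z, e.2)

private theorem MuA_cyl_meas (F : Finset (Edg d)) (k : Edg d → ℕ) :
    MeasurableSet (cyl F k : Set (Edg d → ℕ)) := by
  have h : (cyl F k : Set (Edg d → ℕ)) = ⋂ e ∈ F, (fun n : Edg d → ℕ => n e) ⁻¹' {k e} := by
    ext n
    simp [cyl]
  rw [h]
  exact Finset.measurableSet_biInter F fun e _ =>
    measurable_pi_apply e (measurableSet_singleton _)

private theorem MuA_gen : (inferInstance : MeasurableSpace (Edg d → ℕ)) =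
    MeasurableSpace.generateFrom {A | ∃ F k, A = cyl F k} := by
  apply le_antisymm
  · refine iSup_le fun e => ?_
    rintro _ ⟨s, -, rfl⟩
    have h : ((fun b : Edg d → ℕ => b e) ⁻¹' s) = ⋃ j ∈ s, cyl {e} (fun _ => j) := by
      ext n
      simp [cyl]
    rw [h]
    exact MeasurableSet.biUnion s.to_countable fun j _ =>
      MeasurableSpace.measurableSet_generateFrom ⟨_, _, rfl⟩
  · refine MeasurableSpace.generateFrom_le ?_
    rintro _ ⟨F, k, rfl⟩
    exact MuA_cyl_meas F k

private theorem MuA_pi : IsPiSystem {A : Set (Edg d → ℕ) | ∃ F k, A = cyl F k} := by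
  rintro _ ⟨F, k, rfl⟩ _ ⟨G, l, rfl⟩ ⟨n, hn1, hn2⟩
  refine ⟨F ∪ G, n, ?_⟩
  ext m
  constructor
  · rintro ⟨h1, h2⟩ e he
    rcases Finset.mem_union.1 he with he | he
    · rw [h1 e he, hn1 e he]
    · rw [h2 e he, hn2 e he]
  · intro h
    constructor
    · intro e he
      rw [h e (Finset.mem_union_left _ he), hn1 e he]
    · intro e he
      rw [h e (Finset.mem_union_right _ he), hn2 e he]

/-- Translation invariance. -/
theorem mu_shift {β : ℝ} (hβ : 0 ≤ β) {μ : Measure (Edg d → ℕ)} [IsProbabilityMeasure μ]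
    (hμ : IsLimit d β μ) (z : Vtx d) : μ.map (sn z) = μ := by
  haveI : IsProbabilityMeasure (μ.map (sn z)) :=
    Measure.isProbabilityMeasure_map (measurable_sn z).aemeasurable
  refine ext_of_generate_finite _ MuA_gen MuA_pi ?_ (by simp)
  rintro _ ⟨F, k, rfl⟩
  rw [Measure.map_apply (measurable_sn z) (MuA_cyl_meas F k)]
  have h1 : sn z ⁻¹' cyl F k = cyl (sE z F) (fun e => k (e.1 - z, e.2)) := by
    ext n
    constructor
    · intro h e he
      have := h _ (mem_sE.1 he)
      simpa [sn] using this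
    · intro h e he
      have h2 : ((e.1 + z, e.2) : Edg d) ∈ sE z F := by
        rw [mem_sE]
        simpa using he
      have := h _ h2
      simpa [sn] using this
  rw [h1]
  have h2 : μ.real (cyl (sE z F) (fun e => k (e.1 - z, e.2))) = μ.real (cyl F k) := by
    rw [mu_cyl hβ hμ, mu_cyl hβ hμ, Lc_shift z F hβ k]
  rw [measureReal_def, measureReal_def] at h2
  exact (ENNReal.toReal_eq_toReal_iff' (measure_ne_top _ _) (measure_ne_top _ _)).1 h2

end Pool.Agent.H48.SC
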