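import Pool.Agent.H48.SC.RtInf
import Pool.Agent.H48.SC.CurGen

/-! # Infinite volume limits of the cylinder probabilities -/

set_option autoImplicit false

namespace Pool.Agent.H48.SC

open Pool.Agent.H90.SC MeasureTheory Filter Topology

variable {d : ℕ}

private theorem PCyl_true (E : Finset (Edg d)) (β : ℝ) (s : Vtx d → ZMod 2) :
    (ZfE E β s fun _ => ind True) = ZE E β s := by
  unfold ZfE ZE
  simp only [ind_true trivial]
  exact Zf_one _ _ _ _

theorem curSum_univ (E : Finset (Edg d)) (β : ℝ) : curSum β E Set.univ = ZE E β 0 := by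
  have h := curSum_gen β E ∅ (Finset.empty_subset E) (fun _ => 0) (fun _ => True)
  have h1 : {n : Edg d → ℕ | n ∈ cyl ∅ (fun _ => 0) ∧ True} = Set.univ := by
    ext n
    simp [cyl]
  have h2 : bdF (∅ : Finset (Edg d)) (fun _ => 0) = 0 := by
    funext v
    simp [bdF]
  rw [h1, PCyl_true, h2, Finset.prod_empty, one_mul, Finset.sdiff_empty] at h
  exact h

private theorem PCyl_num {E F : Finset (Edg d)} (hF : F ⊆ E) (β : ℝ) (k : Edg d → ℕ) :
    curSum β E (cyl F k) = (∏ e ∈ F, β ^ k e / (k e).factorial) * ZE (E \ F) β (bdF F k) := by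
  have h := curSum_gen β E F hF k (fun _ => True)
  have h1 : {n : Edg d → ℕ | n ∈ cyl F k ∧ True} = cyl F k := by
    ext n
    simp
  rw [h1, PCyl_true] at h
  exact h

theorem Pcur_cyl {E F : Finset (Edg d)} (hF : F ⊆ E) {β : ℝ} (hβ : 0 ≤ β) (k : Edg d → ℕ) :
    Pcur β E (cyl F k) = (∏ e ∈ F, β ^ k e / (k e).factorial) * rt (E \ F) β (bdF F k) /
      ∑ η : {e // e ∈ F} → ZMod 2, (∏ e, w1 β (η e)) * rt (E \ F) β (bd (ea F) (eb F) η) := by
  unfold Pcur
  rw [curSum_univ, PCyl_num hF, ZE_split E F hF β 0]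
  have hz : ZE (E \ F) β 0 ≠ 0 := (ZE_pos (E \ F) hβ).ne'
  unfold rt
  have h1 : ∑ η : {e // e ∈ F} → ZMod 2, (∏ e, w1 β (η e)) *
      (ZE (E \ F) β (bd (ea F) (eb F) η) / ZE (E \ F) β 0) =
      (∑ η : {e // e ∈ F} → ZMod 2, (∏ e, w1 β (η e)) *
        ZE (E \ F) β (0 + bd (ea F) (eb F) η)) / ZE (E \ F) β 0 := by
    rw [Finset.sum_div]
    apply Finset.sum_congr rfl
    intro η _
    rw [zero_add, mul_div_assoc]
  rw [h1, ← mul_div_assoc, div_div_div_cancel_right₀ hz]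

/-- The limit of the cylinder probabilities. -/
noncomputable def Lc (F : Finset (Edg d)) (β : ℝ) (k : Edg d → ℕ) : ℝ :=
  (∏ e ∈ F, β ^ k e / (k e).factorial) * rI F β (bdF F k) /
      ∑ η : {e // e ∈ F} → ZMod 2, (∏ e, w1 β (η e)) * rI F β (bd (ea F) (eb F) η)

private theorem PCyl_w1 {β : ℝ} (hβ : 0 ≤ β) (η : ZMod 2) : 0 ≤ w1 β η := by
  unfold w1
  split_ifs
  · exact (Real.cosh_pos β).le
  · exact Real.sinh_nonneg_iff.mpr hβ

private theorem PCyl_den (F : Finset (Edg d)) {β : ℝ} (hβ : 0 ≤ β) :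
    0 < ∑ η : {e // e ∈ F} → ZMod 2, (∏ e, w1 β (η e)) * rI F β (bd (ea F) (eb F) η) := by
  have h1 : ∀ η ∈ (Finset.univ : Finset ({e // e ∈ F} → ZMod 2)),
      0 ≤ (∏ e, w1 β (η e)) * rI F β (bd (ea F) (eb F) η) := by
    intro η _
    exact mul_nonneg (Finset.prod_nonneg fun e _ => PCyl_w1 hβ _) (rI_nonneg F hβ _)
  refine lt_of_lt_of_le ?_ (Finset.single_le_sum h1 (Finset.mem_univ 0))
  rw [bd_zero, rI_zero F hβ, mul_one]
  refine Finset.prod_pos fun e _ => ?_
  unfold w1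
  rw [Pi.zero_apply, if_pos rfl]
  exact Real.cosh_pos β

theorem Lc_tendsto (F : Finset (Edg d)) {β : ℝ} (hβ : 0 ≤ β) (k : Edg d → ℕ) :
    Tendsto (fun N => Pcur β (boxE d N) (cyl F k)) atTop (𝓝 (Lc F β k)) := by
  obtain ⟨N0, hN0⟩ := exists_box F
  have h1 : Tendsto (fun N => (∏ e ∈ F, β ^ k e / (k e).factorial) *
      rt (boxE d N \ F) β (bdF F k) /
      ∑ η : {e // e ∈ F} → ZMod 2, (∏ e, w1 β (η e)) *
        rt (boxE d N \ F) β (bd (ea F) (eb F) η)) atTop (𝓝 (Lc F β k)) := by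
    unfold Lc
    refine Tendsto.div ((rI_tendsto F hβ _).const_mul _) ?_ (PCyl_den F hβ).ne'
    exact tendsto_finsetSum _ fun η _ => (rI_tendsto F hβ _).const_mul _
  refine h1.congr' ?_
  filter_upwards [eventually_ge_atTop N0] with N hN
  exact (Pcur_cyl (hN0.trans (boxE_mono hN)) hβ k).symm

private theorem PCyl_inj (z : Vtx d) : Function.Injective fun e : Edg d => (e.1 + z, e.2) := by
  intro e f h
  simp only [Prod.mk.injEq, add_left_inj] at h
  exact Prod.ext h.1 h.2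

private theorem PCyl_bdF (z : Vtx d) (F : Finset (Edg d)) (k : Edg d → ℕ) :
    bdF (sE z F) (fun e => k (e.1 - z, e.2)) = sv z (bdF F k) := by
  funext v
  unfold sv bdF sE
  rw [Finset.sum_image (fun e _ f _ h => PCyl_inj z h)]
  apply Finset.sum_congr rfl
  intro e _
  simp only [add_sub_cancel_right]
  have h1 : (e.1 + z = v) ↔ (e.1 = v - z) := eq_sub_iff_add_eq.symm
  have h2 : (tip (e.1 + z, e.2) = v) ↔ (tip e = v - z) := by
    rw [tip_add]
    exact eq_sub_iff_add_eq.symm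
  simp only [h1, h2]

/-- The translation of the edges. -/
private noncomputable def PCyl_eqv (z : Vtx d) (F : Finset (Edg d)) :
    {e // e ∈ F} ≃ {e // e ∈ sE z F} where
  toFun e := ⟨(e.1.1 + z, e.1.2), by rw [mem_sE]; simpa using e.2⟩
  invFun e := ⟨(e.1.1 - z, e.1.2), mem_sE.mp e.2⟩
  left_inv e := by
    apply Subtype.ext
    simp
  right_inv e := by
    apply Subtype.ext
    simp

private theorem PCyl_bd (z : Vtx d) (F : Finset (Edg d)) (ν : {e // e ∈ F} → ZMod 2) :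
    bd (ea (sE z F)) (eb (sE z F)) (fun e => ν ((PCyl_eqv z F).symm e)) =
      sv z (bd (ea F) (eb F) ν) := by
  funext v
  unfold sv bd
  rw [← Equiv.sum_comp (PCyl_eqv z F)]
  apply Finset.sum_congr rfl
  intro e _
  simp only [Equiv.symm_apply_apply]
  have h1 : (ea (sE z F) (PCyl_eqv z F e) = v) ↔ (ea F e = v - z) := by
    unfold ea
    exact eq_sub_iff_add_eq.symm
  have h2 : (eb (sE z F) (PCyl_eqv z F e) = v) ↔ (eb F e = v - z) := by
    unfold eb
    have : tip (PCyl_eqv z F e).1 = tip e.1 + z := tip_add e.1 z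
    rw [this]
    exact eq_sub_iff_add_eq.symm
  simp only [h1, h2]

theorem Lc_shift (z : Vtx d) (F : Finset (Edg d)) {β : ℝ} (hβ : 0 ≤ β) (k : Edg d → ℕ) :
    Lc (sE z F) β (fun e => k (e.1 - z, e.2)) = Lc F β k := by
  unfold Lc
  have h1 : ∏ e ∈ sE z F, β ^ k (e.1 - z, e.2) / (k (e.1 - z, e.2)).factorial =
      ∏ e ∈ F, β ^ k e / (k e).factorial := by
    unfold sE
    rw [Finset.prod_image (fun e _ f _ h => PCyl_inj z h)]
    apply Finset.prod_congr rfl
    intro e _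
    simp only [add_sub_cancel_right]
  have h2 : ∑ η : {e // e ∈ sE z F} → ZMod 2, (∏ e, w1 β (η e)) *
        rI (sE z F) β (bd (ea (sE z F)) (eb (sE z F)) η) =
      ∑ η : {e // e ∈ F} → ZMod 2, (∏ e, w1 β (η e)) * rI F β (bd (ea F) (eb F) η) := by
    rw [← Equiv.sum_comp ((PCyl_eqv z F).arrowCongr (Equiv.refl (ZMod 2)))]
    apply Finset.sum_congr rfl
    intro ν _
    have h3 : ((PCyl_eqv z F).arrowCongr (Equiv.refl (ZMod 2))) ν =
        fun e => ν ((PCyl_eqv z F).symm e) := by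
      funext e
      rfl
    rw [h3, PCyl_bd, rI_shift z F hβ]
    congr 1
    rw [← Equiv.prod_comp (PCyl_eqv z F)]
    apply Finset.prod_congr rfl
    intro e _
    simp only [Equiv.symm_apply_apply]
  rw [h1, h2, PCyl_bdF, rI_shift z F hβ]

end Pool.Agent.H48.SC
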