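import Pool.Agent.H48.SC.PlusDefs
import Pool.Agent.H48.SC.Merge

/-! # The plus state -/

set_option autoImplicit false

namespace Pool.Agent.H48.SC

open Pool.Agent.H90.SC

variable {d : ℕ}

/-! ### Reindexing -/

private theorem Plus_bd_equiv {E₁ E₂ V : Type*} [Fintype E₁] [Fintype E₂] [DecidableEq V]
    (φ : E₁ ≃ E₂) (a b : E₂ → V) (η : E₂ → ZMod 2) :
    bd (fun x => a (φ x)) (fun x => b (φ x)) (fun x => η (φ x)) = bd a b η := by
  funext v
  unfold bd
  exact Equiv.sum_comp φ fun e => η e * ((if a e = v then 1 else 0) + (if b e = v then 1 else 0))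

private theorem Plus_Z_equiv {E₁ E₂ V : Type*} [Fintype E₁] [Fintype E₂] [DecidableEq E₁]
    [DecidableEq E₂] [DecidableEq V]
    (φ : E₁ ≃ E₂) (a b : E₂ → V) (J : E₂ → ℝ) (s : V → ZMod 2) :
    Z (fun x => a (φ x)) (fun x => b (φ x)) (fun x => J (φ x)) s = Z a b J s := by
  unfold Z
  refine (Fintype.sum_equiv (φ.symm.arrowCongr (Equiv.refl (ZMod 2))) _ _ ?_).symm
  intro η
  have e1 : (φ.symm.arrowCongr (Equiv.refl (ZMod 2))) η = fun x => η (φ x) := by
    funext x
    simp [Equiv.arrowCongr]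
  rw [e1, Plus_bd_equiv]
  congr 1
  exact (Equiv.prod_comp φ fun e => w1 (J e) (η e)).symm

private theorem Plus_bd_map {E V V' : Type*} [Fintype E] [DecidableEq V] [DecidableEq V']
    (f : V → V') (hf : Function.Injective f) (a b : E → V) (η : E → ZMod 2) (v : V) :
    bd (fun x => f (a x)) (fun x => f (b x)) η (f v) = bd a b η v := by
  unfold bd
  refine Finset.sum_congr rfl fun e _ => ?_
  simp only [hf.eq_iff]

private theorem Plus_Z_map {E V V' : Type*} [Fintype E] [DecidableEq E] [DecidableEq V]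
    [DecidableEq V'] (f : V → V') (hf : Function.Bijective f) (a b : E → V) (J : E → ℝ)
    (s : V → ZMod 2) (s' : V' → ZMod 2) (hs : ∀ v, s' (f v) = s v) :
    Z (fun x => f (a x)) (fun x => f (b x)) J s' = Z a b J s := by
  unfold Z
  refine Finset.sum_congr rfl fun η _ => ?_
  congr 1
  have : (bd (fun x => f (a x)) (fun x => f (b x)) η = s') ↔ (bd a b η = s) := by
    constructor
    · intro h
      funext v
      rw [← Plus_bd_map f hf.1, h, hs]
    · intro h
      funext v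
      obtain ⟨u, rfl⟩ := hf.2 v
      rw [Plus_bd_map f hf.1, h, hs]
  rw [this]

/-- Loops only contribute a factor. -/
private theorem Plus_Z_loops {E₁ E₂ V : Type*} [Fintype E₁] [Fintype E₂] [DecidableEq E₁]
    [DecidableEq E₂] [DecidableEq V] (a b : E₁ ⊕ E₂ → V) (J : E₁ ⊕ E₂ → ℝ)
    (h : ∀ x : E₂, a (Sum.inr x) = b (Sum.inr x)) (s : V → ZMod 2) :
    Z a b J s = Z (fun x => a (Sum.inl x)) (fun x => b (Sum.inl x)) (fun x => J (Sum.inl x)) s *
      ∑ η : E₂ → ZMod 2, ∏ x, w1 (J (Sum.inr x)) (η x) := by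
  unfold Z
  rw [Finset.sum_mul_sum]
  rw [← Fintype.sum_prod_type'
    (f := fun (p : E₁ → ZMod 2) (q : E₂ → ZMod 2) =>
      ind (bd (fun x => a (Sum.inl x)) (fun x => b (Sum.inl x)) p = s) *
        (∏ e, w1 (J (Sum.inl e)) (p e)) * ∏ x, w1 (J (Sum.inr x)) (q x))]
  refine Fintype.sum_equiv (Equiv.sumArrowEquivProdArrow E₁ E₂ (ZMod 2)) _ _ ?_
  intro η
  show _ = ind (bd (fun x => a (Sum.inl x)) (fun x => b (Sum.inl x))
    (fun x => η (Sum.inl x)) = s) * (∏ e, w1 (J (Sum.inl e)) (η (Sum.inl e))) *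
      ∏ x, w1 (J (Sum.inr x)) (η (Sum.inr x))
  rw [Fintype.prod_sum_type]
  have : bd a b η = bd (fun x => a (Sum.inl x)) (fun x => b (Sum.inl x))
      (fun x => η (Sum.inl x)) := by
    funext v
    unfold bd
    rw [Fintype.sum_sum_type]
    have h2 : ∑ x : E₂, η (Sum.inr x) * ((if a (Sum.inr x) = v then 1 else 0) +
        (if b (Sum.inr x) = v then 1 else 0)) = 0 := by
      refine Finset.sum_eq_zero fun x _ => ?_
      rw [h x, CharTwo.add_self_eq_zero, mul_zero]
    rw [h2, add_zero]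
  rw [this]
  ring

private theorem Plus_w1_nonneg {J : ℝ} (hJ : 0 ≤ J) (η : ZMod 2) : 0 ≤ w1 J η := by
  unfold w1
  split_ifs
  · exact (Real.cosh_pos J).le
  · exact Real.sinh_nonneg_iff.2 hJ

private theorem Plus_mass_pos {E : Type*} [Fintype E] [DecidableEq E] {J : E → ℝ}
    (hJ : ∀ e, 0 ≤ J e) : 0 < ∑ η : E → ZMod 2, ∏ x, w1 (J x) (η x) := by
  refine Finset.sum_pos' (fun η _ => Finset.prod_nonneg fun x _ => Plus_w1_nonneg (hJ x) _)
    ⟨0, Finset.mem_univ _, Finset.prod_pos fun x _ => ?_⟩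
  unfold w1
  simp only [Pi.zero_apply, if_true]
  exact Real.cosh_pos _

/-! ### The box -/

private theorem Plus_mem_box {N : ℕ} {v : Vtx d} :
    v ∈ box d N ↔ ∀ i, -(N : ℤ) ≤ v i ∧ v i ≤ N := by
  unfold box
  rw [Fintype.mem_piFinset]
  simp [Finset.mem_Icc]

private theorem Plus_box_mono {N M : ℕ} (h : N ≤ M) : box d N ⊆ box d M := by
  intro v hv
  rw [Plus_mem_box] at hv ⊢
  intro i
  have := hv i
  have h' : (N : ℤ) ≤ M := by exact_mod_cast h
  omega

private theorem Plus_nbr {N : ℕ} {v w : Vtx d} {i : Fin d} (hv : v ∈ box d N)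
    (hw : w = v + Pi.single i 1 ∨ v = w + Pi.single i 1) : w ∈ box d (N + 1) := by
  rw [Plus_mem_box] at hv ⊢
  intro j
  have h1 := hv j
  have h2 : (Pi.single i (1 : ℤ) : Vtx d) j = 0 ∨ (Pi.single i (1 : ℤ) : Vtx d) j = 1 := by
    by_cases hij : j = i
    · subst hij; right; simp
    · left; simp [hij]
  push_cast
  rcases hw with hw | hw
  · rw [hw, Pi.add_apply]
    rcases h2 with h2 | h2 <;> rw [h2] <;> omega
  · rw [hw, Pi.add_apply] at h1
    rcases h2 with h2 | h2 <;> rw [h2] at h1 <;> omega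

private theorem Plus_touch {R : ℕ} {e : Edg d} :
    e ∈ touchE d R ↔ e.1 ∈ box d R ∨ tip e ∈ box d R := by
  unfold touchE boxE
  rw [Finset.mem_filter, Finset.mem_filter, Finset.mem_product]
  constructor
  · intro h
    exact h.2
  · intro h
    have h1 : e.1 ∈ box d (R + 1) ∧ tip e ∈ box d (R + 1) := by
      rcases h with h | h
      · exact ⟨Plus_box_mono (Nat.le_succ R) h, Plus_nbr h (Or.inl rfl)⟩
      · exact ⟨Plus_nbr h (Or.inr rfl), Plus_box_mono (Nat.le_succ R) h⟩
    exact ⟨⟨⟨h1.1, Finset.mem_univ _⟩, h1.2⟩, h⟩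

theorem rP_anti {Λ Λ' : Finset (Vtx d)} (h : Λ ⊆ Λ') (E : Finset (Edg d)) {β : ℝ} (hβ : 0 ≤ β)
    (s : Option (Vtx d) → ZMod 2) (hs : ∀ v, v ∉ Λ → s (some v) = 0) :
    rP Λ' E β s ≤ rP Λ E β s := by
  have key : ∀ v : Vtx d, mrg ((Λ' \ Λ).image some) none (mg Λ' v) = mg Λ v := by
    intro v
    unfold mrg mg
    by_cases h1 : v ∈ Λ
    · have h2 : v ∈ Λ' := h h1
      simp [h1, h2]
    · by_cases h2 : v ∈ Λ'
      · simp [h1, h2]
      · simp [h1, h2]
  have h1 := rr_merge (fun e : {e // e ∈ E} => mg Λ' e.1.1) (fun e => mg Λ' (tip e.1))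
    (J := fun _ => β) (fun _ => hβ) ((Λ' \ Λ).image some) none (by simp) s (by
      intro v hv
      rw [Finset.mem_image] at hv
      obtain ⟨w, hw, rfl⟩ := hv
      exact hs w (Finset.mem_sdiff.1 hw).2)
  simp only [key] at h1
  exact h1

/-- Edges without end in `Λ` play no role. -/
theorem rP_edges (Λ : Finset (Vtx d)) {E E' : Finset (Edg d)} (h : E ⊆ E')
    (h' : ∀ e ∈ E', e ∉ E → e.1 ∉ Λ ∧ tip e ∉ Λ) {β : ℝ} (hβ : 0 ≤ β)
    (s : Option (Vtx d) → ZMod 2) : rP Λ E' β s = rP Λ E β s := by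
  -- the equivalence of the edges
  let φ : {e // e ∈ E} ⊕ {e // e ∈ E' \ E} ≃ {e // e ∈ E'} :=
    { toFun := fun x => match x with
        | Sum.inl e => ⟨e.1, h e.2⟩
        | Sum.inr e => ⟨e.1, (Finset.mem_sdiff.1 e.2).1⟩
      invFun := fun e => if he : e.1 ∈ E then Sum.inl ⟨e.1, he⟩
        else Sum.inr ⟨e.1, Finset.mem_sdiff.2 ⟨e.2, he⟩⟩
      left_inv := by
        rintro (⟨e, he⟩ | ⟨e, he⟩)
        · simp [he]
        · have := (Finset.mem_sdiff.1 he).2
          simp [this]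
      right_inv := by
        rintro ⟨e, he⟩
        by_cases h1 : e ∈ E
        · simp [h1]
        · simp [h1] }
  have key : ∀ t : Option (Vtx d) → ZMod 2,
      Z (fun e : {e // e ∈ E'} => mg Λ e.1.1) (fun e => mg Λ (tip e.1)) (fun _ => β) t =
      Z (fun e : {e // e ∈ E} => mg Λ e.1.1) (fun e => mg Λ (tip e.1)) (fun _ => β) t *
      ∑ η : {e // e ∈ E' \ E} → ZMod 2, ∏ x, w1 β (η x) := by
    intro t
    rw [← Plus_Z_equiv φ (fun e : {e // e ∈ E'} => mg Λ e.1.1) (fun e => mg Λ (tip e.1))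
      (fun _ => β) t]
    exact Plus_Z_loops (fun x => mg Λ (φ x).1.1) (fun x => mg Λ (tip (φ x).1)) (fun _ => β) (by
      rintro ⟨e, he⟩
      have h1 := Finset.mem_sdiff.1 he
      have h2 := h' e h1.1 h1.2
      show mg Λ e.1 = mg Λ (tip e)
      unfold mg
      rw [if_neg h2.1, if_neg h2.2]) t
  have hpos : 0 < ∑ η : {e // e ∈ E' \ E} → ZMod 2, ∏ x, w1 β (η x) :=
    Plus_mass_pos (J := fun _ => β) fun _ => hβ
  unfold rP rr
  rw [key, key, mul_div_mul_right _ _ hpos.ne']

private theorem Plus_so_bij (z : Vtx d) :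
    Function.Bijective (Option.map (fun v : Vtx d => v + z)) := by
  constructor
  · exact Option.map_injective (add_left_injective z)
  · intro v
    cases v with
    | none => exact ⟨none, rfl⟩
    | some v => exact ⟨some (v - z), by simp⟩

private theorem Plus_so_map (z : Vtx d) (s : Option (Vtx d) → ZMod 2) (v : Option (Vtx d)) :
    so z s (Option.map (fun v : Vtx d => v + z) v) = s v := by
  cases v <;> simp [so]

theorem rP_shift (z : Vtx d) (Λ : Finset (Vtx d)) (E : Finset (Edg d)) (β : ℝ)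
    (s : Option (Vtx d) → ZMod 2) :
    rP (Λ.image (· + z)) (sE z E) β (so z s) = rP Λ E β s := by
  let φ : {e // e ∈ E} ≃ {e // e ∈ sE z E} :=
    { toFun := fun e => ⟨(e.1.1 + z, e.1.2), by rw [mem_sE]; simp⟩
      invFun := fun e => ⟨(e.1.1 - z, e.1.2), mem_sE.1 e.2⟩
      left_inv := by rintro ⟨e, he⟩; simp
      right_inv := by rintro ⟨e, he⟩; simp }
  have hm : ∀ v : Vtx d, mg (Λ.image (· + z)) (v + z) =
      Option.map (fun v : Vtx d => v + z) (mg Λ v) := by
    intro v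
    unfold mg
    by_cases h1 : v ∈ Λ
    · simp [h1]
    · simp [h1]
  have key : ∀ t t' : Option (Vtx d) → ZMod 2,
      (∀ v, t' (Option.map (fun v : Vtx d => v + z) v) = t v) →
      Z (fun e : {e // e ∈ sE z E} => mg (Λ.image (· + z)) e.1.1)
        (fun e => mg (Λ.image (· + z)) (tip e.1)) (fun _ => β) t' =
      Z (fun e : {e // e ∈ E} => mg Λ e.1.1) (fun e => mg Λ (tip e.1)) (fun _ => β) t := by
    intro t t' ht
    rw [← Plus_Z_equiv φ (fun e : {e // e ∈ sE z E} => mg (Λ.image (· + z)) e.1.1)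
      (fun e => mg (Λ.image (· + z)) (tip e.1)) (fun _ => β) t']
    rw [← Plus_Z_map (Option.map (fun v : Vtx d => v + z)) (Plus_so_bij z)
      (fun e : {e // e ∈ E} => mg Λ e.1.1) (fun e => mg Λ (tip e.1)) (fun _ => β) t t' ht]
    have e1 : (fun x : {e // e ∈ E} => mg (Λ.image (· + z)) (φ x).1.1) =
        fun x => Option.map (fun v : Vtx d => v + z) (mg Λ x.1.1) := by
      funext x
      exact hm x.1.1
    have e2 : (fun x : {e // e ∈ E} => mg (Λ.image (· + z)) (tip (φ x).1)) =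
        fun x => Option.map (fun v : Vtx d => v + z) (mg Λ (tip x.1)) := by
      funext x
      have : tip (φ x).1 = tip x.1 + z := tip_add x.1 z
      rw [← hm, this]
    rw [e1, e2]
  unfold rP rr
  rw [key s (so z s) (Plus_so_map z s), key 0 0 (fun v => rfl)]

/-- The plus state decreases with the volume. -/
theorem rp_le {N N' : ℕ} {z : Vtx d} (h : ∀ v ∈ box d N, v + z ∈ box d N') {β : ℝ} (hβ : 0 ≤ β)
    (s : Option (Vtx d) → ZMod 2) (hs : ∀ v, v ∉ box d N → s (some v) = 0) :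
    rp N' β (so z s) ≤ rp N β s := by
  have hmem : ∀ v : Vtx d, v ∈ (box d N).image (· + z) ↔ v - z ∈ box d N := by
    intro v
    rw [Finset.mem_image]
    constructor
    · rintro ⟨w, hw, rfl⟩
      simpa using hw
    · intro hv
      exact ⟨v - z, hv, by simp⟩
  have h1 : (box d N).image (· + z) ⊆ box d N' := by
    intro v hv
    rw [hmem] at hv
    have := h _ hv
    simpa using this
  have h2 : sE z (touchE d N) ⊆ touchE d N' := by
    intro e he
    rw [mem_sE, Plus_touch, tip_sub] at he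
    rw [Plus_touch]
    rcases he with he | he
    · left
      exact h1 ((hmem _).2 he)
    · right
      exact h1 ((hmem _).2 he)
  have h3 : ∀ e ∈ touchE d N', e ∉ sE z (touchE d N) →
      e.1 ∉ (box d N).image (· + z) ∧ tip e ∉ (box d N).image (· + z) := by
    intro e _ he
    rw [mem_sE, Plus_touch, tip_sub] at he
    push Not at he
    rw [hmem, hmem]
    exact he
  unfold rp
  rw [← rP_shift z (box d N) (touchE d N) β s,
    ← rP_edges ((box d N).image (· + z)) h2 h3 hβ (so z s)]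
  refine rP_anti h1 (touchE d N') hβ (so z s) ?_
  intro v hv
  rw [hmem] at hv
  exact hs _ hv

end Pool.Agent.H48.SC
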