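import Pool.Agent.H48.SC.Rr
import Pool.Agent.H48.SC.Lat

/-! # The plus state: definitions -/

set_option autoImplicit false

namespace Pool.Agent.H48.SC

open Pool.Agent.H90.SC

variable {d : ℕ}

/-- The vertices outside `Λ` are merged into `none`. -/
def mg (Λ : Finset (Vtx d)) (v : Vtx d) : Option (Vtx d) := if v ∈ Λ then some v else none

/-- Correlations of the Ising model on the edges `E` with plus boundary condition outside `Λ`. -/
noncomputable def rP (Λ : Finset (Vtx d)) (E : Finset (Edg d)) (β : ℝ)
    (s : Option (Vtx d) → ZMod 2) : ℝ :=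
  rr (fun e : {e // e ∈ E} => mg Λ e.1.1) (fun e => mg Λ (tip e.1)) (fun _ => β) s

/-- The plus state in the box. -/
noncomputable def rp (N : ℕ) (β : ℝ) (s : Option (Vtx d) → ZMod 2) : ℝ :=
  rP (box d N) (touchE d N) β s

/-- Translation of a function on the vertices (with ghost). -/
def so (z : Vtx d) (s : Option (Vtx d) → ZMod 2) : Option (Vtx d) → ZMod 2
  | none => s none
  | some v => s (some (v - z))

/-- Extension of a function on the vertices by `0` at the ghost. -/
def lf (s : Vtx d → ZMod 2) : Option (Vtx d) → ZMod 2
  | none => 0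
  | some v => s v

theorem lf_dl (x : Vtx d) : lf (dl x) = dl (some x) := by
  funext v
  cases v <;> simp [lf, dl]

theorem lf_add (s t : Vtx d → ZMod 2) : lf (s + t) = lf s + lf t := by
  funext v
  cases v <;> simp [lf]

theorem lf_zero : lf (0 : Vtx d → ZMod 2) = 0 := by
  funext v
  cases v <;> simp [lf]

/-- The energy of the edge `e` in the plus state of the box. -/
noncomputable def epN (N : ℕ) (β : ℝ) (e : Edg d) : ℝ := rp N β (dl (some e.1) + dl (some (tip e)))

/-- The energy of the edge `e` in the free state of the box. -/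
noncomputable def efN (N : ℕ) (β : ℝ) (e : Edg d) : ℝ := rt (boxE d N) β (dl e.1 + dl (tip e))

/-- The energy of the edges in direction `i` in the plus state. -/
noncomputable def ep (i : Fin d) (β : ℝ) : ℝ := ⨅ N : ℕ, epN (N + 1) β ((0 : Vtx d), i)

/-- The energy of the edges in direction `i` in the free state. -/
noncomputable def ef (i : Fin d) (β : ℝ) : ℝ := ⨆ N : ℕ, efN N β ((0 : Vtx d), i)

end Pool.Agent.H48.SC
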