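import Pool.Agent.H48.SC.Gks

/-! # Correlations on a general finite graph -/

set_option autoImplicit false

namespace Pool.Agent.H48.SC

variable {E V : Type*} [Fintype E] [DecidableEq E] [DecidableEq V]

/-- The correlation `⟨σ_s⟩`. -/
noncomputable def rr (a b : E → V) (J : E → ℝ) (s : V → ZMod 2) : ℝ := Z a b J s / Z a b J 0

theorem rr_zero (a b : E → V) {J : E → ℝ} (hJ : ∀ e, 0 ≤ J e) : rr a b J 0 = 1 :=
  div_self (Z_zero_pos a b J hJ).ne'

theorem rr_nonneg (a b : E → V) {J : E → ℝ} (hJ : ∀ e, 0 ≤ J e) (s : V → ZMod 2) :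
    0 ≤ rr a b J s := div_nonneg (Z_nonneg a b J hJ s) (Z_nonneg a b J hJ 0)

theorem rr_gks (a b : E → V) {J : E → ℝ} (hJ : ∀ e, 0 ≤ J e) (s t : V → ZMod 2) :
    rr a b J s * rr a b J t ≤ rr a b J (s + t) := by
  have h0 := Z_zero_pos a b J hJ
  have h := gks' a b J hJ s t
  unfold rr
  rw [div_mul_div_comm, div_le_div_iff₀ (mul_pos h0 h0) h0]
  nlinarith

theorem rr_le_one (a b : E → V) {J : E → ℝ} (hJ : ∀ e, 0 ≤ J e) (s : V → ZMod 2) :
    rr a b J s ≤ 1 := by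
  have h := rr_gks a b hJ s s
  have h1 : s + s = 0 := by
    funext v
    exact CharTwo.add_self_eq_zero (s v)
  rw [h1, rr_zero a b hJ] at h
  have h2 := rr_nonneg a b hJ s
  nlinarith

theorem rr_mono (a b : E → V) {J J' : E → ℝ} (hJ : ∀ e, 0 ≤ J e) (h : ∀ e, J e ≤ J' e)
    (s : V → ZMod 2) : rr a b J s ≤ rr a b J' s := by
  unfold rr
  rw [div_le_div_iff₀ (Z_zero_pos a b J hJ) (Z_zero_pos a b J' fun e => (hJ e).trans (h e))]
  exact gks_mono a b J J' hJ h s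

end Pool.Agent.H48.SC
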