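import Pool.Agent.H48.SC.Ext
import Pool.Agent.H48.SC.Gks

/-! # Correlations of the Ising model on a finite set of edges -/

set_option autoImplicit false

namespace Pool.Agent.H48.SC

open Pool.Agent.H90.SC MeasureTheory

variable {d : ℕ}

theorem ZE_pos (E : Finset (Edg d)) {β : ℝ} (hβ : 0 ≤ β) : 0 < ZE E β 0 :=
  Z_zero_pos _ _ _ fun _ => hβ

private theorem rt_ZE_nonneg (E : Finset (Edg d)) {β : ℝ} (hβ : 0 ≤ β) (s : Vtx d → ZMod 2) :
    0 ≤ ZE E β s :=
  Z_nonneg _ _ _ (fun _ => hβ) s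

theorem rt_zero (E : Finset (Edg d)) {β : ℝ} (hβ : 0 ≤ β) : rt E β 0 = 1 := by
  unfold rt
  exact div_self (ZE_pos E hβ).ne'

theorem rt_nonneg (E : Finset (Edg d)) {β : ℝ} (hβ : 0 ≤ β) (s : Vtx d → ZMod 2) :
    0 ≤ rt E β s := by
  unfold rt
  exact div_nonneg (rt_ZE_nonneg E hβ s) (ZE_pos E hβ).le

theorem rt_le_one (E : Finset (Edg d)) {β : ℝ} (hβ : 0 ≤ β) (s : Vtx d → ZMod 2) :
    rt E β s ≤ 1 := by
  unfold rt
  have h0 := ZE_pos E hβ
  have h1 := rt_ZE_nonneg E hβ s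
  rw [div_le_one h0]
  have h2 : ZE E β s * ZE E β s ≤ ZE E β (s + s) * ZE E β 0 :=
    gks' (ea E) (eb E) (fun _ => β) (fun _ => hβ) s s
  have h3 : s + s = 0 := funext fun v => CharTwo.add_self_eq_zero (s v)
  rw [h3] at h2
  exact abs_le_of_sq_le_sq' (by nlinarith) h0.le |>.2

private theorem rt_Z_restrict {E E' : Finset (Edg d)} (h : E ⊆ E') (β : ℝ)
    (s : Vtx d → ZMod 2) :
    Z (ea E') (eb E') (fun e => if e.1 ∈ E then β else 0) s = ZE E β s := by
  have hι : Function.Injective (fun e : {e // e ∈ E} => (⟨e.1, h e.2⟩ : {e // e ∈ E'})) := by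
    intro e f hef
    have := congrArg Subtype.val hef
    exact Subtype.ext this
  rw [Z_ext (fun e : {e // e ∈ E} => (⟨e.1, h e.2⟩ : {e // e ∈ E'})) hι (ea E') (eb E')
    (fun e => if e.1 ∈ E then β else 0)]
  · unfold ZE
    have h1 : ((fun e : {e // e ∈ E'} => if e.1 ∈ E then β else 0) ∘
        fun e : {e // e ∈ E} => (⟨e.1, h e.2⟩ : {e // e ∈ E'})) = fun _ => β := by
      funext e
      simp only [Function.comp_apply]
      rw [if_pos e.2]
    rw [h1]
    rfl
  · intro e he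
    by_cases h2 : e.1 ∈ E
    · exact absurd ⟨⟨e.1, h2⟩, rfl⟩ he
    · exact if_neg h2

theorem rt_mono {E E' : Finset (Edg d)} (h : E ⊆ E') {β : ℝ} (hβ : 0 ≤ β) (s : Vtx d → ZMod 2) :
    rt E β s ≤ rt E' β s := by
  have h1 := gks_mono (ea E') (eb E') (fun e => if e.1 ∈ E then β else 0) (fun _ => β)
    (fun e => by split_ifs <;> [exact hβ; exact le_rfl])
    (fun e => by split_ifs <;> [exact le_rfl; exact hβ]) s
  rw [rt_Z_restrict h, rt_Z_restrict h] at h1
  unfold rt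
  rw [div_le_div_iff₀ (ZE_pos E hβ) (ZE_pos E' hβ)]
  exact h1

theorem rt_mono_beta (E : Finset (Edg d)) {β β' : ℝ} (hβ : 0 ≤ β) (h : β ≤ β')
    (s : Vtx d → ZMod 2) : rt E β s ≤ rt E β' s := by
  have h1 := gks_mono (ea E) (eb E) (fun _ => β) (fun _ => β') (fun _ => hβ) (fun _ => h) s
  unfold rt
  rw [div_le_div_iff₀ (ZE_pos E hβ) (ZE_pos E (hβ.trans h))]
  exact h1

theorem rt_gks (E : Finset (Edg d)) {β : ℝ} (hβ : 0 ≤ β) (s t : Vtx d → ZMod 2) :
    rt E β s * rt E β t ≤ rt E β (s + t) := by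
  have h1 : ZE E β s * ZE E β t ≤ ZE E β (s + t) * ZE E β 0 :=
    gks' (ea E) (eb E) (fun _ => β) (fun _ => hβ) s t
  have h0 := ZE_pos E hβ
  unfold rt
  rw [div_mul_div_comm, div_le_div_iff₀ (mul_pos h0 h0) h0]
  nlinarith

private theorem rt_sv_inj (z : Vtx d) {s t : Vtx d → ZMod 2} (h : sv z s = sv z t) : s = t := by
  funext v
  have := congrFun h (v + z)
  simpa [sv] using this

private theorem rt_ZE_shift (z : Vtx d) (E : Finset (Edg d)) (β : ℝ) (s : Vtx d → ZMod 2) :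
    ZE (sE z E) β (sv z s) = ZE E β s := by
  have hm : ∀ e : {e // e ∈ E}, ((e.1.1 + z, e.1.2) : Edg d) ∈ sE z E := by
    intro e
    rw [mem_sE]
    have : (((e.1.1 + z, e.1.2) : Edg d).1 - z, ((e.1.1 + z, e.1.2) : Edg d).2) = e.1 := by
      simp
    rw [this]
    exact e.2
  set ι : {e // e ∈ E} → {e // e ∈ sE z E} := fun e => ⟨(e.1.1 + z, e.1.2), hm e⟩ with hι_def
  have hι : Function.Injective ι := by
    intro e f hef
    have h1 := congrArg Subtype.val hef
    have h2 : e.1.1 + z = f.1.1 + z := congrArg Prod.fst h1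
    have h3' : (ι e).1.2 = (ι f).1.2 := congrArg Prod.snd h1
    have h3 : e.1.2 = f.1.2 := h3'
    exact Subtype.ext (Prod.ext (add_right_cancel h2) h3)
  unfold ZE
  rw [Z_ext ι hι (ea (sE z E)) (eb (sE z E)) (fun _ => β)]
  · unfold Z
    refine Finset.sum_congr rfl fun η _ => ?_
    congr 1
    have h4 : bd (ea (sE z E) ∘ ι) (eb (sE z E) ∘ ι) η = sv z (bd (ea E) (eb E) η) := by
      funext v
      unfold bd sv
      refine Finset.sum_congr rfl fun e _ => ?_
      have h5 : (ea (sE z E) ∘ ι) e = ea E e + z := rfl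
      have h6 : (eb (sE z E) ∘ ι) e = eb E e + z := tip_add e.1 z
      rw [h5, h6]
      congr 2
      · exact if_congr eq_sub_iff_add_eq.symm rfl rfl
      · exact if_congr eq_sub_iff_add_eq.symm rfl rfl
    rw [h4]
    congr 1
    apply propext
    constructor
    · intro h
      exact rt_sv_inj z h
    · intro h
      rw [h]
  · intro e he
    exfalso
    apply he
    have h7 := (mem_sE (z := z) (E := E) (e := e.1)).1 e.2
    refine ⟨⟨(e.1.1 - z, e.1.2), h7⟩, ?_⟩
    apply Subtype.ext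
    simp [hι_def]

theorem rt_shift (z : Vtx d) (E : Finset (Edg d)) (β : ℝ) (s : Vtx d → ZMod 2) :
    rt (sE z E) β (sv z s) = rt E β s := by
  unfold rt
  rw [rt_ZE_shift]
  have h0 : (0 : Vtx d → ZMod 2) = sv z 0 := by
    funext v
    simp [sv]
  conv_lhs => rw [h0]
  rw [rt_ZE_shift]

end Pool.Agent.H48.SC
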