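import Pool.Agent.H48.SC.LimLoc
import Pool.Agent.H48.SC.FinCond
import Pool.Agent.H48.SC.GeoInf

/-! # Lower bound for the two-point connection probability -/

set_option autoImplicit false

namespace Pool.Agent.H48.SC

open Pool.Agent.H90.SC MeasureTheory Filter Topology

variable {d : ℕ}

private theorem Two_w_nonneg {β : ℝ} (hβ : 0 ≤ β) (E : Finset (Edg d)) (m : E → ℕ) :
    0 ≤ ∏ e, β ^ m e / ((m e).factorial : ℝ) :=
  Finset.prod_nonneg fun e _ => div_nonneg (pow_nonneg hβ _) (Nat.cast_nonneg _)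

open Classical in
private theorem Two_summable {β : ℝ} (hβ : 0 ≤ β) (E : Finset (Edg d)) (A : Set (Edg d → ℕ)) :
    Summable fun m : E → ℕ => if Sourceless E m ∧ ext0 E m ∈ A then
      ∏ e, β ^ m e / ((m e).factorial : ℝ) else 0 := by
  have h := (cur_law (E := E) (fun _ => β) (fun _ _ => 1)).summable
  have h' : Summable fun m : E → ℕ => ∏ e, β ^ m e / ((m e).factorial : ℝ) := by
    simpa using h
  refine Summable.of_nonneg_of_le (fun m => ?_) (fun m => ?_) h'
  · split_ifs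
    · exact Two_w_nonneg hβ E m
    · exact le_rfl
  · split_ifs
    · exact le_rfl
    · exact Two_w_nonneg hβ E m

/-- Splitting according to the values on `F`. -/
private theorem Two_split {β : ℝ} (hβ : 0 ≤ β) (E F : Finset (Edg d))
    (A : Set (Edg d → ℕ)) :
    HasSum (fun k : F → ℕ => curSum β E {n | n ∈ cyl F (ext0 F k) ∧ n ∈ A})
      (curSum β E A) := by
  classical
  have h1 := (Two_summable hβ E A).hasSum
  have h2 := h1.tsum_fiberwise (fun (m : E → ℕ) (e : F) => ext0 E m e.1)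
  have h3 : (fun k : F → ℕ => curSum β E {n | n ∈ cyl F (ext0 F k) ∧ n ∈ A}) =
      fun k : F → ℕ => ∑' m : (fun (m : E → ℕ) (e : F) => ext0 E m e.1) ⁻¹' {k},
        (if Sourceless E m.1 ∧ ext0 E m.1 ∈ A then
          ∏ e, β ^ m.1 e / ((m.1 e).factorial : ℝ) else 0) := by
    funext k
    rw [tsum_subtype ((fun (m : E → ℕ) (e : F) => ext0 E m e.1) ⁻¹' {k})
      (fun m : E → ℕ => if Sourceless E m ∧ ext0 E m ∈ A then
          ∏ e, β ^ m e / ((m e).factorial : ℝ) else 0)]
    unfold curSum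
    refine tsum_congr fun m => ?_
    have h4 : m ∈ (fun (m : E → ℕ) (e : F) => ext0 E m e.1) ⁻¹' {k} ↔
        ext0 E m ∈ cyl F (ext0 F k) := by
      constructor
      · intro h e he
        have h5 : (fun e : F => ext0 E m e.1) = k := h
        rw [← h5]
        simp [ext0, he]
      · intro h
        show (fun e : F => ext0 E m e.1) = k
        funext e
        have h5 := h e.1 e.2
        rw [h5]
        simp [ext0]
    by_cases h5 : m ∈ (fun (m : E → ℕ) (e : F) => ext0 E m e.1) ⁻¹' {k}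
    · rw [Set.indicator_of_mem h5]
      have h6 := h4.1 h5
      have h7 : (Sourceless E m ∧ ext0 E m ∈ {n | n ∈ cyl F (ext0 F k) ∧ n ∈ A}) ↔
          (Sourceless E m ∧ ext0 E m ∈ A) :=
        ⟨fun h => ⟨h.1, h.2.2⟩, fun h => ⟨h.1, h6, h.2⟩⟩
      simp only [h7]
    · rw [Set.indicator_of_notMem h5, if_neg]
      rintro ⟨_, h6, _⟩
      exact h5 (h4.2 h6)
  rw [h3]
  exact h2

/-- Lower bound for the probability of a connection inside `G`. -/
theorem Pcur_conn_in {E G : Finset (Edg d)} (hG : G ⊆ E) {β : ℝ} (hβ : 0 ≤ β) (x y : Vtx d) :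
    rt G (β / 3) (dl x + dl y) ^ 2 ≤ Pcur β E {n | CnG G n x y} := by
  have hU : 0 < curSum β E Set.univ := by
    rw [curSum_univ]
    exact ZE_pos E hβ
  have hF : E \ G ⊆ E := Finset.sdiff_subset
  have hEG : E \ (E \ G) = G := Finset.sdiff_sdiff_eq_self hG
  have h1 := Two_split hβ E (E \ G) {n | CnG G n x y}
  have h2 := Two_split hβ E (E \ G) Set.univ
  have h3 := h2.mul_left (rt G (β / 3) (dl x + dl y) ^ 2)
  have h4 : rt G (β / 3) (dl x + dl y) ^ 2 * curSum β E Set.univ ≤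
      curSum β E {n | CnG G n x y} := by
    refine hasSum_le (fun k => ?_) h3 h1
    have h5 := Pcur_conn hF hβ (ext0 (E \ G) k) x y
    rw [hEG] at h5
    unfold Pcur at h5
    rw [← mul_div_assoc] at h5
    have h6 := (div_le_div_iff_of_pos_right hU).1 h5
    have h7 : {n : Edg d → ℕ | n ∈ cyl (E \ G) (ext0 (E \ G) k) ∧ n ∈ Set.univ} =
        cyl (E \ G) (ext0 (E \ G) k) := by
      ext n
      simp
    rw [h7]
    exact h6
  unfold Pcur
  rw [le_div_iff₀ hU]
  exact h4

theorem Loc_CnG (G : Finset (Edg d)) (x y : Vtx d) : Loc G {n : Edg d → ℕ | CnG G n x y} := by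
  intro n n' hn hc
  refine Relation.ReflTransGen.mono ?_ _ _ hc
  rintro a b ⟨e, he, h1, h2⟩
  exact ⟨e, he, by rw [← hn e he]; exact h1, h2⟩

theorem reachable_of_CnG {G : Finset (Edg d)} {n : Edg d → ℕ} {x y : Vtx d} (h : CnG G n x y) :
    (graphOf {e | 0 < n e}).Reachable x y := by
  induction h with
  | refl => exact SimpleGraph.Reachable.refl x
  | @tail b c _ hbc ih =>
    by_cases hne : b = c
    · rw [← hne]; exact ih
    · refine ih.trans (SimpleGraph.Adj.reachable ?_)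
      obtain ⟨e, _, hpos, hor⟩ := hbc
      unfold graphOf
      rw [SimpleGraph.fromRel_adj]
      refine ⟨hne, ?_⟩
      rcases hor with ⟨h1, h2⟩ | ⟨h1, h2⟩
      · exact Or.inl ⟨e, hpos, h1.symm, h2.symm⟩
      · exact Or.inr ⟨e, hpos, h1.symm, h2.symm⟩

theorem mu_conn {β : ℝ} (hβ : 0 ≤ β) {μ : Measure (Edg d → ℕ)} [IsProbabilityMeasure μ]
    (hμ : IsLimit d β μ) {c : ℝ} (hc : 0 < c) (x y : Vtx d)
    (hl : ∃ N0, ∀ N ≥ N0, c ≤ rt (boxE d N) (β / 3) (dl x + dl y)) :
    c ^ 2 ≤ μ.real {n | (graphOf {e | 0 < n e}).Reachable x y} := by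
  obtain ⟨N0, hN0⟩ := hl
  have h1 := lim_local hβ hμ (Loc_CnG (boxE d N0) x y)
  have h2 : c ^ 2 ≤ μ.real {n | CnG (boxE d N0) n x y} := by
    refine ge_of_tendsto h1 ?_
    filter_upwards [eventually_ge_atTop N0] with N hN
    refine le_trans ?_ (Pcur_conn_in (boxE_mono hN) hβ x y)
    exact pow_le_pow_left₀ hc.le (hN0 N0 le_rfl) 2
  refine h2.trans ?_
  exact measureReal_mono (fun n hn => reachable_of_CnG hn)

end Pool.Agent.H48.SC
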